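import Pool.Agent.VDC.Chain

/-!
# Simplicity of the boundary of a chain with spikes
-/

namespace Pool.Agent.VDC

open Set

private theorem ln_left (p q : ℝ × ℝ) : ln p q p.1 = p.2 := by
  unfold ln; ring

private theorem ln_right {p q : ℝ × ℝ} (h : p.1 < q.1) : ln p q q.1 = q.2 := by
  unfold ln
  have : q.1 - p.1 ≠ 0 := by linarith
  field_simp
  ring

private theorem mem_segment_ln {p q z : ℝ × ℝ} (h : p.1 < q.1) :
    z ∈ segment ℝ p q ↔ p.1 ≤ z.1 ∧ z.1 ≤ q.1 ∧ z.2 = ln p q z.1 := by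
  have h0 : q.1 - p.1 ≠ 0 := by linarith
  rw [segment_eq_image']
  constructor
  · rintro ⟨t, ⟨ht0, ht1⟩, rfl⟩
    simp only [Prod.fst_add, Prod.smul_fst, Prod.fst_sub, Prod.snd_add, Prod.smul_snd,
      Prod.snd_sub, smul_eq_mul, ln]
    refine ⟨by nlinarith, by nlinarith, ?_⟩
    field_simp
    ring
  · rintro ⟨h1, h2, h3⟩
    refine ⟨(z.1 - p.1) / (q.1 - p.1), ⟨div_nonneg (by linarith) (by linarith), ?_⟩, ?_⟩
    · rw [div_le_one (by linarith)]; linarith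
    · ext
      · simp only [Prod.fst_add, Prod.smul_fst, Prod.fst_sub, smul_eq_mul]
        field_simp
        ring
      · simp only [Prod.snd_add, Prod.smul_snd, Prod.snd_sub, smul_eq_mul]
        rw [h3]
        unfold ln
        field_simp

/-- The difference of two affine functions, at an intermediate point. -/
private theorem ln_interp {p q p' q' : ℝ × ℝ} {a b x : ℝ} :
    (b - a) * (ln p q x - ln p' q' x) =
      (b - x) * (ln p q a - ln p' q' a) + (x - a) * (ln p q b - ln p' q' b) := by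
  unfold ln
  ring

private theorem ln_le_of {p q p' q' : ℝ × ℝ} {a b x : ℝ} (hab : a < b) (hax : a ≤ x) (hxb : x ≤ b)
    (ha : ln p q a ≤ ln p' q' a) (hb : ln p q b ≤ ln p' q' b) : ln p q x ≤ ln p' q' x := by
  have h := ln_interp (p := p) (q := q) (p' := p') (q' := q') (a := a) (b := b) (x := x)
  have h1 : (b - a) * (ln p q x - ln p' q' x) ≤ 0 := by
    rw [h]
    have := mul_nonneg (sub_nonneg.2 hxb) (sub_nonneg.2 ha)
    have := mul_nonneg (sub_nonneg.2 hax) (sub_nonneg.2 hb)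
    nlinarith
  by_contra hc
  push Not at hc
  nlinarith [mul_pos (sub_pos.2 hab) (sub_pos.2 hc)]

/-- Strict at the right end: strict at every point but the left end. -/
private theorem ln_lt_of_right {p q p' q' : ℝ × ℝ} {a b x : ℝ} (hab : a < b) (hax : a < x) (hxb : x ≤ b)
    (ha : ln p q a ≤ ln p' q' a) (hb : ln p q b < ln p' q' b) : ln p q x < ln p' q' x := by
  have h := ln_interp (p := p) (q := q) (p' := p') (q' := q') (a := a) (b := b) (x := x)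
  have h1 : (b - a) * (ln p q x - ln p' q' x) < 0 := by
    rw [h]
    have := mul_nonneg (sub_nonneg.2 hxb) (sub_nonneg.2 ha)
    have := mul_pos (sub_pos.2 hax) (sub_pos.2 hb)
    nlinarith
  by_contra hc
  push Not at hc
  nlinarith [mul_nonneg (sub_pos.2 hab).le (sub_nonneg.2 hc)]

private theorem ln_lt_of_left {p q p' q' : ℝ × ℝ} {a b x : ℝ} (hab : a < b) (hax : a ≤ x) (hxb : x < b)
    (ha : ln p q a < ln p' q' a) (hb : ln p q b ≤ ln p' q' b) : ln p q x < ln p' q' x := by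
  have h := ln_interp (p := p) (q := q) (p' := p') (q' := q') (a := a) (b := b) (x := x)
  have h1 : (b - a) * (ln p q x - ln p' q' x) < 0 := by
    rw [h]
    have := mul_pos (sub_pos.2 hxb) (sub_pos.2 ha)
    have := mul_nonneg (sub_nonneg.2 hax) (sub_nonneg.2 hb)
    nlinarith
  by_contra hc
  push Not at hc
  nlinarith [mul_nonneg (sub_pos.2 hab).le (sub_nonneg.2 hc)]

namespace Chain

variable (Γ : Chain)

private theorem X_lt {i j : ℕ} (hij : i < j) (hj : j ≤ Γ.r) : (Γ.c i).1 < (Γ.c j).1 := by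
  induction j with
  | zero => omega
  | succ j ih =>
    have h1 := Γ.mono j (by omega)
    rcases Nat.lt_succ_iff_lt_or_eq.1 hij with h | h
    · exact (ih h (by omega)).trans h1
    · subst h; exact h1

private theorem X_le {i j : ℕ} (hij : i ≤ j) (hj : j ≤ Γ.r) : (Γ.c i).1 ≤ (Γ.c j).1 := by
  rcases hij.lt_or_eq with h | h
  · exact (Γ.X_lt h hj).le
  · subst h; exact le_rfl

private theorem lt_of_X_lt {i j : ℕ} (hi : i ≤ Γ.r) (h : (Γ.c i).1 < (Γ.c j).1) : i < j := by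
  by_contra hc
  push Not at hc
  exact absurd (Γ.X_le hc hi) (not_le.2 h)

private theorem le_of_X_le {i j : ℕ} (hi : i ≤ Γ.r) (h : (Γ.c i).1 ≤ (Γ.c j).1) : i ≤ j := by
  by_contra hc
  push Not at hc
  exact absurd (Γ.X_lt hc hi) (not_lt.2 h)

private theorem c_inj {i j : ℕ} (hi : i ≤ Γ.r) (hj : j ≤ Γ.r) (h : (Γ.c i).1 = (Γ.c j).1) : i = j :=
  le_antisymm (Γ.le_of_X_le hi h.le) (Γ.le_of_X_le hj h.ge)

/-- The point `z` is strictly below the chain. -/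
private def Below (z : ℝ × ℝ) : Prop :=
  ∃ j, j < Γ.r ∧ (Γ.c j).1 ≤ z.1 ∧ z.1 ≤ (Γ.c (j + 1)).1 ∧ z.2 < ln (Γ.c j) (Γ.c (j + 1)) z.1

private theorem Below.lt {z : ℝ × ℝ} (hz : Γ.Below z) {k : ℕ} (hk : k < Γ.r) (h1 : (Γ.c k).1 ≤ z.1)
    (h2 : z.1 ≤ (Γ.c (k + 1)).1) : z.2 < ln (Γ.c k) (Γ.c (k + 1)) z.1 := by
  obtain ⟨j, hj, h3, h4, h5⟩ := hz
  have hk1 := Γ.le_of_X_le (by omega) (h1.trans h4)
  have hk2 := Γ.le_of_X_le (by omega) (h3.trans h2)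
  rcases lt_trichotomy j k with h | h | h
  · have : k = j + 1 := by omega
    subst this
    have hx : z.1 = (Γ.c (j + 1)).1 := le_antisymm h4 h1
    rw [hx, ln_left]
    rw [hx, ln_right (Γ.mono j hj)] at h5
    exact h5
  · subst h; exact h5
  · have : j = k + 1 := by omega
    subst this
    have hx : z.1 = (Γ.c (k + 1)).1 := le_antisymm h2 h3
    rw [hx, ln_right (Γ.mono k hk)]
    rw [hx, ln_left] at h5
    exact h5

/-- The chain is below the top edge. -/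
private theorem chain_le_top {i : ℕ} (hi : i ≤ Γ.r) :
    (Γ.c i).2 ≤ ln (Γ.c 0) (Γ.c Γ.r) (Γ.c i).1 := by
  have h2 := Γ.two_le
  rcases Nat.eq_zero_or_pos i with h | h
  · subst h; rw [ln_left]
  · rcases hi.lt_or_eq with h' | h'
    · exact (Γ.top i h h').le
    · subst h'; rw [ln_right (Γ.X_lt (by omega) le_rfl)]

private theorem edge_le_top {i : ℕ} (hi : i < Γ.r) {x : ℝ} (h1 : (Γ.c i).1 ≤ x)
    (h2 : x ≤ (Γ.c (i + 1)).1) :
    ln (Γ.c i) (Γ.c (i + 1)) x ≤ ln (Γ.c 0) (Γ.c Γ.r) x := by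
  refine ln_le_of (Γ.mono i hi) h1 h2 ?_ ?_
  · rw [ln_left]; exact Γ.chain_le_top hi.le
  · rw [ln_right (Γ.mono i hi)]; exact Γ.chain_le_top hi

private theorem edge_eq_top {i : ℕ} (hi : i < Γ.r) {x : ℝ} (h1 : (Γ.c i).1 ≤ x)
    (h2 : x ≤ (Γ.c (i + 1)).1)
    (h : ln (Γ.c i) (Γ.c (i + 1)) x = ln (Γ.c 0) (Γ.c Γ.r) x) :
    (i = 0 ∧ x = (Γ.c 0).1) ∨ (i + 1 = Γ.r ∧ x = (Γ.c Γ.r).1) := by
  have hr := Γ.two_le
  rcases Nat.eq_zero_or_pos i with h0 | h0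
  · subst h0
    left
    refine ⟨rfl, ?_⟩
    by_contra hc
    have hlt : (Γ.c 0).1 < x := lt_of_le_of_ne h1 (Ne.symm hc)
    refine absurd h (ne_of_lt (ln_lt_of_right (Γ.mono 0 hi) hlt h2 ?_ ?_))
    · rw [ln_left, ln_left]
    · rw [ln_right (Γ.mono 0 hi)]; exact Γ.top 1 (by omega) (by omega)
  · right
    have ht := Γ.top i h0 hi
    rcases lt_or_eq_of_le (show i + 1 ≤ Γ.r by omega) with h3 | h3
    · exfalso
      have ht' := Γ.top (i + 1) (by omega) h3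
      rcases h1.lt_or_eq with h4 | h4
      · refine absurd h (ne_of_lt (ln_lt_of_right (Γ.mono i hi) h4 h2 ?_ ?_))
        · rw [ln_left]; exact ht.le
        · rw [ln_right (Γ.mono i hi)]; exact ht'
      · rw [← h4, ln_left] at h
        exact absurd h (ne_of_lt ht)
    · refine ⟨h3, ?_⟩
      by_contra hc
      rw [← h3] at hc
      have hlt : x < (Γ.c (i + 1)).1 := lt_of_le_of_ne h2 hc
      refine absurd h (ne_of_lt (ln_lt_of_left (Γ.mono i hi) h1 hlt ?_ ?_))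
      · rw [ln_left]; exact ht
      · rw [ln_right (Γ.mono i hi)]; exact Γ.chain_le_top (by omega)

/-- Points of a lower spike edge. -/
private theorem spikeL {i : ℕ} (hS : Γ.S i) {z : ℝ × ℝ} (hz : z ∈ segment ℝ (Γ.c i) (Γ.w i)) :
    (Γ.c i).1 ≤ z.1 ∧ z.1 ≤ (Γ.w i).1 ∧ z.2 = ln (Γ.c i) (Γ.w i) z.1 ∧
      (z = Γ.c i ∨ Γ.Below z) := by
  have hg := Γ.gap i hS
  have h1 := Γ.mono i (by omega)
  have h2 := Γ.mono (i + 1) (by omega)
  have hw := Γ.w_gt i hS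
  have hw' := Γ.w_lt i hS
  have hb := Γ.w_below i hS
  have hb' := Γ.w_below' i hS
  obtain ⟨h3, h4, h5⟩ := (mem_segment_ln (h1.trans hw)).1 hz
  refine ⟨h3, h4, h5, ?_⟩
  rcases h3.lt_or_eq with h6 | h6
  · right
    have hb2 : ln (Γ.c i) (Γ.w i) (Γ.w i).1 < ln (Γ.c i) (Γ.c (i + 1)) (Γ.w i).1 := by
      rw [ln_right (h1.trans hw)]; exact hb
    have key : ∀ x, (Γ.c i).1 < x → x ≤ (Γ.w i).1 →
        ln (Γ.c i) (Γ.w i) x < ln (Γ.c i) (Γ.c (i + 1)) x := by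
      intro x hx hx'
      exact ln_lt_of_right (h1.trans hw) hx hx' (by rw [ln_left, ln_left]) hb2
    rcases le_total z.1 (Γ.c (i + 1)).1 with h7 | h7
    · exact ⟨i, by omega, h3, h7, h5 ▸ key z.1 h6 h4⟩
    · refine ⟨i + 1, by omega, h7, by linarith, ?_⟩
      rw [h5]
      have hk := key (Γ.c (i + 1)).1 h1 hw.le
      rw [ln_right h1] at hk
      rcases h4.lt_or_eq with h8 | h8
      · refine ln_lt_of_left hw h7 h8 (by rw [ln_left (Γ.c (i + 1))]; exact hk) ?_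
        rw [ln_right (h1.trans hw)]; exact hb'.le
      · rw [h8, ln_right (h1.trans hw)]; exact hb'
  · left
    ext
    · exact h6.symm
    · rw [h5, ← h6, ln_left]

/-- Points of an upper spike edge. -/
private theorem spikeR {i : ℕ} (hS : Γ.S i) {z : ℝ × ℝ} (hz : z ∈ segment ℝ (Γ.w i) (Γ.c (i + 1))) :
    (Γ.c (i + 1)).1 ≤ z.1 ∧ z.1 ≤ (Γ.w i).1 ∧ z.2 = ln (Γ.c (i + 1)) (Γ.w i) z.1 ∧
      (z = Γ.c (i + 1) ∨ Γ.Below z) := by
  have hg := Γ.gap i hS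
  have h1 := Γ.mono i (by omega)
  have h2 := Γ.mono (i + 1) (by omega)
  have hw := Γ.w_gt i hS
  have hw' := Γ.w_lt i hS
  have hb' := Γ.w_below' i hS
  rw [segment_symm] at hz
  obtain ⟨h3, h4, h5⟩ := (mem_segment_ln hw).1 hz
  refine ⟨h3, h4, h5, ?_⟩
  rcases h3.lt_or_eq with h6 | h6
  · right
    refine ⟨i + 1, by omega, h3, by linarith, ?_⟩
    rw [h5]
    refine ln_lt_of_right hw h6 h4 (by rw [ln_left, ln_left]) ?_
    rw [ln_right hw]; exact hb'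
  · left
    ext
    · exact h6.symm
    · rw [h5, ← h6, ln_left]

/-- The two edges of a spike meet at the tip. -/
private theorem spike_tip {i : ℕ} (hS : Γ.S i) {z : ℝ × ℝ} (hz : z ∈ segment ℝ (Γ.c i) (Γ.w i))
    (hz' : z ∈ segment ℝ (Γ.w i) (Γ.c (i + 1))) : z = Γ.w i := by
  have hg := Γ.gap i hS
  have h1 := Γ.mono i (by omega)
  have hw := Γ.w_gt i hS
  have hb := Γ.w_below i hS
  obtain ⟨h3, h4, h5, -⟩ := Γ.spikeL hS hz
  obtain ⟨h6, h7, h8, -⟩ := Γ.spikeR hS hz'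
  have hk : ln (Γ.c i) (Γ.w i) (Γ.c (i + 1)).1 < ln (Γ.c (i + 1)) (Γ.w i) (Γ.c (i + 1)).1 := by
    rw [ln_left (Γ.c (i + 1))]
    have := ln_lt_of_right (p := Γ.c i) (q := Γ.w i) (p' := Γ.c i) (q' := Γ.c (i + 1))
      (h1.trans hw) h1 hw.le (by rw [ln_left, ln_left]) (by rw [ln_right (h1.trans hw)]; exact hb)
    rwa [ln_right h1] at this
  rcases h7.lt_or_eq with h9 | h9
  · exfalso
    have := ln_lt_of_left hw h6 h9 hk (by rw [ln_right hw, ln_right (h1.trans hw)])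
    rw [← h5, ← h8] at this
    exact lt_irrefl _ this
  · ext
    · exact h9
    · rw [h5, h9, ln_right (h1.trans hw)]

/-- Points of a chain edge. -/
private theorem chainE {i : ℕ} (hi : i < Γ.r) {z : ℝ × ℝ}
    (hz : z ∈ segment ℝ (Γ.c i) (Γ.c (i + 1))) :
    (Γ.c i).1 ≤ z.1 ∧ z.1 ≤ (Γ.c (i + 1)).1 ∧ z.2 = ln (Γ.c i) (Γ.c (i + 1)) z.1 ∧
      ¬ Γ.Below z := by
  obtain ⟨h1, h2, h3⟩ := (mem_segment_ln (Γ.mono i hi)).1 hz
  exact ⟨h1, h2, h3, fun h => absurd h3 (ne_of_lt (Below.lt Γ h hi h1 h2))⟩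

/-- Points of the top edge. -/
private theorem topE {z : ℝ × ℝ} (hz : z ∈ segment ℝ (Γ.c Γ.r) (Γ.c 0)) :
    z.2 = ln (Γ.c 0) (Γ.c Γ.r) z.1 ∧ ¬ Γ.Below z := by
  have hr := Γ.two_le
  rw [segment_symm] at hz
  obtain ⟨h1, h2, h3⟩ := (mem_segment_ln (Γ.X_lt (i := 0) (by omega) le_rfl)).1 hz
  refine ⟨h3, ?_⟩
  rintro ⟨j, hj, h4, h5, h6⟩
  have := Γ.edge_le_top hj h4 h5
  linarith

/-- A vertex of the chain on a chain edge is one of its ends. -/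
private theorem c_mem_chain {i j : ℕ} (hi : i ≤ Γ.r) (hj : j < Γ.r)
    (hz : Γ.c i ∈ segment ℝ (Γ.c j) (Γ.c (j + 1))) : i = j ∨ i = j + 1 := by
  obtain ⟨h1, h2, -, -⟩ := Γ.chainE hj hz
  have := Γ.le_of_X_le (by omega) h1
  have := Γ.le_of_X_le hi h2
  omega

private theorem c_mem_top {i : ℕ} (hi : i ≤ Γ.r)
    (hz : Γ.c i ∈ segment ℝ (Γ.c Γ.r) (Γ.c 0)) : i = 0 ∨ i = Γ.r := by
  obtain ⟨h1, -⟩ := Γ.topE hz
  by_contra hc
  push Not at hc
  exact absurd h1 (ne_of_lt (Γ.top i (by omega) (by omega)))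

/-- A code of a vertex is valid. -/
private def Valid (a : ℕ × Bool) : Prop := a.1 ≤ Γ.r ∧ (a.2 = true → Γ.S a.1)

private theorem pt_inj {a b : ℕ × Bool} (ha : Γ.Valid a) (hb : Γ.Valid b) (h : Γ.pt a = Γ.pt b) :
    a = b := by
  obtain ⟨i, s⟩ := a
  obtain ⟨j, t⟩ := b
  obtain ⟨hi, hs⟩ := ha
  obtain ⟨hj, ht⟩ := hb
  simp only at hi hj hs ht
  have aux : ∀ k l, l ≤ Γ.r → Γ.S k → Γ.w k ≠ Γ.c l := by
    intro k l hl hS he
    have hg := Γ.gap k hS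
    have h1 := Γ.w_gt k hS
    have h2 := Γ.w_lt k hS
    rw [he] at h1 h2
    have := Γ.lt_of_X_lt (by omega) h1
    have := Γ.lt_of_X_lt hl h2
    omega
  cases s <;> cases t
  · have he : Γ.c i = Γ.c j := by simpa [pt] using h
    rw [Γ.c_inj hi hj (by rw [he])]
  · have he : Γ.c i = Γ.w j := by simpa [pt] using h
    exact absurd he.symm (aux j i hi (ht rfl))
  · have he : Γ.w i = Γ.c j := by simpa [pt] using h
    exact absurd he (aux i j hj (hs rfl))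
  · have he : Γ.w i = Γ.w j := by simpa [pt] using h
    have hSi := hs rfl
    have hSj := ht rfl
    have h1 := Γ.w_gt i hSi
    have h2 := Γ.w_lt i hSi
    have h3 := Γ.w_gt j hSj
    have h4 := Γ.w_lt j hSj
    have := Γ.gap i hSi
    have := Γ.gap j hSj
    rw [he] at h1 h2
    have := Γ.lt_of_X_lt (by omega) (h1.trans h4)
    have := Γ.lt_of_X_lt (by omega) (h3.trans h2)
    have : i = j := by omega
    rw [this]

private theorem next_unique {a b b' : ℕ × Bool} (ha : Γ.Valid a) (h : Γ.Next a b) (h' : Γ.Next a b') :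
    b = b' := by
  obtain ⟨i, s⟩ := a
  rcases h with ⟨h1, h2⟩ | ⟨h1, h2, h3, h4⟩ | ⟨h1, h2, h3, h4⟩ | ⟨h1, h2, h3⟩ <;>
    rcases h' with ⟨k1, k2⟩ | ⟨k1, k2, k3, k4⟩ | ⟨k1, k2, k3, k4⟩ | ⟨k1, k2, k3⟩ <;>
    simp_all

/-- The four kinds of edges. -/
private theorem next_cases {a b : ℕ × Bool} (ha : Γ.Valid a) (h : Γ.Next a b) :
    (∃ i, Γ.S i ∧ a = (i, true) ∧ b = (i + 1, false)) ∨
    (∃ i, Γ.S i ∧ a = (i, false) ∧ b = (i, true)) ∨
    (∃ i, i < Γ.r ∧ ¬ Γ.S i ∧ a = (i, false) ∧ b = (i + 1, false)) ∨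
    (a = (Γ.r, false) ∧ b = (0, false)) := by
  obtain ⟨i, s⟩ := a
  obtain ⟨-, hs⟩ := ha
  rcases h with ⟨h1, h2⟩ | ⟨h1, h2, h3, h4⟩ | ⟨h1, h2, h3, h4⟩ | ⟨h1, h2, h3⟩
  · simp only at h1 h2 hs
    subst h1
    exact Or.inl ⟨i, hs rfl, rfl, h2⟩
  · simp only at h1 h2 h3 h4
    subst h1
    exact Or.inr (Or.inl ⟨i, h3, rfl, h4⟩)
  · simp only at h1 h2 h3 h4
    subst h1
    exact Or.inr (Or.inr (Or.inl ⟨i, h2, h3, rfl, h4⟩))
  · simp only at h1 h2 h3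
    subst h1 h2
    exact Or.inr (Or.inr (Or.inr ⟨rfl, h3⟩))

/-- Two different edges meet only if they are consecutive, and then in the common vertex. -/
private theorem edges_meet {a b a' b' : ℕ × Bool} (ha : Γ.Valid a) (hb : Γ.Valid b)
    (haa : Γ.Next a a') (hbb : Γ.Next b b') (hab : a ≠ b) {z : ℝ × ℝ}
    (hz : z ∈ segment ℝ (Γ.pt a) (Γ.pt a')) (hz' : z ∈ segment ℝ (Γ.pt b) (Γ.pt b')) :
    (b = a' ∧ z = Γ.pt b) ∨ (a = b' ∧ z = Γ.pt a) := by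
  have hr := Γ.two_le
  -- spike edges against chain edges and the top edge
  have LC : ∀ i j, Γ.S i → j < Γ.r → ¬ Γ.S j → z ∈ segment ℝ (Γ.c i) (Γ.w i) →
      z ∈ segment ℝ (Γ.c j) (Γ.c (j + 1)) → i = j + 1 ∧ z = Γ.c i := by
    intro i j hi hj hSj h1 h2
    obtain ⟨-, -, -, h3⟩ := Γ.spikeL hi h1
    have h4 := (Γ.chainE hj h2).2.2.2
    have h5 : z = Γ.c i := h3.resolve_right h4
    have hg := Γ.gap i hi
    rcases Γ.c_mem_chain (by omega) hj (h5 ▸ h2) with h | h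
    · subst h; exact absurd hi hSj
    · exact ⟨h, h5⟩
  have RC : ∀ i j, Γ.S i → j < Γ.r → ¬ Γ.S j → z ∈ segment ℝ (Γ.w i) (Γ.c (i + 1)) →
      z ∈ segment ℝ (Γ.c j) (Γ.c (j + 1)) → j = i + 1 ∧ z = Γ.c j := by
    intro i j hi hj hSj h1 h2
    obtain ⟨-, -, -, h3⟩ := Γ.spikeR hi h1
    have h4 := (Γ.chainE hj h2).2.2.2
    have h5 : z = Γ.c (i + 1) := h3.resolve_right h4
    have hg := Γ.gap i hi
    rcases Γ.c_mem_chain (by omega) hj (h5 ▸ h2) with h | h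
    · exact ⟨h.symm, h ▸ h5⟩
    · have : i = j := by omega
      subst this; exact absurd hi hSj
  have LT : ∀ i, Γ.S i → z ∈ segment ℝ (Γ.c i) (Γ.w i) →
      z ∈ segment ℝ (Γ.c Γ.r) (Γ.c 0) → i = 0 ∧ z = Γ.c i := by
    intro i hi h1 h2
    obtain ⟨-, -, -, h3⟩ := Γ.spikeL hi h1
    have h5 : z = Γ.c i := h3.resolve_right (Γ.topE h2).2
    have hg := Γ.gap i hi
    rcases Γ.c_mem_top (by omega) (h5 ▸ h2) with h | h
    · exact ⟨h, h5⟩
    · omega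
  have RT : ∀ i, Γ.S i → z ∈ segment ℝ (Γ.w i) (Γ.c (i + 1)) →
      z ∈ segment ℝ (Γ.c Γ.r) (Γ.c 0) → False := by
    intro i hi h1 h2
    obtain ⟨-, -, -, h3⟩ := Γ.spikeR hi h1
    have h5 : z = Γ.c (i + 1) := h3.resolve_right (Γ.topE h2).2
    have hg := Γ.gap i hi
    rcases Γ.c_mem_top (by omega) (h5 ▸ h2) with h | h <;> omega
  -- chain edges
  have CC : ∀ i j, i < j → j < Γ.r → z ∈ segment ℝ (Γ.c i) (Γ.c (i + 1)) →
      z ∈ segment ℝ (Γ.c j) (Γ.c (j + 1)) → j = i + 1 ∧ z = Γ.c j := by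
    intro i j hij hj h1 h2
    obtain ⟨h3, h4, h5, -⟩ := Γ.chainE (by omega) h1
    obtain ⟨h6, h7, h8, -⟩ := Γ.chainE hj h2
    have h9 := Γ.le_of_X_le (by omega) (h6.trans h4)
    have h10 : j = i + 1 := by omega
    subst h10
    refine ⟨rfl, ?_⟩
    have hx : z.1 = (Γ.c (i + 1)).1 := le_antisymm h4 h6
    ext
    · exact hx
    · rw [h8, hx, ln_left]
  have CT : ∀ i, i < Γ.r → z ∈ segment ℝ (Γ.c i) (Γ.c (i + 1)) →
      z ∈ segment ℝ (Γ.c Γ.r) (Γ.c 0) →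
      (i = 0 ∧ z = Γ.c 0) ∨ (i + 1 = Γ.r ∧ z = Γ.c Γ.r) := by
    intro i hi h1 h2
    obtain ⟨h3, h4, h5, -⟩ := Γ.chainE hi h1
    have h6 := (Γ.topE h2).1
    rcases Γ.edge_eq_top hi h3 h4 (h5 ▸ h6) with ⟨h, h'⟩ | ⟨h, h'⟩
    · left
      refine ⟨h, ?_⟩
      ext
      · exact h'
      · rw [h6, h', ln_left]
    · right
      refine ⟨h, ?_⟩
      ext
      · exact h'
      · rw [h6, h', ln_right (Γ.X_lt (by omega) le_rfl)]
  -- different spikes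
  have far : ∀ i j, Γ.S i → Γ.S j → (Γ.c i).1 ≤ z.1 → z.1 ≤ (Γ.w i).1 → (Γ.c j).1 ≤ z.1 →
      z.1 ≤ (Γ.w j).1 → i = j := by
    intro i j hi hj h1 h2 h3 h4
    have h5 := Γ.w_lt i hi
    have h6 := Γ.w_lt j hj
    have h7 := Γ.gap i hi
    have h8 := Γ.gap j hj
    have h9 := Γ.lt_of_X_lt (by omega) (h1.trans_lt (h4.trans_lt h6))
    have h10 := Γ.lt_of_X_lt (by omega) (h3.trans_lt (h2.trans_lt h5))
    have h11 := Γ.gap_next i hi
    have h12 := Γ.gap_next j hj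
    by_contra hc
    rcases Nat.lt_or_ge i j with h | h
    · have : j = i + 1 := by omega
      subst this; exact h11 hj
    · have : i = j + 1 := by omega
      subst this; exact h12 hi
  have LL : ∀ i j, Γ.S i → Γ.S j → z ∈ segment ℝ (Γ.c i) (Γ.w i) →
      z ∈ segment ℝ (Γ.c j) (Γ.w j) → i = j := by
    intro i j hi hj h1 h2
    obtain ⟨h3, h4, -, -⟩ := Γ.spikeL hi h1
    obtain ⟨h5, h6, -, -⟩ := Γ.spikeL hj h2
    exact far i j hi hj h3 h4 h5 h6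
  have RR : ∀ i j, Γ.S i → Γ.S j → z ∈ segment ℝ (Γ.w i) (Γ.c (i + 1)) →
      z ∈ segment ℝ (Γ.w j) (Γ.c (j + 1)) → i = j := by
    intro i j hi hj h1 h2
    obtain ⟨h3, h4, -, -⟩ := Γ.spikeR hi h1
    obtain ⟨h5, h6, -, -⟩ := Γ.spikeR hj h2
    have := Γ.gap i hi
    have := Γ.gap j hj
    exact far i j hi hj ((Γ.mono i (by omega)).le.trans h3) h4
      ((Γ.mono j (by omega)).le.trans h5) h6
  have LR : ∀ i j, Γ.S i → Γ.S j → z ∈ segment ℝ (Γ.c i) (Γ.w i) →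
      z ∈ segment ℝ (Γ.w j) (Γ.c (j + 1)) → i = j ∧ z = Γ.w i := by
    intro i j hi hj h1 h2
    obtain ⟨h3, h4, -, -⟩ := Γ.spikeL hi h1
    obtain ⟨h5, h6, -, -⟩ := Γ.spikeR hj h2
    have := Γ.gap j hj
    have h := far i j hi hj h3 h4 ((Γ.mono j (by omega)).le.trans h5) h6
    subst h
    exact ⟨rfl, Γ.spike_tip hi h1 h2⟩
  rcases Γ.next_cases ha haa with ⟨i, hi, rfl, rfl⟩ | ⟨i, hi, rfl, rfl⟩ | ⟨i, hi, hSi, rfl, rfl⟩ |
      ⟨rfl, rfl⟩ <;>
    rcases Γ.next_cases hb hbb with ⟨j, hj, rfl, rfl⟩ | ⟨j, hj, rfl, rfl⟩ |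
      ⟨j, hj, hSj, rfl, rfl⟩ | ⟨rfl, rfl⟩ <;>
    simp only [pt, if_true, Bool.false_eq_true, if_false] at hz hz' ⊢
  · exact absurd (by rw [RR i j hi hj hz hz']) hab
  · obtain ⟨h1, h2⟩ := LR j i hj hi hz' hz
    subst h1
    exact Or.inr ⟨rfl, h2⟩
  · obtain ⟨h1, h2⟩ := RC i j hi hj hSj hz hz'
    exact Or.inl ⟨by rw [h1], h2⟩
  · exact (RT i hi hz hz').elim
  · obtain ⟨h1, h2⟩ := LR i j hi hj hz hz'
    subst h1
    exact Or.inl ⟨rfl, h2⟩
  · exact absurd (by rw [LL i j hi hj hz hz']) hab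
  · obtain ⟨h1, h2⟩ := LC i j hi hj hSj hz hz'
    exact Or.inr ⟨by rw [h1], h2⟩
  · obtain ⟨h1, h2⟩ := LT i hi hz hz'
    exact Or.inr ⟨by rw [h1], h2⟩
  · obtain ⟨h1, h2⟩ := RC j i hj hi hSi hz' hz
    exact Or.inr ⟨by rw [h1], h2⟩
  · obtain ⟨h1, h2⟩ := LC j i hj hi hSi hz' hz
    exact Or.inl ⟨by rw [h1], h2⟩
  · have hij : i ≠ j := fun h => hab (by rw [h])
    rcases lt_or_gt_of_ne hij with h | h
    · obtain ⟨h1, h2⟩ := CC i j h hj hz hz'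
      exact Or.inl ⟨by rw [h1], h2⟩
    · obtain ⟨h1, h2⟩ := CC j i h hi hz' hz
      exact Or.inr ⟨by rw [h1], h2⟩
  · rcases CT i hi hz hz' with ⟨h1, h2⟩ | ⟨h1, h2⟩
    · exact Or.inr ⟨by rw [h1], by rw [h1]; exact h2⟩
    · exact Or.inl ⟨by rw [h1], h2⟩
  · exact (RT j hj hz' hz).elim
  · obtain ⟨h1, h2⟩ := LT j hj hz' hz
    exact Or.inl ⟨by rw [h1], h2⟩
  · rcases CT j hj hz' hz with ⟨h1, h2⟩ | ⟨h1, h2⟩
    · exact Or.inl ⟨by rw [h1], by rw [h1]; exact h2⟩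
    · exact Or.inr ⟨by rw [h1], h2⟩
  · exact absurd rfl hab

end Chain

section

variable {Γ : Chain} {n : ℕ} {v : Fin n → ℚ × ℚ}

private theorem toPlane_inj {p q : ℚ × ℚ} (h : toPlane p = toPlane q) : p = q := by
  unfold toPlane at h
  simp only [Prod.mk.injEq, Rat.cast_inj] at h
  exact Prod.ext h.1 h.2

private theorem Layout.valid (L : Layout Γ n v) (a : Fin n) : Γ.Valid (L.κ a) := ⟨L.le a, L.tip a⟩

theorem Layout.injective (L : Layout Γ n v) : Function.Injective v := by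
  intro a b h
  apply L.inj
  apply Γ.pt_inj (L.valid a) (L.valid b)
  rw [← L.pt, ← L.pt, h]

private theorem Layout.edge_eq (L : Layout Γ n v) (a : Fin n) :
    edge v a = segment ℝ (Γ.pt (L.κ a)) (Γ.pt (L.κ (cycNext a))) := by
  unfold edge
  rw [L.pt, L.pt]

theorem Layout.simple (L : Layout Γ n v) : ∀ i j : Fin n, i ≠ j → ∀ z ∈ edge v i ∩ edge v j,
    (j = cycNext i ∧ z = toPlane (v j)) ∨ (i = cycNext j ∧ z = toPlane (v i)) := by
  intro i j hij z hz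
  obtain ⟨h1, h2⟩ := hz
  rw [L.edge_eq] at h1 h2
  rcases Γ.edges_meet (L.valid i) (L.valid j) (L.next i) (L.next j) (fun h => hij (L.inj h)) h1 h2
    with ⟨h3, h4⟩ | ⟨h3, h4⟩
  · exact Or.inl ⟨L.inj h3, by rw [L.pt]; exact h4⟩
  · exact Or.inr ⟨L.inj h3, by rw [L.pt]; exact h4⟩

theorem Layout.boundary_eq (L : Layout Γ n v) : boundary v = Γ.curve := by
  have key : ∀ a b, Γ.Next (L.κ a) b → L.κ (cycNext a) = b := fun a b h =>
    Γ.next_unique (L.valid a) (L.next a) h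
  apply Set.Subset.antisymm
  · intro z hz
    obtain ⟨a, ha⟩ := Set.mem_iUnion.1 hz
    rw [L.edge_eq] at ha
    rcases Γ.next_cases (L.valid a) (L.next a) with ⟨i, hi, h1, h2⟩ | ⟨i, hi, h1, h2⟩ |
      ⟨i, hi, hSi, h1, h2⟩ | ⟨h1, h2⟩ <;>
      rw [h1, h2] at ha <;>
      simp only [Chain.pt, if_true, Bool.false_eq_true, if_false] at ha
    · exact Or.inr ⟨i, hi, Or.inr ha⟩
    · exact Or.inr ⟨i, hi, Or.inl ha⟩
    · exact Or.inl (Or.inr ⟨i, hi, hSi, ha⟩)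
    · exact Or.inl (Or.inl ha)
  · intro z hz
    refine Set.mem_iUnion.2 ?_
    rcases hz with (hz | ⟨i, hi, hSi, hz⟩) | ⟨i, hi, hz | hz⟩
    · obtain ⟨a, ha⟩ := L.surj_c Γ.r le_rfl
      refine ⟨a, ?_⟩
      rw [L.edge_eq, key a (0, false) (by rw [ha]; exact Or.inr (Or.inr (Or.inr ⟨rfl, rfl, rfl⟩))),
        ha]
      simpa [Chain.pt] using hz
    · obtain ⟨a, ha⟩ := L.surj_c i hi.le
      refine ⟨a, ?_⟩
      rw [L.edge_eq, key a (i + 1, false)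
        (by rw [ha]; exact Or.inr (Or.inr (Or.inl ⟨rfl, hi, hSi, rfl⟩))), ha]
      simpa [Chain.pt] using hz
    · have hg := Γ.gap i hi
      obtain ⟨a, ha⟩ := L.surj_c i (by omega)
      refine ⟨a, ?_⟩
      rw [L.edge_eq, key a (i, true)
        (by rw [ha]; exact Or.inr (Or.inl ⟨rfl, by simp only; omega, hi, rfl⟩)), ha]
      simpa [Chain.pt] using hz
    · obtain ⟨a, ha⟩ := L.surj_w i hi
      refine ⟨a, ?_⟩
      rw [L.edge_eq, key a (i + 1, false) (by rw [ha]; exact Or.inl ⟨rfl, rfl⟩), ha]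
      simpa [Chain.pt] using hz

end

end Pool.Agent.VDC
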