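import Pool.Agent.VDC.Geo
import Pool.Agent.VDC.Simple

/-!
# Visibility between the vertices of the polygons of the reduction; the numbering of the vertices
-/

namespace Pool.Agent.VDC

variable {m c : ℕ} {τ : ℕ → ℕ} (hm : 0 < m) (hτ : ∀ j < 2 * c, ValidT m (τ j))

theorem valid_tIdx (hτ : ∀ j < 2 * c, ValidT m (τ j)) {i : ℕ} (hi : Gap m c i) :
    ValidT m (τ (tIdx m i)) :=
  hτ _ (by unfold Gap at hi; unfold tIdx; split_ifs <;> omega)

/-- chain vertices -/
theorem body_chain {i l : ℕ} (hil : i < l) (hl : l ≤ 3 * m + 5 * c) :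
    segment ℝ (cP m c i) (cP m c l) ⊆ (chainOf m c τ hm hτ).body ↔ ¬ Excl m i l := by
  constructor
  · intro h hex
    obtain ⟨a, h1, h2, h3, h4, h5⟩ := excl_chord (c := c) hil hex
    exact (chainOf m c τ hm hτ).not_sees_chain h1 h2 hl h5 h3 h4 h
  · intro hex
    exact (chainOf m c τ hm hτ).sees_chain hil hl fun a h1 h2 => chord h1 h2 hex

theorem tgt_pos {i t l : ℕ} (hi : Gap m c i) (ht : ValidT m t) (h : Tgt t l) :
    (pos m c l : ℝ) = aT m c t ∨ (pos m c l : ℝ) = aT m c t + unitG m c := by
  obtain ⟨_, h1, _, _⟩ := tgt_cases hi ht h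
  rcases h1 with ⟨h1, h2⟩ | ⟨h1, h2⟩
  · left
    rw [pos_eq, aT_eq, h1, h2]; push_cast; ring
  · right
    rw [pos_eq, aT_eq, h1, h2]; push_cast; ring

/-- tips and chain vertices -/
theorem body_tip {i l : ℕ} (hi : Gap m c i) (hl : l ≤ 3 * m + 5 * c) :
    segment ℝ (wP m c τ i) (cP m c l) ⊆ (chainOf m c τ hm hτ).body ↔
      l = i ∨ l = i + 1 ∨ Tgt (τ (tIdx m i)) l := by
  set Γ := chainOf m c τ hm hτ with hΓ
  have hv := valid_tIdx hτ hi
  have hS : Γ.S i := hi
  have hD := D_pos m c
  have hG := G_ge m c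
  constructor
  · intro h
    by_contra hcon
    push Not at hcon
    obtain ⟨h1, h2, h3⟩ := hcon
    have hw1 := wP_gt hi hv
    have hw2 := wP_lt hi hv
    have key : ∀ z : ℝ × ℝ, z ≠ Γ.w i → ((Γ.w i).1 ≤ z.1 ∨ z.2 < ln (Γ.c i) (Γ.w i) z.1 ∨
        ln (Γ.c (i + 1)) (Γ.w i) z.1 < z.2) → ¬ segment ℝ (Γ.w i) z ⊆ Γ.body :=
      fun z hz => Γ.not_sees_tip hS hz
    rcases lt_or_ge l i with hli | hli
    · have hx : (cP m c l).1 < (wP m c τ i).1 := (cP_lt (by omega)).trans hw1
      have hne : cP m c l ≠ Γ.w i := by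
        intro he
        rw [he] at hx
        exact lt_irrefl _ hx
      refine key _ hne ?_ h
      right
      rcases target_cases hi hv hli with ⟨g1, g2⟩ | ⟨_, _, g3, _⟩ | ⟨_, _, g3, _⟩ | ⟨g1, _⟩
      · -- left of the target
        right
        change ln (cP m c (i + 1)) (wP m c τ i) (cP m c l).1 < (cP m c l).2
        rw [ray_upper hi hv]
        have g3 : (pos m c l : ℝ) < aT m c (τ (tIdx m i)) := by
          have : pos m c l < aT m c (τ (tIdx m i)) := by
            rw [pos_eq, aT_eq, g2]
            exact Nat.mul_lt_mul_of_pos_left g1 (by have := unitG_ge m c; omega)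
          exact_mod_cast this
        have g4 := aT_add_le hi hv
        have g5 := hh_nonneg m c l
        simp only [cP]
        have g6 : (unitD m c * pos m c l - unitD m c * aT m c (τ (tIdx m i)) : ℝ) < 0 := by
          have := mul_lt_mul_of_pos_left g3 hD
          linarith
        have g7 : (0 : ℝ) < unitD m c * (pos m c i + 1) - unitD m c * pos m c l := by
          have : (unitD m c : ℝ) * pos m c l < unitD m c * (pos m c i + 1) :=
            mul_lt_mul_of_pos_left (by linarith) hD
          linarith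
        have := mul_neg_of_neg_of_pos g6 g7
        linarith
      · exact absurd g3 h3
      · exact absurd g3 h3
      · -- right of the target
        left
        change (cP m c l).2 < ln (cP m c i) (wP m c τ i) (cP m c l).1
        rw [ray_lower hi hv]
        have e : (unitD m c * pos m c l - unitD m c * (aT m c (τ (tIdx m i)) + unitG m c) : ℝ) *
            (unitD m c * pos m c i - unitD m c * pos m c l) =
            (unitD m c : ℝ) ^ 2 * (((pos m c l : ℝ) - (aT m c (τ (tIdx m i)) + unitG m c)) *
              (pos m c i - pos m c l)) := by ring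
        simp only [cP]
        rw [e]
        refine add_lt_add_of_le_of_lt le_rfl ?_
        have b1 : ∀ k : ℕ, tU (τ (tIdx m i)) + k + 1 ≤ cU m l →
            (k : ℝ) * unitG m c ≤ (pos m c l : ℝ) - (aT m c (τ (tIdx m i)) + unitG m c) := by
          intro k hk
          have : unitG m c * (tU (τ (tIdx m i)) + k + 1) ≤ pos m c l := by
            rw [pos_eq]
            have := Nat.mul_le_mul_left (unitG m c) hk
            omega
          have h' : ((unitG m c * (tU (τ (tIdx m i)) + k + 1) : ℕ) : ℝ) ≤ pos m c l := by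
            exact_mod_cast this
          rw [aT_eq]
          push_cast at h' ⊢
          linarith
        have b2 := b1 1 (by omega)
        have b3 : (pos m c l : ℝ) < pos m c i := by exact_mod_cast pos_lt hli
        by_cases hM : IsM m l
        · rw [hh, if_pos hM]
          refine mul_lt_mul_of_pos_left ?_ (by positivity)
          rcases M_target hi hv hli hM g1 with ⟨_, c1⟩ | ⟨c1, c2, c3⟩ | ⟨c1, c2⟩
          · have c3 : (pos m c l : ℝ) + 12 * unitG m c ≤ pos m c i := by
              exact_mod_cast pos_add_le (m := m) (c := c) (k := 12) (by omega)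
            have c4 : (1 : ℝ) * unitG m c ≤
                (pos m c l : ℝ) - (aT m c (τ (tIdx m i)) + unitG m c) := by exact_mod_cast b2
            have c5 : (unitG m c : ℝ) * (12 * unitG m c) ≤
                ((pos m c l : ℝ) - (aT m c (τ (tIdx m i)) + unitG m c)) *
                  (pos m c i - pos m c l) :=
              mul_le_mul (by linarith) (by linarith) (by positivity) (by linarith)
            nlinarith
          · have c4 : (pos m c l : ℝ) + 2 * unitG m c ≤ pos m c i := by
              exact_mod_cast pos_add_le' (m := m) (c := c) (k := 2) (by omega) c3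
            have c5 := b1 9 (by omega)
            push_cast at c5
            exact bump_le hG (by linarith) (by linarith) (Or.inl (by linarith))
          · have c4 : (pos m c l : ℝ) + 2 * unitG m c ≤ pos m c i := by
              exact_mod_cast pos_add_le (m := m) (c := c) (k := 2) (by omega)
            have c5 := b1 9 (by omega)
            push_cast at c5
            exact bump_le hG (by linarith) (by linarith) (Or.inl (by linarith))
        · rw [hh, if_neg hM]
          push_cast at b2
          exact mul_pos (by positivity) (mul_pos (by linarith) (by linarith))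
    · have hli : i + 2 ≤ l := by omega
      have hx : (wP m c τ i).1 < (cP m c l).1 := by
        rcases hli.lt_or_eq with h4 | rfl
        · exact hw2.trans (cP_lt h4)
        · exact hw2
      refine key _ ?_ (Or.inl hx.le) h
      intro he
      rw [he] at hx
      exact lt_irrefl _ hx
  · rintro (rfl | rfl | h)
    · exact (Γ.sees_tip_edge hS).1
    · exact (Γ.sees_tip_edge hS).2
    · obtain ⟨h1, _, h3, h4⟩ := tgt_cases hi hv h
      have hwx := wX_real hi hv
      have hh0 : hh m c l = 0 := by rw [hh, if_neg h3]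
      rcases tgt_pos hi hv h with hp | hp
      · -- through the right end of the gap
        refine Γ.sees_tip_right hS h1 ?_ fun a ha1 ha2 => chord ha1 ha2 ?_
        · change (wP m c τ i).2 = ln (cP m c l) (cP m c (i + 1)) (wP m c τ i).1
          rw [ln_affine (k := unitD m c * (aT m c (τ (tIdx m i)) + pos m c i + 1))
            (b := - ((unitD m c : ℝ) ^ 2 * aT m c (τ (tIdx m i)) * (pos m c i + 1))) _ _
            (cP_lt (show l < i + 1 by omega)).ne]
          · simp only [wP, wY_real hi hv]; ring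
          · simp only [cP, hh0, hp]; ring
          · simp only [cP, hh_gap_succ hi, pos_succ_real hi]; ring
        · unfold Gap at hi; unfold Excl; omega
      · -- through the left end of the gap
        refine Γ.sees_tip_left hS h1 ?_ fun a ha1 ha2 => chord ha1 ha2 ?_
        · change (wP m c τ i).2 = ln (cP m c l) (cP m c i) (wP m c τ i).1
          rw [ln_affine (k := unitD m c * (aT m c (τ (tIdx m i)) + unitG m c + pos m c i))
            (b := - ((unitD m c : ℝ) ^ 2 * (aT m c (τ (tIdx m i)) + unitG m c) * pos m c i)) _ _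
            (cP_lt h1).ne]
          · simp only [wP, wY_real' hi hv]; ring
          · simp only [cP, hh0, hp]; ring
          · simp only [cP, hh_gap hi]; ring
        · unfold Gap at hi; unfold Excl; omega

/-- two tips -/
theorem body_tips {i l : ℕ} (hi : Gap m c i) (hl : Gap m c l) (hil : i < l) :
    ¬ segment ℝ (wP m c τ i) (wP m c τ l) ⊆ (chainOf m c τ hm hτ).body := by
  have h1 := wP_lt hi (valid_tIdx hτ hi)
  have h2 := wP_gt hl (valid_tIdx hτ hl)
  have h3 : (cP m c (i + 2)).1 ≤ (cP m c (l + 1)).1 := by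
    rcases (show i + 2 ≤ l + 1 by omega).lt_or_eq with h | h
    · exact (cP_lt h).le
    · rw [h]
  have h4 : (wP m c τ i).1 < (wP m c τ l).1 := lt_of_lt_of_le h1 (h3.trans h2.le)
  refine (chainOf m c τ hm hτ).not_sees_tip (i := i) hi ?_ (Or.inl h4.le)
  intro he
  change wP m c τ l = wP m c τ i at he
  rw [he] at h4
  exact lt_irrefl _ h4

/-! ### The numbering -/

/-- place of a vertex in its constraint group -/
def kt (t : ℕ) : ℕ :=
  if t = 0 then 0 else if t = 1 then 0 else if t = 2 then 1 else if t = 3 then 2 else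
    if t = 4 then 3 else if t = 5 then 3 else 4

theorem kap_lt {a : ℕ} (h : a < 3 * m) : kap m a = (a, false) := by
  rw [kap, if_pos h]

theorem kap_ge {a : ℕ} (h : 3 * m ≤ a) : kap m a = (3 * m + 5 * ((a - 3 * m) / 7) +
    kt ((a - 3 * m) % 7), decide ((a - 3 * m) % 7 = 1 ∨ (a - 3 * m) % 7 = 5)) := by
  rw [kap, if_neg (by omega)]; rfl

theorem kap_form (m j t : ℕ) (ht : t < 7) :
    kap m (3 * m + 7 * j + t) = (3 * m + 5 * j + kt t, decide (t = 1 ∨ t = 5)) := by
  rw [kap_ge (by omega)]
  have e1 : (3 * m + 7 * j + t - 3 * m) / 7 = j := by omega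
  have e2 : (3 * m + 7 * j + t - 3 * m) % 7 = t := by omega
  rw [e1, e2]

theorem kt_le (t : ℕ) : kt t ≤ 4 := by unfold kt; split_ifs <;> omega

theorem kt_inj : ∀ t < 7, ∀ t' < 7, kt t = kt t' →
    decide (t = 1 ∨ t = 5) = decide (t' = 1 ∨ t' = 5) → t = t' := by decide

theorem form_of_ge {a : ℕ} (h : 3 * m ≤ a) :
    ∃ j t, t < 7 ∧ a = 3 * m + 7 * j + t :=
  ⟨(a - 3 * m) / 7, (a - 3 * m) % 7, Nat.mod_lt _ (by norm_num), by omega⟩

theorem kap_inj {a b : ℕ} (h : kap m a = kap m b) : a = b := by
  rcases lt_or_ge a (3 * m) with ha | ha <;> rcases lt_or_ge b (3 * m) with hb | hb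
  · rw [kap_lt ha, kap_lt hb] at h
    exact congrArg Prod.fst h
  · rw [kap_lt ha, kap_ge hb] at h
    have := congrArg Prod.fst h
    simp only at this
    omega
  · rw [kap_ge ha, kap_lt hb] at h
    have := congrArg Prod.fst h
    simp only at this
    omega
  · obtain ⟨j, t, ht, rfl⟩ := form_of_ge ha
    obtain ⟨j', t', ht', rfl⟩ := form_of_ge hb
    rw [kap_form m j t ht, kap_form m j' t' ht'] at h
    have h1 := congrArg Prod.fst h
    have h2 := congrArg Prod.snd h
    simp only at h1 h2
    have h3 := kt_le t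
    have h4 := kt_le t'
    have h5 : j = j' := by omega
    subst h5
    have h6 : kt t = kt t' := by omega
    rw [kt_inj t ht t' ht' h6 h2]

theorem cycNext_val {n : ℕ} (a : Fin n) :
    (cycNext a : ℕ) = if (a : ℕ) + 1 < n then (a : ℕ) + 1 else 0 := by
  have ha := a.2
  unfold cycNext
  simp only
  split_ifs with h
  · exact Nat.mod_eq_of_lt h
  · have : (a : ℕ) + 1 = n := by omega
    rw [this, Nat.mod_self]

theorem gap_form (m c j t : ℕ) (hj : j < c) (ht : t < 5) :
    Gap m c (3 * m + 5 * j + t) ↔ (t = 0 ∨ t = 3) := by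
  unfold Gap; omega

theorem kap_next {a : ℕ} (ha : a < 3 * m + 7 * c) :
    (chainOf m c τ hm hτ).Next (kap m a) (kap m (a + 1)) := by
  unfold Chain.Next
  change (_ ∨ (_ ∧ (kap m a).1 < 3 * m + 5 * c ∧ Gap m c (kap m a).1 ∧ _) ∨
    (_ ∧ (kap m a).1 < 3 * m + 5 * c ∧ ¬ Gap m c (kap m a).1 ∧ _) ∨
    (_ ∧ (kap m a).1 = 3 * m + 5 * c ∧ _))
  rcases lt_or_ge a (3 * m) with h | h
  · have h1 : kap m (a + 1) = (a + 1, false) := by
      rcases lt_or_ge (a + 1) (3 * m) with h1 | h1
      · exact kap_lt h1
      · have : a + 1 = 3 * m + 7 * 0 + 0 := by omega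
        rw [this, kap_form m 0 0 (by norm_num)]
        simp [kt]
    rw [kap_lt h, h1]
    right; right; left
    exact ⟨rfl, by simp only; omega, by unfold Gap; simp only; omega, rfl⟩
  · obtain ⟨j, t, ht, rfl⟩ := form_of_ge h
    have hj : j < c := by omega
    have h0 : kap m (3 * m + 7 * j + t) = (3 * m + 5 * j + kt t, decide (t = 1 ∨ t = 5)) :=
      kap_form m j t ht
    rcases (show t = 0 ∨ t = 1 ∨ t = 2 ∨ t = 3 ∨ t = 4 ∨ t = 5 ∨ t = 6 by omega) with
      rfl | rfl | rfl | rfl | rfl | rfl | rfl
    · have h1 := kap_form m j 1 (by norm_num)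
      have hg : Gap m c (3 * m + 5 * j + 0) :=
        (gap_form m c j 0 hj (by norm_num)).mpr (by norm_num)
      have hlt : 3 * m + 5 * j + 0 < 3 * m + 5 * c := by omega
      rw [h0, show 3 * m + 7 * j + 0 + 1 = 3 * m + 7 * j + 1 by ring, h1]
      right; left
      simpa [kt] using ⟨hj, hg⟩
    · have h1 := kap_form m j 2 (by norm_num)
      rw [h0, show 3 * m + 7 * j + 1 + 1 = 3 * m + 7 * j + 2 by ring, h1]
      left
      simp [kt]
    · have h1 := kap_form m j 3 (by norm_num)
      have hg : ¬ Gap m c (3 * m + 5 * j + 1) := by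
        rw [gap_form m c j 1 hj (by norm_num)]; norm_num
      have hlt : 3 * m + 5 * j + 1 < 3 * m + 5 * c := by omega
      rw [h0, show 3 * m + 7 * j + 2 + 1 = 3 * m + 7 * j + 3 by ring, h1]
      right; right; left
      simpa [kt] using ⟨hlt, hg⟩
    · have h1 := kap_form m j 4 (by norm_num)
      have hg : ¬ Gap m c (3 * m + 5 * j + 2) := by
        rw [gap_form m c j 2 hj (by norm_num)]; norm_num
      have hlt : 3 * m + 5 * j + 2 < 3 * m + 5 * c := by omega
      rw [h0, show 3 * m + 7 * j + 3 + 1 = 3 * m + 7 * j + 4 by ring, h1]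
      right; right; left
      simpa [kt] using ⟨hlt, hg⟩
    · have h1 := kap_form m j 5 (by norm_num)
      have hg : Gap m c (3 * m + 5 * j + 3) :=
        (gap_form m c j 3 hj (by norm_num)).mpr (by norm_num)
      have hlt : 3 * m + 5 * j + 3 < 3 * m + 5 * c := by omega
      rw [h0, show 3 * m + 7 * j + 4 + 1 = 3 * m + 7 * j + 5 by ring, h1]
      right; left
      simpa [kt] using ⟨hlt, hg⟩
    · have h1 := kap_form m j 6 (by norm_num)
      rw [h0, show 3 * m + 7 * j + 5 + 1 = 3 * m + 7 * j + 6 by ring, h1]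
      left
      simp [kt]
    · have h1 := kap_form m (j + 1) 0 (by norm_num)
      have hg : ¬ Gap m c (3 * m + 5 * j + 4) := by
        rw [gap_form m c j 4 hj (by norm_num)]; norm_num
      have hlt : 3 * m + 5 * j + 4 < 3 * m + 5 * c := by omega
      rw [h0, show 3 * m + 7 * j + 6 + 1 = 3 * m + 7 * (j + 1) + 0 by ring, h1]
      right; right; left
      have e : 3 * m + 5 * (j + 1) = 3 * m + 5 * j + 4 + 1 := by ring
      simpa [kt, e] using ⟨hlt, hg⟩

theorem kap_last : kap m (3 * m + 7 * c) = (3 * m + 5 * c, false) := by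
  have := kap_form m c 0 (by norm_num)
  simpa [kt] using this

theorem kap_le {a : ℕ} (ha : a < 3 * m + 7 * c + 1) : (kap m a).1 ≤ 3 * m + 5 * c := by
  rcases lt_or_ge a (3 * m) with h | h
  · rw [kap_lt h]; simp only; omega
  · obtain ⟨j, t, ht, rfl⟩ := form_of_ge h
    rw [kap_form m j t ht]
    have h1 := kt_le t
    simp only
    rcases lt_or_ge j c with h2 | h2
    · omega
    · have : j = c ∧ t = 0 := by omega
      obtain ⟨rfl, rfl⟩ := this
      simp [kt]

theorem kap_tip {a : ℕ} (ha : a < 3 * m + 7 * c + 1) (h : (kap m a).2 = true) :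
    Gap m c (kap m a).1 := by
  rcases lt_or_ge a (3 * m) with h' | h'
  · rw [kap_lt h'] at h; simp at h
  · obtain ⟨j, t, ht, rfl⟩ := form_of_ge h'
    rw [kap_form m j t ht] at h ⊢
    simp only [decide_eq_true_eq] at h
    rcases h with rfl | rfl
    · exact (gap_form m c j 0 (by omega) (by norm_num)).mpr (Or.inl rfl)
    · exact (gap_form m c j 3 (by omega) (by norm_num)).mpr (Or.inr rfl)

theorem kap_surj {i : ℕ} (hi : i ≤ 3 * m + 5 * c) :
    ∃ a, a < 3 * m + 7 * c + 1 ∧ kap m a = (i, false) := by
  rcases lt_or_ge i (3 * m) with h | h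
  · exact ⟨i, by omega, kap_lt h⟩
  · obtain ⟨j, t, ht, rfl⟩ : ∃ j t, t < 5 ∧ i = 3 * m + 5 * j + t :=
      ⟨(i - 3 * m) / 5, (i - 3 * m) % 5, Nat.mod_lt _ (by norm_num), by omega⟩
    rcases (show t = 0 ∨ t = 1 ∨ t = 2 ∨ t = 3 ∨ t = 4 by omega) with
      rfl | rfl | rfl | rfl | rfl
    · exact ⟨3 * m + 7 * j + 0, by omega, by rw [kap_form m j 0 (by norm_num)]; simp [kt]⟩
    · exact ⟨3 * m + 7 * j + 2, by omega, by rw [kap_form m j 2 (by norm_num)]; simp [kt]⟩
    · exact ⟨3 * m + 7 * j + 3, by omega, by rw [kap_form m j 3 (by norm_num)]; simp [kt]⟩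
    · exact ⟨3 * m + 7 * j + 4, by omega, by rw [kap_form m j 4 (by norm_num)]; simp [kt]⟩
    · exact ⟨3 * m + 7 * j + 6, by omega, by rw [kap_form m j 6 (by norm_num)]; simp [kt]⟩

theorem kap_surj' {i : ℕ} (hi : Gap m c i) :
    ∃ a, a < 3 * m + 7 * c + 1 ∧ kap m a = (i, true) := by
  obtain ⟨h1, h2, h3⟩ := hi
  rcases h3 with h3 | h3
  · refine ⟨3 * m + 7 * ((i - 3 * m) / 5) + 1, by omega, ?_⟩
    rw [kap_form m _ 1 (by norm_num)]
    simp [kt]
    omega
  · refine ⟨3 * m + 7 * ((i - 3 * m) / 5) + 5, by omega, ?_⟩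
    rw [kap_form m _ 5 (by norm_num)]
    simp [kt]
    omega

/-- The numbering of the vertices of the polygon. -/
noncomputable def layoutOf :
    Layout (chainOf m c τ hm hτ) (3 * m + 7 * c + 1) (vert m c τ) where
  κ := fun a => kap m a
  inj := fun a b h => Fin.ext (kap_inj h)
  le := fun a => kap_le a.2
  tip := fun a h => kap_tip a.2 h
  surj_c := by
    intro i hi
    obtain ⟨a, ha, h⟩ := kap_surj (m := m) (c := c) hi
    exact ⟨⟨a, ha⟩, h⟩
  surj_w := by
    intro i hi
    obtain ⟨a, ha, h⟩ := kap_surj' (m := m) (c := c) hi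
    exact ⟨⟨a, ha⟩, h⟩
  next := by
    intro a
    rw [cycNext_val]
    split_ifs with h
    · exact kap_next hm hτ (by omega)
    · have h1 : (a : ℕ) = 3 * m + 7 * c := by have := a.2; omega
      rw [h1, kap_last, kap_lt (by omega)]
      right; right; right
      exact ⟨rfl, rfl, rfl⟩
  pt := by
    intro a
    unfold toPlane vert Chain.pt vX vY
    change _ = if (kap m a).2 = true then wP m c τ (kap m a).1 else cP m c (kap m a).1
    split_ifs with h
    · simp only [wP]
      push_cast
      rfl
    · have e1 := cX_real m c (kap m a).1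
      have e2 := cY_real m c (kap m a).1
      simp only [cP]
      rw [← e1] at e2 ⊢
      rw [← e2]
      push_cast
      rfl

end Pool.Agent.VDC
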