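import Pool.Agent.VDC.CSPDefs
import Pool.Agent.H68.NPClique

/-!
# The constraints of the reduction are satisfiable if and only if there is a clique
-/

namespace Pool.Agent.VDC

/-- the decoding of a constraint number -/
theorem slot_lt {N k q : ℕ} (hq : q < cC N k) : q / (N + 1) / (N + 1) / (k + 2) < k := by
  rw [Nat.div_div_eq_div_mul, Nat.div_div_eq_div_mul]
  apply Nat.div_lt_of_lt_mul
  unfold cC at hq
  calc q < k * (k + 2) * (N + 1) * (N + 1) := hq
    _ = (N + 1) * ((N + 1) * (k + 2)) * k := by ring

theorem main_lt {N k s u : ℕ} (hs : s < k) (hu : u ≤ N) : s * (N + 1) + u < mC N k := by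
  unfold mC
  calc s * (N + 1) + u < s * (N + 1) + (N + 1) := by omega
    _ = (s + 1) * (N + 1) := by ring
    _ ≤ k * (N + 1) := Nat.mul_le_mul_right _ hs

theorem validT_zero {N k s : ℕ} (hs : s < k) : ValidT (mC N k) (3 * (s * (N + 1))) := by
  have h := main_lt (u := 0) (N := N) hs (Nat.zero_le _)
  unfold ValidT
  omega

theorem validT_one {N k s : ℕ} (hs : s < k) : ValidT (mC N k) (3 * (s * (N + 1) + N) + 1) := by
  have h := main_lt (u := N) (N := N) hs le_rfl
  unfold ValidT
  omega

theorem validT_two {N k s u : ℕ} (hs : s < k) (hu : u < N) :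
    ValidT (mC N k) (3 * (s * (N + 1) + u) + 2) := by
  have h := main_lt (u := u) (N := N) hs hu.le
  have h' := main_lt (u := u + 1) (N := N) hs hu
  unfold ValidT
  omega

theorem tauC_valid {N k : ℕ} {adj : ℕ → ℕ → Bool} (_hk : 0 < k) :
    ∀ j < 2 * cC N k, ValidT (mC N k) (tauC N k adj j) := by
  intro j hj
  have hq : j / 2 < cC N k := by omega
  have hs := slot_lt hq
  unfold tauC
  simp only
  split_ifs with h1 h2 h3
  · exact validT_one hs
  · exact validT_two hs h2.2.2.1
  · exact validT_two h2.1 h2.2.2.2.1
  · exact validT_zero hs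

/-- the number of a constraint -/
def idxC (N k s t u v : ℕ) : ℕ := ((s * (k + 2) + t) * (N + 1) + u) * (N + 1) + v

theorem idxC_lt {N k s t u v : ℕ} (hs : s < k) (ht : t < k + 2) (hu : u < N + 1)
    (hv : v < N + 1) : idxC N k s t u v < cC N k := by
  unfold idxC cC
  have h1 : s * (k + 2) + t < k * (k + 2) := by
    calc s * (k + 2) + t < s * (k + 2) + (k + 2) := by omega
      _ = (s + 1) * (k + 2) := by ring
      _ ≤ k * (k + 2) := Nat.mul_le_mul_right _ hs
  have h2 : (s * (k + 2) + t) * (N + 1) + u < k * (k + 2) * (N + 1) := by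
    calc (s * (k + 2) + t) * (N + 1) + u < (s * (k + 2) + t) * (N + 1) + (N + 1) := by omega
      _ = (s * (k + 2) + t + 1) * (N + 1) := by ring
      _ ≤ k * (k + 2) * (N + 1) := Nat.mul_le_mul_right _ h1
  calc ((s * (k + 2) + t) * (N + 1) + u) * (N + 1) + v
      < ((s * (k + 2) + t) * (N + 1) + u) * (N + 1) + (N + 1) := by omega
    _ = ((s * (k + 2) + t) * (N + 1) + u + 1) * (N + 1) := by ring
    _ ≤ k * (k + 2) * (N + 1) * (N + 1) := Nat.mul_le_mul_right _ h2

theorem divmod_aux {a b n : ℕ} (hb : b < n) : (a * n + b) % n = b ∧ (a * n + b) / n = a := by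
  have hn : 0 < n := by omega
  constructor
  · rw [mul_comm, Nat.mul_add_mod, Nat.mod_eq_of_lt hb]
  · rw [mul_comm, Nat.mul_add_div hn, Nat.div_eq_of_lt hb, add_zero]

theorem tauC_idxC {N k s t u v : ℕ} (adj : ℕ → ℕ → Bool) (ht : t < k + 2)
    (hu : u < N + 1) (hv : v < N + 1) {σ : ℕ} (hσ : σ < 2) :
    tauC N k adj (2 * idxC N k s t u v + σ) =
      if t = k + 1 then 3 * (s * (N + 1) + N) + 1
      else if t < k ∧ s ≠ t ∧ u < N ∧ v < N ∧ adj u v = false then
        if σ = 0 then 3 * (s * (N + 1) + u) + 2 else 3 * (t * (N + 1) + v) + 2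
      else 3 * (s * (N + 1)) := by
  have h0 : (2 * idxC N k s t u v + σ) / 2 = idxC N k s t u v := by omega
  have h0' : (2 * idxC N k s t u v + σ) % 2 = σ := by omega
  have h1 := divmod_aux (a := (s * (k + 2) + t) * (N + 1) + u) hv
  have h2 := divmod_aux (a := s * (k + 2) + t) hu
  have h3 := divmod_aux (a := s) ht
  have e1 : idxC N k s t u v % (N + 1) = v := h1.1
  have e2 : idxC N k s t u v / (N + 1) = (s * (k + 2) + t) * (N + 1) + u := h1.2
  unfold tauC
  simp only [h0, h0', e1, e2, h2.1, h2.2, h3.1, h3.2]

theorem satT_one {x : ℕ → Bool} {a : ℕ} : SatT x (3 * a + 1) ↔ x a = false := by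
  unfold SatT
  have h1 : (3 * a + 1) % 3 = 1 := by omega
  have h2 : (3 * a + 1) / 3 = a := by omega
  rw [h1, h2]
  simp

theorem satT_zero {x : ℕ → Bool} {a : ℕ} : SatT x (3 * a) ↔ x a = true := by
  unfold SatT
  have h1 : (3 * a) % 3 = 0 := by omega
  have h2 : (3 * a) / 3 = a := by omega
  rw [h1, h2]
  simp

theorem satT_two {x : ℕ → Bool} {a : ℕ} :
    SatT x (3 * a + 2) ↔ (x a = false ∨ x (a + 1) = true) := by
  unfold SatT
  have h1 : (3 * a + 2) % 3 = 2 := by omega
  have h2 : (3 * a + 2) / 3 = a := by omega
  rw [h1, h2]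
  simp

/-- a Boolean sequence which goes from true to false drops somewhere -/
theorem exists_drop {f : ℕ → Bool} {N : ℕ} (h0 : f 0 = true) (hN : f N = false) :
    ∃ u < N, f u = true ∧ f (u + 1) = false := by
  by_contra hcon
  push Not at hcon
  have h : ∀ u ≤ N, f u = true := by
    intro u
    induction u with
    | zero => exact fun _ => h0
    | succ u ih =>
      intro hu
      have h1 := hcon u (by omega) (ih (by omega))
      cases h2 : f (u + 1)
      · exact absurd h2 h1
      · rfl
  rw [h N le_rfl] at hN
  exact absurd hN (by simp)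

theorem clique_iff_csp {N k : ℕ} (hk : 2 ≤ k) {adj : ℕ → ℕ → Bool}
    (hsymm : ∀ a b, adj a b = adj b a) (hirr : ∀ a, adj a a = false) :
    Pool.Agent.H75.HasClique N adj k ↔ ∃ x : ℕ → Bool, ∀ j < cC N k,
      SatT x (tauC N k adj (2 * j)) ∨ SatT x (tauC N k adj (2 * j + 1)) := by
  constructor
  · rintro ⟨S, hS, hSN, hadj⟩
    -- an enumeration of the clique
    let e : Fin k ≃ S := (Finset.equivFinOfCardEq hS).symm
    let a : ℕ → ℕ := fun s => if h : s < k then (e ⟨s, h⟩ : ℕ) else 0
    have ha : ∀ s (h : s < k), a s = (e ⟨s, h⟩ : ℕ) := fun s h => by simp only [a, dif_pos h]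
    have haN : ∀ s < k, a s < N := fun s h => by
      rw [ha s h]; exact hSN _ (e ⟨s, h⟩).2
    have hadj' : ∀ s t, s < k → t < k → s ≠ t → adj (a s) (a t) = true := by
      intro s t hs ht hst
      rw [ha s hs, ha t ht]
      apply hadj _ (e ⟨s, hs⟩).2 _ (e ⟨t, ht⟩).2
      intro h
      have h1 := e.injective (Subtype.ext h)
      exact hst (by simpa using h1)
    refine ⟨fun i => decide (i % (N + 1) ≤ a (i / (N + 1))), fun j hj => ?_⟩
    set x : ℕ → Bool := fun i => decide (i % (N + 1) ≤ a (i / (N + 1))) with hx
    have hxv : ∀ s u, u < N + 1 → x (s * (N + 1) + u) = decide (u ≤ a s) := by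
      intro s u hu
      have := divmod_aux (a := s) hu
      simp only [hx]
      rw [this.1, this.2]
    have hs := slot_lt hj
    have hq0 : 2 * j / 2 = j := by omega
    have hq1 : (2 * j + 1) / 2 = j := by omega
    have hm0 : 2 * j % 2 = 0 := by omega
    have hm1 : (2 * j + 1) % 2 = 1 := by omega
    unfold tauC
    simp only [hq0, hq1, hm0, hm1]
    set s := j / (N + 1) / (N + 1) / (k + 2) with hsdef
    set t := j / (N + 1) / (N + 1) % (k + 2) with htdef
    set u := j / (N + 1) % (N + 1) with hudef
    set v := j % (N + 1) with hvdef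
    by_cases h1 : t = k + 1
    · rw [if_pos h1]
      left
      rw [satT_one, hxv _ _ (by omega)]
      have := haN s hs
      simpa using this
    · by_cases h2 : t < k ∧ s ≠ t ∧ u < N ∧ v < N ∧ adj u v = false
      · rw [if_neg h1, if_neg h1, if_pos h2, if_pos h2]
        obtain ⟨ht, hst, hu, hv, huv⟩ := h2
        simp only [if_true, one_ne_zero, if_false]
        rw [satT_two, satT_two, hxv _ _ (by omega), add_assoc, hxv _ _ (by omega),
          hxv _ _ (by omega), add_assoc, hxv _ _ (by omega)]
        by_contra hcon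
        push Not at hcon
        obtain ⟨⟨c1, c2⟩, c3, c4⟩ := hcon
        have d1 : u = a s := by
          have e1 : u ≤ a s := by simpa using c1
          have e2 : ¬ (u + 1 ≤ a s) := by simpa using c2
          omega
        have d2 : v = a t := by
          have e1 : v ≤ a t := by simpa using c3
          have e2 : ¬ (v + 1 ≤ a t) := by simpa using c4
          omega
        rw [d1, d2, hadj' s t hs ht hst] at huv
        exact absurd huv (by simp)
      · rw [if_neg h1, if_neg h2]
        left
        have h3 := hxv s 0 (by omega)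
        rw [add_zero] at h3
        rw [satT_zero, h3]
        simp
  · rintro ⟨x, hx⟩
    have key : ∀ s t u v, s < k → t < k + 2 → u < N + 1 → v < N + 1 →
        SatT x (tauC N k adj (2 * idxC N k s t u v + 0)) ∨
          SatT x (tauC N k adj (2 * idxC N k s t u v + 1)) := by
      intro s t u v hs ht hu hv
      exact hx _ (idxC_lt hs ht hu hv)
    have hzero : ∀ s < k, x (s * (N + 1)) = true := by
      intro s hs
      have h := key s k 0 0 hs (by omega) (by omega) (by omega)
      rw [tauC_idxC adj (by omega) (by omega) (by omega) (by omega),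
        tauC_idxC adj (by omega) (by omega) (by omega) (by omega), if_neg (by omega),
        if_neg (by omega), if_neg (by omega), if_neg (by omega), or_self, satT_zero] at h
      exact h
    have hlast : ∀ s < k, x (s * (N + 1) + N) = false := by
      intro s hs
      have h := key s (k + 1) 0 0 hs (by omega) (by omega) (by omega)
      rw [tauC_idxC adj (by omega) (by omega) (by omega) (by omega),
        tauC_idxC adj (by omega) (by omega) (by omega) (by omega), if_pos rfl,
        if_pos rfl, or_self, satT_one] at h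
      exact h
    have hdrop : ∀ s, ∃ u, s < k → u < N ∧ x (s * (N + 1) + u) = true ∧
        x (s * (N + 1) + (u + 1)) = false := by
      intro s
      by_cases hs : s < k
      · obtain ⟨u, hu, h1, h2⟩ := exists_drop (f := fun u => x (s * (N + 1) + u)) (N := N)
          (by simpa using hzero s hs) (hlast s hs)
        exact ⟨u, fun _ => ⟨hu, h1, h2⟩⟩
      · exact ⟨0, fun h => absurd h hs⟩
    choose a ha using hdrop
    have hadj : ∀ s t, s < k → t < k → s ≠ t → adj (a s) (a t) = true := by
      intro s t hs ht hst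
      by_contra hcon
      have hcon' : adj (a s) (a t) = false := by simpa using hcon
      obtain ⟨hs1, hs2, hs3⟩ := ha s hs
      obtain ⟨ht1, ht2, ht3⟩ := ha t ht
      have hne : ¬ t = k + 1 := by omega
      have h2 : t < k ∧ s ≠ t ∧ a s < N ∧ a t < N ∧ adj (a s) (a t) = false :=
        ⟨ht, hst, hs1, ht1, hcon'⟩
      have h := key s t (a s) (a t) hs (by omega) (by omega) (by omega)
      rw [tauC_idxC adj (by omega) (by omega) (by omega) (by omega),
        tauC_idxC adj (by omega) (by omega) (by omega) (by omega), if_neg hne,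
        if_neg hne, if_pos h2, if_pos h2,
        if_pos rfl, if_neg one_ne_zero, satT_two, satT_two, hs2, ht2, add_assoc, hs3, add_assoc,
        ht3] at h
      simp at h
    have hinj : ∀ s t, s < k → t < k → a s = a t → s = t := by
      intro s t hs ht hst
      by_contra hne
      have := hadj s t hs ht hne
      rw [hst, hirr] at this
      exact absurd this (by simp)
    refine ⟨(Finset.range k).image a, ?_, ?_, ?_⟩
    · rw [Finset.card_image_of_injOn, Finset.card_range]
      intro s hs t ht hst
      exact hinj s t (by simpa using hs) (by simpa using ht) hst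
    · intro i hi
      rw [Finset.mem_image] at hi
      obtain ⟨s, hs, rfl⟩ := hi
      exact (ha s (by simpa using hs)).1
    · intro i hi j hj hij
      rw [Finset.mem_image] at hi hj
      obtain ⟨s, hs, rfl⟩ := hi
      obtain ⟨t, ht, rfl⟩ := hj
      exact hadj s t (by simpa using hs) (by simpa using ht) (fun h => hij (by rw [h]))

end Pool.Agent.VDC
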