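import Pool.Agent.VDC.Inst

/-!
# The constraints of the reduction from the clique problem (definitions)
-/

namespace Pool.Agent.VDC

/-- number of main groups -/
def mC (N k : ℕ) : ℕ := k * (N + 1)
/-- number of constraint groups -/
def cC (N k : ℕ) : ℕ := k * (k + 2) * (N + 1) * (N + 1)

/-- The target number `a = 2 * q + σ`, with `q = ((s (k + 2) + t) (N + 1) + u) (N + 1) + v`. -/
def tauC (N k : ℕ) (adj : ℕ → ℕ → Bool) (a : ℕ) : ℕ :=
  let q := a / 2
  let v := q % (N + 1)
  let u := q / (N + 1) % (N + 1)
  let t := q / (N + 1) / (N + 1) % (k + 2)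
  let s := q / (N + 1) / (N + 1) / (k + 2)
  if t = k + 1 then 3 * (s * (N + 1) + N) + 1
  else if t < k ∧ s ≠ t ∧ u < N ∧ v < N ∧ adj u v = false then
    if a % 2 = 0 then 3 * (s * (N + 1) + u) + 2 else 3 * (t * (N + 1) + v) + 2
  else 3 * (s * (N + 1))

/-- code of a natural number, as a rational number -/
def encNat (y : ℕ) : List (Option Bool) :=
  some false :: (y.bits.map some ++ [none] ++ ([some true] ++ [none]))

end Pool.Agent.VDC
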