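import Pool.Agent.VDC.Defs

/-!
# Polygons bounded below by a chain with spikes (definitions)
-/

namespace Pool.Agent.VDC

open Set

/-- Height at the abscissa `x` of the line through `p` and `q` (`p.1 < q.1` or `q.1 < p.1`). -/
noncomputable def ln (p q : ℝ × ℝ) (x : ℝ) : ℝ := p.2 + (q.2 - p.2) / (q.1 - p.1) * (x - p.1)

/-- A chain of vertices `c 0, …, c r`, from left to right, below the segment from `c 0` to `c r`;
the edges `i` with `S i` are replaced by spikes with the tips `w i` (below the chain, to the right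
of the edge). -/
structure Chain where
  r : ℕ
  c : ℕ → ℝ × ℝ
  S : ℕ → Prop
  w : ℕ → ℝ × ℝ
  two_le : 2 ≤ r
  mono : ∀ i < r, (c i).1 < (c (i + 1)).1
  top : ∀ i, 0 < i → i < r → (c i).2 < ln (c 0) (c r) (c i).1
  gap : ∀ i, S i → i + 2 ≤ r
  gap_next : ∀ i, S i → ¬ S (i + 1)
  w_gt : ∀ i, S i → (c (i + 1)).1 < (w i).1
  w_lt : ∀ i, S i → (w i).1 < (c (i + 2)).1
  w_below : ∀ i, S i → (w i).2 < ln (c i) (c (i + 1)) (w i).1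
  w_below' : ∀ i, S i → (w i).2 < ln (c (i + 1)) (c (i + 2)) (w i).1

namespace Chain

variable (Γ : Chain)

/-- The boundary curve. -/
def curve : Set (ℝ × ℝ) :=
  segment ℝ (Γ.c Γ.r) (Γ.c 0) ∪
    {z | ∃ i, i < Γ.r ∧ ¬ Γ.S i ∧ z ∈ segment ℝ (Γ.c i) (Γ.c (i + 1))} ∪
    {z | ∃ i, Γ.S i ∧ (z ∈ segment ℝ (Γ.c i) (Γ.w i) ∨ z ∈ segment ℝ (Γ.w i) (Γ.c (i + 1)))}

/-- The part of the polygon between the chain and the top edge. -/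
def main : Set (ℝ × ℝ) :=
  {z | ∃ i, i < Γ.r ∧ (Γ.c i).1 ≤ z.1 ∧ z.1 ≤ (Γ.c (i + 1)).1 ∧
    ln (Γ.c i) (Γ.c (i + 1)) z.1 ≤ z.2 ∧ z.2 ≤ ln (Γ.c 0) (Γ.c Γ.r) z.1}

/-- The `i`-th spike. -/
def spike (i : ℕ) : Set (ℝ × ℝ) :=
  {z | ln (Γ.c i) (Γ.w i) z.1 ≤ z.2 ∧ z.2 ≤ ln (Γ.c i) (Γ.c (i + 1)) z.1 ∧
    z.2 ≤ ln (Γ.c (i + 1)) (Γ.w i) z.1}

/-- The polygon. -/
def body : Set (ℝ × ℝ) := Γ.main ∪ {z | ∃ i, Γ.S i ∧ z ∈ Γ.spike i}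

end Chain

/-- The cyclic successor of a boundary vertex: `(i, false)` is `c i`, `(i, true)` is the tip
`w i`. -/
def Chain.Next (Γ : Chain) (a b : ℕ × Bool) : Prop :=
  (a.2 = true ∧ b = (a.1 + 1, false)) ∨
  (a.2 = false ∧ a.1 < Γ.r ∧ Γ.S a.1 ∧ b = (a.1, true)) ∨
  (a.2 = false ∧ a.1 < Γ.r ∧ ¬ Γ.S a.1 ∧ b = (a.1 + 1, false)) ∨
  (a.2 = false ∧ a.1 = Γ.r ∧ b = (0, false))

/-- The boundary vertices. -/
def Chain.pt (Γ : Chain) (a : ℕ × Bool) : ℝ × ℝ := if a.2 then Γ.w a.1 else Γ.c a.1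

/-- A numbering of the boundary vertices of `Γ` in cyclic order. -/
structure Layout (Γ : Chain) (n : ℕ) (v : Fin n → ℚ × ℚ) where
  κ : Fin n → ℕ × Bool
  inj : Function.Injective κ
  le : ∀ a, (κ a).1 ≤ Γ.r
  tip : ∀ a, (κ a).2 = true → Γ.S (κ a).1
  surj_c : ∀ i ≤ Γ.r, ∃ a, κ a = (i, false)
  surj_w : ∀ i, Γ.S i → ∃ a, κ a = (i, true)
  next : ∀ a, Γ.Next (κ a) (κ (cycNext a))
  pt : ∀ a, toPlane (v a) = Γ.pt (κ a)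

end Pool.Agent.VDC
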