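import Pool.Agent.VDC.Inst

/-!
# Dominating cliques of the visibility graph and satisfying assignments
-/

namespace Pool.Agent.VDC

theorem excl_symm {m i l : ℕ} (h : Excl m i l) : Excl m l i := by
  unfold Excl at *
  omega

/-- The chain vertices of the dominating clique given by the assignment `x`. -/
def Chosen (m c : ℕ) (τ : ℕ → ℕ) (x : ℕ → Bool) (i : ℕ) : Prop :=
  IsM m i ∨ (i < 3 * m ∧ i % 3 = 0 ∧ x (i / 3) = true) ∨
  (i < 3 * m ∧ i % 3 = 2 ∧ x (i / 3) = false) ∨
  (3 * m ≤ i ∧ (i - 3 * m) % 5 ≤ 1 ∧ SatT x (τ (2 * ((i - 3 * m) / 5) + 1))) ∨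
  (3 * m ≤ i ∧ 3 ≤ (i - 3 * m) % 5 ∧ ¬ SatT x (τ (2 * ((i - 3 * m) / 5) + 1)))

theorem not_excl_of_isM {m i l : ℕ} (h : IsM m i) : ¬ Excl m i l := by
  unfold Excl IsM at *
  omega

theorem chosen_aux {m c i l : ℕ} {τ : ℕ → ℕ} {x : ℕ → Bool} (hi : Chosen m c τ x i)
    (hl : Chosen m c τ x l) (h : (i < 3 * m ∧ l < 3 * m ∧ i / 3 = l / 3 ∧ i % 3 = 0 ∧ l % 3 = 2) ∨
      (3 * m ≤ i ∧ 3 * m ≤ l ∧ (i - 3 * m) / 5 = (l - 3 * m) / 5 ∧ (i - 3 * m) % 5 ≤ 1 ∧
        3 ≤ (l - 3 * m) % 5)) : False := by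
  unfold Chosen IsM at hi hl
  rcases h with ⟨h1, h2, h3, h4, h5⟩ | ⟨h1, h2, h3, h4, h5⟩
  · rcases hi with hi | hi | hi | hi | hi
    · omega
    · rcases hl with hl | hl | hl | hl | hl
      · omega
      · omega
      · have := hi.2.2
        rw [h3, hl.2.2] at this
        exact Bool.noConfusion this
      · omega
      · omega
    · omega
    · omega
    · omega
  · rcases hi with hi | hi | hi | hi | hi
    · omega
    · omega
    · omega
    · rcases hl with hl | hl | hl | hl | hl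
      · omega
      · omega
      · omega
      · omega
      · have := hi.2.2
        rw [h3] at this
        exact hl.2.2 this
    · omega

theorem chosen_not_excl {m c i l : ℕ} {τ : ℕ → ℕ} {x : ℕ → Bool} (hi : Chosen m c τ x i)
    (hl : Chosen m c τ x l) : ¬ Excl m i l := by
  intro h
  unfold Excl at h
  rcases h with ⟨h1, h2, h3, h | h⟩ | ⟨h1, h2, h3, h | h⟩
  · exact chosen_aux hi hl (Or.inl ⟨h1, h2, h3, h.1, h.2⟩)
  · exact chosen_aux hl hi (Or.inl ⟨h2, h1, h3.symm, h.2, h.1⟩)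
  · exact chosen_aux hi hl (Or.inr ⟨h1, h2, h3, h.1, h.2⟩)
  · exact chosen_aux hl hi (Or.inr ⟨h2, h1, h3.symm, h.2, h.1⟩)

theorem exists_tgt {m c t : ℕ} {τ : ℕ → ℕ} {x : ℕ → Bool} (ht : ValidT m t) (h : SatT x t) :
    ∃ l, l ≤ 3 * m + 5 * c ∧ Chosen m c τ x l ∧ Tgt t l := by
  unfold SatT at h
  unfold ValidT at ht
  rcases h with ⟨h0, h⟩ | ⟨h0, h⟩ | ⟨h0, h | h⟩
  · refine ⟨3 * (t / 3), by omega, Or.inr (Or.inl ⟨by omega, by omega, ?_⟩), Or.inl ⟨h0, rfl⟩⟩
    rw [show 3 * (t / 3) / 3 = t / 3 by omega]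
    exact h
  · refine ⟨3 * (t / 3) + 2, by omega, Or.inr (Or.inr (Or.inl ⟨by omega, by omega, ?_⟩)),
      Or.inr (Or.inl ⟨h0, rfl⟩)⟩
    rw [show (3 * (t / 3) + 2) / 3 = t / 3 by omega]
    exact h
  · refine ⟨3 * (t / 3) + 2, by omega, Or.inr (Or.inr (Or.inl ⟨by omega, by omega, ?_⟩)),
      Or.inr (Or.inr ⟨h0, Or.inl rfl⟩)⟩
    rw [show (3 * (t / 3) + 2) / 3 = t / 3 by omega]
    exact h
  · have := ht.2 h0
    refine ⟨3 * (t / 3) + 3, by omega, Or.inr (Or.inl ⟨by omega, by omega, ?_⟩),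
      Or.inr (Or.inr ⟨h0, Or.inr rfl⟩)⟩
    rw [show (3 * (t / 3) + 3) / 3 = t / 3 + 1 by omega]
    exact h

theorem domClique_iff {m c : ℕ} (hm : 0 < m) (hc : 0 < c) (τ : ℕ → ℕ)
    (hτ : ∀ j < 2 * c, ValidT m (τ j)) {n : ℕ} (G : SimpleGraph (Fin n)) (κ : Fin n → ℕ × Bool)
    (hκ : Function.Injective κ) (hle : ∀ a, (κ a).1 ≤ 3 * m + 5 * c)
    (htip : ∀ a, (κ a).2 = true → Gap m c (κ a).1)
    (hsurj : ∀ i ≤ 3 * m + 5 * c, ∃ a, κ a = (i, false))
    (hsurj' : ∀ i, Gap m c i → ∃ a, κ a = (i, true))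
    (h1 : ∀ a b i l, κ a = (i, false) → κ b = (l, false) → i < l → (G.Adj a b ↔ ¬ Excl m i l))
    (h2 : ∀ a b i l, κ a = (i, true) → κ b = (l, false) →
      (G.Adj a b ↔ l = i ∨ l = i + 1 ∨ Tgt (τ (tIdx m i)) l))
    (h3 : ∀ a b i l, κ a = (i, true) → κ b = (l, true) → ¬ G.Adj a b) :
    HasDominatingClique G ↔
      ∃ x : ℕ → Bool, ∀ j < c, SatT x (τ (2 * j)) ∨ SatT x (τ (2 * j + 1)) := by
  have h1' : ∀ a b i l, κ a = (i, false) → κ b = (l, false) → i ≠ l →
      (G.Adj a b ↔ ¬ Excl m i l) := by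
    intro a b i l ha hb hil
    rcases lt_or_gt_of_ne hil with h | h
    · exact h1 a b i l ha hb h
    · rw [G.adj_comm, h1 b a l i hb ha h]
      exact ⟨fun h h' => h (excl_symm h'), fun h h' => h (excl_symm h')⟩
  have hcase : ∀ a, κ a = ((κ a).1, false) ∨ κ a = ((κ a).1, true) := by
    intro a
    rcases h : (κ a).2 with _ | _
    · exact Or.inl (Prod.ext rfl h)
    · exact Or.inr (Prod.ext rfl h)
  constructor
  · rintro ⟨K, hK, hdom⟩
    classical
    -- every tip has a neighbour in `K` which is a chain vertex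
    have key0 : ∀ i, Gap m c i → ∀ a, κ a = (i, true) → a ∉ K →
        ∃ b l, b ∈ K ∧ κ b = (l, false) ∧ G.Adj a b := by
      intro i _ a ha haK
      obtain ⟨b, hb, hab⟩ := hdom a haK
      rcases hcase b with h | h
      · exact ⟨b, _, hb, h, hab⟩
      · exact absurd hab (h3 a b _ _ ha h)
    have gap0 : Gap m c (3 * m) := by unfold Gap; omega
    have gap3 : Gap m c (3 * m + 3) := by unfold Gap; omega
    have key : ∀ i, Gap m c i → ∃ b l, b ∈ K ∧ κ b = (l, false) ∧
        (l = i ∨ l = i + 1 ∨ Tgt (τ (tIdx m i)) l) := by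
      intro i hi
      obtain ⟨a, ha⟩ := hsurj' i hi
      by_cases haK : a ∈ K
      · -- another tip
        obtain ⟨i', hi', hne⟩ : ∃ i', Gap m c i' ∧ i' ≠ i := by
          by_cases h : i = 3 * m
          · exact ⟨_, gap3, by omega⟩
          · exact ⟨_, gap0, fun h' => h h'.symm⟩
        obtain ⟨a', ha'⟩ := hsurj' i' hi'
        have haa : a ≠ a' := by
          rintro rfl
          rw [ha] at ha'
          exact hne (congrArg Prod.fst ha').symm
        have ha'K : a' ∉ K := fun h => h3 a a' _ _ ha ha' (hK haK h haa)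
        obtain ⟨b, l, hb, hbl, _⟩ := key0 i' hi' a' ha' ha'K
        have hab : a ≠ b := by
          rintro rfl
          rw [ha] at hbl
          exact Bool.noConfusion (congrArg Prod.snd hbl)
        exact ⟨b, l, hb, hbl, (h2 a b i l ha hbl).1 (hK haK hb hab)⟩
      · obtain ⟨b, l, hb, hbl, hab⟩ := key0 i hi a ha haK
        exact ⟨b, l, hb, hbl, (h2 a b i l ha hbl).1 hab⟩
    have hex : ∀ a b i l, κ a = (i, false) → κ b = (l, false) → i ≠ l → a ∈ K → b ∈ K →
        ¬ Excl m i l := by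
      intro a b i l ha hb hil haK hbK
      refine (h1' a b i l ha hb hil).1 (hK haK hbK ?_)
      rintro rfl
      rw [ha] at hb
      exact hil (congrArg Prod.fst hb)
    refine ⟨fun g => decide (∃ a ∈ K, κ a = (3 * g, false)), fun j hj => ?_⟩
    have hsat : ∀ t b l, ValidT m t → b ∈ K → κ b = (l, false) → Tgt t l →
        SatT (fun g => decide (∃ a ∈ K, κ a = (3 * g, false))) t := by
      intro t b l ht hbK hb htg
      unfold ValidT at ht
      have hfalse : l = 3 * (t / 3) + 2 →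
          decide (∃ a ∈ K, κ a = (3 * (t / 3), false)) = false := by
        intro hl
        refine decide_eq_false ?_
        rintro ⟨a, haK, ha⟩
        refine hex a b _ _ ha hb (by omega) haK hbK ?_
        unfold Excl
        omega
      unfold SatT
      rcases htg with ⟨h0, hl⟩ | ⟨h0, hl⟩ | ⟨h0, hl | hl⟩
      · exact Or.inl ⟨h0, decide_eq_true ⟨b, hbK, by rw [hb, hl]⟩⟩
      · exact Or.inr (Or.inl ⟨h0, hfalse hl⟩)
      · exact Or.inr (Or.inr ⟨h0, Or.inl (hfalse hl)⟩)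
      · exact Or.inr (Or.inr ⟨h0, Or.inr (decide_eq_true ⟨b, hbK, by
          rw [hb, hl]; rfl⟩)⟩)
    obtain ⟨b, l, hbK, hb, hl⟩ := key (3 * m + 5 * j) (by unfold Gap; omega)
    obtain ⟨b', l', hbK', hb', hl'⟩ := key (3 * m + 5 * j + 3) (by unfold Gap; omega)
    have e1 : tIdx m (3 * m + 5 * j) = 2 * j := by
      unfold tIdx
      rw [if_pos (by omega)]
      omega
    have e2 : tIdx m (3 * m + 5 * j + 3) = 2 * j + 1 := by
      unfold tIdx
      rw [if_neg (by omega)]
      omega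
    rw [e1] at hl
    rw [e2] at hl'
    by_cases ht : Tgt (τ (2 * j)) l
    · exact Or.inl (hsat _ b l (hτ _ (by omega)) hbK hb ht)
    by_cases ht' : Tgt (τ (2 * j + 1)) l'
    · exact Or.inr (hsat _ b' l' (hτ _ (by omega)) hbK' hb' ht')
    exfalso
    have hl2 : l = 3 * m + 5 * j ∨ l = 3 * m + 5 * j + 1 := by tauto
    have hl2' : l' = 3 * m + 5 * j + 3 ∨ l' = 3 * m + 5 * j + 3 + 1 := by tauto
    refine hex b b' l l' hb hb' (by omega) hbK hbK' ?_
    unfold Excl
    omega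
  · rintro ⟨x, hx⟩
    refine ⟨{a | (κ a).2 = false ∧ Chosen m c τ x (κ a).1}, ?_, ?_⟩
    · intro a ha b hb hab
      have ha' : κ a = ((κ a).1, false) := Prod.ext rfl ha.1
      have hb' : κ b = ((κ b).1, false) := Prod.ext rfl hb.1
      refine (h1' a b _ _ ha' hb' ?_).2 (chosen_not_excl ha.2 hb.2)
      intro h
      exact hab (hκ (by rw [ha', hb', h]))
    · intro a ha
      rcases hcase a with h | h
      · -- a chain vertex
        obtain ⟨b, hb⟩ := hsurj 1 (by omega)
        have hM : IsM m 1 := by unfold IsM; omega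
        refine ⟨b, ⟨by rw [hb], by rw [hb]; exact Or.inl hM⟩, ?_⟩
        have hne : 1 ≠ (κ a).1 := by
          intro h'
          refine ha ⟨by rw [h], ?_⟩
          rw [← h']
          exact Or.inl hM
        rw [G.adj_comm]
        exact (h1' b a _ _ hb h hne).2 (not_excl_of_isM hM)
      · -- a tip
        have hg := htip a (by rw [h])
        have hgl := hle a
        generalize (κ a).1 = i at h hg hgl
        have hown : ∀ l, (l = i ∨ l = i + 1) → Chosen m c τ x l →
            ∃ u ∈ {a | (κ a).2 = false ∧ Chosen m c τ x (κ a).1}, G.Adj a u := by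
          intro l hl hch
          obtain ⟨b, hb⟩ := hsurj l (by unfold Gap at hg; omega)
          exact ⟨b, ⟨by rw [hb], by rw [hb]; exact hch⟩, (h2 a b i l h hb).2 (by tauto)⟩
        have htgt : SatT x (τ (tIdx m i)) → tIdx m i < 2 * c →
            ∃ u ∈ {a | (κ a).2 = false ∧ Chosen m c τ x (κ a).1}, G.Adj a u := by
          intro hs hlt
          obtain ⟨l, hl, hch, ht⟩ := exists_tgt (c := c) (τ := τ) (hτ _ hlt) hs
          obtain ⟨b, hb⟩ := hsurj l hl
          exact ⟨b, ⟨by rw [hb], by rw [hb]; exact hch⟩,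
            (h2 a b i l h hb).2 (Or.inr (Or.inr ht))⟩
        obtain ⟨hg1, hg2, hg3⟩ := hg
        have hj : (i - 3 * m) / 5 < c := by omega
        have hsat := hx _ hj
        rcases hg3 with hg3 | hg3
        · have e : tIdx m i = 2 * ((i - 3 * m) / 5) := by
            unfold tIdx
            rw [if_pos hg3]
            omega
          by_cases hs : SatT x (τ (2 * ((i - 3 * m) / 5) + 1))
          · exact hown i (Or.inl rfl) (Or.inr (Or.inr (Or.inr (Or.inl ⟨hg1, by omega, hs⟩))))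
          · exact htgt (by rw [e]; exact hsat.resolve_right hs) (by omega)
        · have e : tIdx m i = 2 * ((i - 3 * m) / 5) + 1 := by
            unfold tIdx
            rw [if_neg (by omega)]
          by_cases hs : SatT x (τ (2 * ((i - 3 * m) / 5) + 1))
          · exact htgt (by rw [e]; exact hs) (by omega)
          · exact hown i (Or.inl rfl) (Or.inr (Or.inr (Or.inr (Or.inr ⟨hg1, by omega, hs⟩))))

end Pool.Agent.VDC
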