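import Mathlib

/-!
# Dominating cliques in visibility graphs of simple polygons: problem definition
-/

namespace Pool.Agent.VDC

/-- A point with rational coordinates as a point of the real plane. -/
def toPlane (p : ℚ × ℚ) : ℝ × ℝ := ((p.1 : ℝ), (p.2 : ℝ))

/-- The next index in the cyclic order. -/
def cycNext {n : ℕ} (i : Fin n) : Fin n := ⟨(i + 1) % n, Nat.mod_lt _ (Fin.pos i)⟩

/-- The closed edge from the `i`-th vertex to the next one. -/
def edge {n : ℕ} (v : Fin n → ℚ × ℚ) (i : Fin n) : Set (ℝ × ℝ) :=
  segment ℝ (toPlane (v i)) (toPlane (v (cycNext i)))

/-- A simple polygon, given by the rational coordinates of its vertices in order: the vertices are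
distinct, and two different edges meet only if they are consecutive, and then only in their common
vertex. -/
structure SimplePolygon where
  n : ℕ
  three_le : 3 ≤ n
  v : Fin n → ℚ × ℚ
  injective : Function.Injective v
  simple : ∀ i j : Fin n, i ≠ j → ∀ z ∈ edge v i ∩ edge v j,
    (j = cycNext i ∧ z = toPlane (v j)) ∨ (i = cycNext j ∧ z = toPlane (v i))

/-- The boundary curve. -/
def boundary {n : ℕ} (v : Fin n → ℚ × ℚ) : Set (ℝ × ℝ) := ⋃ i, edge v i

/-- The closed region bounded by the closed curve `C`: the points of `C` and the points whose
component in the complement of `C` is bounded. -/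
def region (C : Set (ℝ × ℝ)) : Set (ℝ × ℝ) :=
  C ∪ {z | z ∈ Cᶜ ∧ Bornology.IsBounded (connectedComponentIn Cᶜ z)}

/-- The visibility graph: two different vertices are adjacent if the closed segment between them
is contained in the closed region bounded by the polygon. -/
def SimplePolygon.visibilityGraph (P : SimplePolygon) : SimpleGraph (Fin P.n) where
  Adj i j := i ≠ j ∧ segment ℝ (toPlane (P.v i)) (toPlane (P.v j)) ⊆ region (boundary P.v)
  symm := ⟨fun i j h => ⟨h.1.symm, by rw [segment_symm]; exact h.2⟩⟩
  loopless := ⟨fun i h => h.1 rfl⟩

/-- The graph has a dominating clique: a clique `K` such that every vertex outside `K` has a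
neighbour in `K`. -/
def HasDominatingClique {V : Type} (G : SimpleGraph V) : Prop :=
  ∃ K : Set V, G.IsClique K ∧ ∀ v ∉ K, ∃ u ∈ K, G.Adj v u

/-- The code of a rational number: the sign (`true` if negative), the binary digits of the
numerator (least significant first), a separator, the binary digits of the denominator, a
separator. -/
def encRat (q : ℚ) : List (Option Bool) :=
  some (decide (q < 0)) :: (q.num.natAbs.bits.map some ++ [none] ++ (q.den.bits.map some ++ [none]))

/-- The input word of a simple polygon: the coordinates of the vertices in order. -/
def SimplePolygon.encode (P : SimplePolygon) : List (Option Bool) :=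
  (List.ofFn P.v).flatMap fun p => encRat p.1 ++ encRat p.2

end Pool.Agent.VDC
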