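import Pool.Agent.H75.ExLib2

/-!
# Substitution and division in the loop language
-/

namespace Pool.Agent.VDC

open Pool.Agent.H75

theorem sum_eq_single_last (n : ℕ) (g : ℕ → ℕ) :
    (∑ j ∈ Finset.range (n + 1), if j < n then 0 else g j) = g n := by
  rw [Finset.sum_range_succ, if_neg (lt_irrefl _), Finset.sum_eq_zero, zero_add]
  intro j hj
  rw [if_pos (Finset.mem_range.1 hj)]

/-- The expression `e` with the value of `a` in the variable `v`. -/
theorem letEx (v : ℕ) (a e : Ex) : ∃ e' : Ex, ∀ x ρ,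
    e'.val x ρ = e.val x (Function.update ρ v (a.val x ρ)) := by
  obtain ⟨w, ha, he, hv⟩ : ∃ w, a.mv ≤ w ∧ e.mv ≤ w ∧ v < w :=
    ⟨a.mv + e.mv + (v + 1), by omega, by omega, by omega⟩
  refine ⟨.sum w (.add a (.const 1)) (.ite (.lt (.var w) a) (.const 0)
    (.sum v (.add (.var w) (.const 1)) (.ite (.lt (.var v) (.var w)) (.const 0) e))), fun x ρ => ?_⟩
  simp only [Ex.val, Function.update_self, Ex.val_update x a ρ ha]
  have h1 : ∀ j, (if (if j < a.val x ρ then 1 else 0) = 0 then
      (∑ i ∈ Finset.range (j + 1), if (if i < Function.update (Function.update ρ w j) v i w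
        then 1 else 0) = 0 then e.val x (Function.update (Function.update ρ w j) v i) else 0)
      else 0) = if j < a.val x ρ then 0 else
        e.val x (Function.update (Function.update ρ w j) v j) := by
    intro j
    have h2 : ∀ i, (if (if i < Function.update (Function.update ρ w j) v i w
        then 1 else 0) = 0 then e.val x (Function.update (Function.update ρ w j) v i) else 0) =
        if i < j then 0 else e.val x (Function.update (Function.update ρ w j) v i) := by
      intro i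
      rw [Function.update_of_ne (by omega : w ≠ v), Function.update_self]
      by_cases h : i < j
      · simp [h]
      · simp [h]
    rw [Finset.sum_congr rfl fun i _ => h2 i, sum_eq_single_last]
    by_cases h : j < a.val x ρ
    · simp [h]
    · simp [h]
  rw [Finset.sum_congr rfl fun j _ => h1 j, sum_eq_single_last,
    Function.update_comm (by omega : w ≠ v), Ex.val_update x e _ he]

variable {F G A : List Bool → (ℕ → ℕ) → ℕ} {P : List Bool → (ℕ → ℕ) → Prop}

theorem isEx_let (v : ℕ) (hA : IsEx A) (hF : IsEx F) :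
    IsEx fun x ρ => F x (Function.update ρ v (A x ρ)) := by
  obtain ⟨a, ha⟩ := hA
  obtain ⟨e, he⟩ := hF
  obtain ⟨e', he'⟩ := letEx v a e
  exact ⟨e', fun x ρ => by rw [he', he, ha]⟩

theorem isB_let (v : ℕ) (hA : IsEx A) (hP : IsB P) :
    IsB fun x ρ => P x (Function.update ρ v (A x ρ)) := by
  obtain ⟨a, ha⟩ := hA
  obtain ⟨e, he⟩ := hP
  obtain ⟨e', he'⟩ := letEx v a e
  exact ⟨e', fun x ρ => by rw [he', he, ha]⟩

/-- Substitution for the variables `20`, `21` in a test which depends only on these variables. -/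
theorem isB_subst2 {Q : List Bool → ℕ → ℕ → Prop} (hQ : IsB fun x ρ => Q x (ρ 20) (ρ 21))
    (hF : IsEx F) (hG : IsEx G) : IsB fun x ρ => Q x (F x ρ) (G x ρ) := by
  obtain ⟨a, ha⟩ := hF
  obtain ⟨b, hb⟩ := hG
  obtain ⟨w, hw, hw'⟩ : ∃ w, b.mv ≤ w ∧ 22 ≤ w := ⟨b.mv + 22, by omega, by omega⟩
  have h1 := isB_let 21 (isEx_var (w + 1)) hQ
  have h2 := isB_let 20 (isEx_var w) h1
  have h3 := isB_let (w + 1) ⟨b, fun _ _ => rfl⟩ h2
  have h4 := isB_let w ⟨a, fun _ _ => rfl⟩ h3
  refine h4.congr fun x ρ => ?_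
  have e1 : (20 : ℕ) ≠ 21 := by norm_num
  have e2 : w + 1 ≠ 20 := by omega
  have e3 : w ≠ w + 1 := by omega
  simp only [Function.update_self, Function.update_of_ne e1, Function.update_of_ne e2,
    Function.update_of_ne e3, Ex.val_update x b ρ hw, ha, hb]

/-- Division. -/
theorem isEx_div (hF : IsEx F) (hG : IsEx G) : IsEx fun x ρ => F x ρ / G x ρ := by
  classical
  obtain ⟨a, ha⟩ := hF
  obtain ⟨b, hb⟩ := hG
  have h0 : IsEx fun x ρ => a.val x ρ := ⟨a, fun _ _ => rfl⟩
  have h0' : IsEx fun x ρ => b.val x ρ := ⟨b, fun _ _ => rfl⟩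
  obtain ⟨w, hw, hw'⟩ : ∃ w, a.mv ≤ w ∧ b.mv ≤ w := ⟨a.mv + b.mv, by omega, by omega⟩
  have h1 := IsEx.ite (h0'.eq (isEx_const 0)) (isEx_const 0) (IsEx.sum w h0
      (IsEx.ite ((h0'.mul ((isEx_var w).add (isEx_const 1))).le h0)
        (isEx_const 1) (isEx_const 0)))
  refine h1.congr fun x ρ => ?_
  simp only [Function.update_self, Ex.val_update x a ρ hw, Ex.val_update x b ρ hw']
  by_cases h : b.val x ρ = 0
  · rw [if_pos h, ← hb, h, Nat.div_zero]
  · rw [if_neg h, sum_div_eq _ (Nat.pos_of_ne_zero h), ha, hb,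
      min_eq_right (Nat.div_le_self _ _)]

/-- Remainder. -/
theorem isEx_mod (hF : IsEx F) (hG : IsEx G) : IsEx fun x ρ => F x ρ % G x ρ :=
  (hF.sub (hG.mul (isEx_div hF hG))).congr fun x ρ => by
    have := Nat.div_add_mod (F x ρ) (G x ρ)
    omega

/-- Printing the binary digits of the value of an expression which does not depend on the
variables `0` and `1`. -/
theorem isPr_bits' {A : Type} (hF : IsEx F) (h0 : ∀ x ρ j, F x (Function.update ρ 0 j) = F x ρ)
    (h1 : ∀ x ρ j, F x (Function.update ρ 1 j) = F x ρ) (f : Bool → A) :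
    IsPr fun x ρ => (Nat.bits (F x ρ)).map f := by
  classical
  have hw : IsB fun x ρ => ρ 0 ≠ 0 ∧ ∃ c, c < F x ρ + 1 ∧ ((2 * (Function.update ρ 1 c) 1 + 1) *
      (Function.update ρ 1 c) 0 ≤ F x (Function.update ρ 1 c) ∧
      F x (Function.update ρ 1 c) < (2 * (Function.update ρ 1 c) 1 + 2) *
        (Function.update ρ 1 c) 0) :=
    ((isEx_var 0).eq (isEx_const 0)).not.and (IsB.exists_lt 1 (hF.add (isEx_const 1))
      (P := fun x ρ => ((2 * ρ 1 + 1) * ρ 0 ≤ F x ρ ∧ F x ρ < (2 * ρ 1 + 2) * ρ 0))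
      ((((((isEx_const 2).mul (isEx_var 1)).add (isEx_const 1)).mul (isEx_var 0)).le hF).and
        (hF.lt ((((isEx_const 2).mul (isEx_var 1)).add (isEx_const 2)).mul (isEx_var 0)))))
  have hbody := IsPr.ite (isB_pow2_var 0 (by norm_num))
    (IsPr.ite hw (isPr_emit (f true)) (isPr_emit (f false))) isPr_nil
  refine (IsPr.flatMap 0 (hF.add (isEx_const 1)) hbody).congr fun x ρ => ?_
  rw [bits_flatMap]
  refine List.flatMap_congr fun w _ => ?_
  simp only [Function.update_self, ne_eq, not_false_eq_true,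
    Function.update_of_ne, Nat.zero_ne_one, h0, h1]
  by_cases hp : Pow2 w
  · rw [if_pos hp, if_pos hp]
    have hw0 : w ≠ 0 := by rintro rfl; exact not_pow2_zero hp
    have hbt := bit_test (n := F x ρ) (Nat.pos_of_ne_zero hw0)
    by_cases h2 : F x ρ / w % 2 = 1
    · rw [if_pos ⟨hw0, hbt.1 h2⟩, decide_eq_true h2]
    · rw [if_neg (fun h => h2 (hbt.2 h.2)), decide_eq_false h2]
  · rw [if_neg hp, if_neg hp]

end Pool.Agent.VDC
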