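import Pool.Agent.VDC.CSPDefs
import Pool.Agent.VDC.Subst

/-!
# Printing the polygons of the reduction
-/

namespace Pool.Agent.VDC

open Pool.Agent.H75

theorem encRat_natCast (y : ℕ) : encRat (y : ℚ) = encNat y := by
  have h : ¬ ((y : ℚ) < 0) := not_lt.2 (Nat.cast_nonneg y)
  simp only [encRat, encNat, decide_eq_false h, Rat.num_natCast, Rat.den_natCast, Int.natAbs_natCast]
  rfl

variable {m c i t τ : List Bool → (ℕ → ℕ) → ℕ}

theorem isEx_unitD (hm : IsEx m) (hc : IsEx c) : IsEx fun x ρ => unitD (m x ρ) (c x ρ) :=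
  ((isEx_const 6).mul (hm.add hc)).add (isEx_const 20)

theorem isEx_unitG (hm : IsEx m) (hc : IsEx c) : IsEx fun x ρ => unitG (m x ρ) (c x ρ) :=
  (isEx_unitD hm hc).add (isEx_const 1)

theorem isEx_off (hm : IsEx m) (ht : IsEx t) : IsEx fun x ρ => off (m x ρ) (t x ρ) := by
  classical
  refine (IsEx.ite (ht.eq (isEx_const 0)) (isEx_const 0) (IsEx.ite (ht.eq (isEx_const 1))
    (isEx_const 1) (IsEx.ite (ht.eq (isEx_const 2)) ((isEx_const 1).add ((isEx_const 2).mul hm))
      (IsEx.ite (ht.eq (isEx_const 3)) ((isEx_const 1).add ((isEx_const 4).mul hm))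
        ((isEx_const 2).add ((isEx_const 4).mul hm)))))).congr fun x ρ => ?_
  unfold off
  congr

theorem isEx_pos (hm : IsEx m) (hc : IsEx c) (hi : IsEx i) :
    IsEx fun x ρ => pos (m x ρ) (c x ρ) (i x ρ) := by
  classical
  have hG := isEx_unitG hm hc
  have h3 := (isEx_const 3).mul hm
  have hs := hi.sub h3
  refine (IsEx.ite (hi.lt h3)
    ((((isEx_const 5).mul hG).mul (hi.div 3)).add (((isEx_const 2).mul hG).mul (hi.mod 3)))
    ((((((isEx_const 5).mul hG).mul hm).add ((isEx_const 10).mul hG)).add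
      (((isEx_const 6).mul hG).mul (hs.div 5))).add (isEx_off hG (hs.mod 5)))).congr fun x ρ => ?_
  unfold pos
  congr

theorem isB_isM (hm : IsEx m) (hi : IsEx i) : IsB fun x ρ => IsM (m x ρ) (i x ρ) :=
  ((hi.lt ((isEx_const 3).mul hm)).and ((hi.mod 3).eq (isEx_const 1))).or
    ((((isEx_const 3).mul hm).le hi).and
      (((hi.sub ((isEx_const 3).mul hm)).mod 5).eq (isEx_const 2)))

theorem isEx_bumpH (hm : IsEx m) (hc : IsEx c) : IsEx fun x ρ => bumpH (m x ρ) (c x ρ) :=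
  ((isEx_unitD hm hc).pow 2).mul
    ((((isEx_const 2).mul (isEx_unitG hm hc)).add (isEx_const 2)).pow 2)

theorem isEx_cX (hm : IsEx m) (hc : IsEx c) (hi : IsEx i) :
    IsEx fun x ρ => cX (m x ρ) (c x ρ) (i x ρ) :=
  (isEx_unitD hm hc).mul (isEx_pos hm hc hi)

theorem isEx_cY (hm : IsEx m) (hc : IsEx c) (hi : IsEx i) :
    IsEx fun x ρ => cY (m x ρ) (c x ρ) (i x ρ) := by
  classical
  refine (((isEx_cX hm hc hi).pow 2).add
    (IsEx.ite (isB_isM hm hi) (isEx_bumpH hm hc) (isEx_const 0))).congr fun x ρ => ?_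
  unfold cY
  congr

theorem isEx_tIdx (hm : IsEx m) (hi : IsEx i) : IsEx fun x ρ => tIdx (m x ρ) (i x ρ) := by
  classical
  have hs := hi.sub ((isEx_const 3).mul hm)
  refine (((isEx_const 2).mul (hs.div 5)).add (IsEx.ite ((hs.mod 5).eq (isEx_const 0))
    (isEx_const 0) (isEx_const 1))).congr fun x ρ => ?_
  unfold tIdx
  congr

theorem isEx_aT (hm : IsEx m) (hc : IsEx c) (ht : IsEx t) :
    IsEx fun x ρ => aT (m x ρ) (c x ρ) (t x ρ) := by
  classical
  have hG := isEx_unitG hm hc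
  refine ((((isEx_const 5).mul hG).mul (ht.div 3)).add (IsEx.ite ((ht.mod 3).eq (isEx_const 0))
    (isEx_const 0) (IsEx.ite ((ht.mod 3).eq (isEx_const 1)) ((isEx_const 3).mul hG)
      ((isEx_const 4).mul hG)))).congr fun x ρ => ?_
  unfold aT
  congr

/-- The constraint table. -/
theorem isEx_tauC {N k : List Bool → ℕ} {adj : List Bool → ℕ → ℕ → Bool}
    (hN : IsEx fun x _ => N x) (hk : IsEx fun x _ => k x)
    (hadj : IsB fun x ρ => ρ 20 < N x ∧ ρ 21 < N x ∧ adj x (ρ 20) (ρ 21) = true)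
    {a : List Bool → (ℕ → ℕ) → ℕ} (ha : IsEx a) :
    IsEx fun x ρ => tauC (N x) (k x) (adj x) (a x ρ) := by
  classical
  have hN1 := hN.add (isEx_const 1)
  have hk1 := hk.add (isEx_const 1)
  have hk2 := hk.add (isEx_const 2)
  have hq := ha.div 2
  have hv := isEx_mod hq hN1
  have hu := isEx_mod (isEx_div hq hN1) hN1
  have ht := isEx_mod (isEx_div (isEx_div hq hN1) hN1) hk2
  have hs := isEx_div (isEx_div (isEx_div hq hN1) hN1) hk2
  have hA := isB_subst2 (Q := fun x u v => u < N x ∧ v < N x ∧ adj x u v = true) hadj hu hv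
  have hB := (ht.lt hk).and ((hs.eq ht).not.and ((hu.lt hN).and ((hv.lt hN).and hA.not)))
  have e3 := isEx_const 3
  refine (IsEx.ite (ht.eq hk1) ((e3.mul ((hs.mul hN1).add hN)).add (isEx_const 1))
    (IsEx.ite hB (IsEx.ite ((ha.mod 2).eq (isEx_const 0))
      ((e3.mul ((hs.mul hN1).add hu)).add (isEx_const 2))
      ((e3.mul ((ht.mul hN1).add hv)).add (isEx_const 2)))
      (e3.mul (hs.mul hN1)))).congr fun x ρ => ?_
  unfold tauC
  simp only
  by_cases h1 : a x ρ / 2 / (N x + 1) / (N x + 1) % (k x + 2) = k x + 1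
  · rw [if_pos h1, if_pos h1]
  · rw [if_neg h1, if_neg h1]
    have hiff : (a x ρ / 2 / (N x + 1) / (N x + 1) % (k x + 2) < k x ∧
        ¬ a x ρ / 2 / (N x + 1) / (N x + 1) / (k x + 2) =
          a x ρ / 2 / (N x + 1) / (N x + 1) % (k x + 2) ∧
        a x ρ / 2 / (N x + 1) % (N x + 1) < N x ∧ a x ρ / 2 % (N x + 1) < N x ∧
        ¬ (a x ρ / 2 / (N x + 1) % (N x + 1) < N x ∧ a x ρ / 2 % (N x + 1) < N x ∧
          adj x (a x ρ / 2 / (N x + 1) % (N x + 1)) (a x ρ / 2 % (N x + 1)) = true)) ↔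
        (a x ρ / 2 / (N x + 1) / (N x + 1) % (k x + 2) < k x ∧
        a x ρ / 2 / (N x + 1) / (N x + 1) / (k x + 2) ≠
          a x ρ / 2 / (N x + 1) / (N x + 1) % (k x + 2) ∧
        a x ρ / 2 / (N x + 1) % (N x + 1) < N x ∧ a x ρ / 2 % (N x + 1) < N x ∧
          adj x (a x ρ / 2 / (N x + 1) % (N x + 1)) (a x ρ / 2 % (N x + 1)) = false) := by
      constructor
      · rintro ⟨h2, h3, h4, h5, h6⟩
        refine ⟨h2, h3, h4, h5, ?_⟩
        rw [← Bool.not_eq_true]
        exact fun h => h6 ⟨h4, h5, h⟩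
      · rintro ⟨h2, h3, h4, h5, h6⟩
        refine ⟨h2, h3, h4, h5, ?_⟩
        rintro ⟨-, -, h⟩
        rw [h6] at h
        exact Bool.noConfusion h
    by_cases h2 : a x ρ / 2 / (N x + 1) / (N x + 1) % (k x + 2) < k x ∧
        a x ρ / 2 / (N x + 1) / (N x + 1) / (k x + 2) ≠
          a x ρ / 2 / (N x + 1) / (N x + 1) % (k x + 2) ∧
        a x ρ / 2 / (N x + 1) % (N x + 1) < N x ∧ a x ρ / 2 % (N x + 1) < N x ∧
          adj x (a x ρ / 2 / (N x + 1) % (N x + 1)) (a x ρ / 2 % (N x + 1)) = false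
    · rw [if_pos (hiff.2 h2), if_pos h2]
      congr
    · rw [if_neg (fun h => h2 (hiff.1 h)), if_neg h2]

section

variable {N k : List Bool → ℕ} {adj : List Bool → ℕ → ℕ → Bool}

theorem isEx_mC (hN : IsEx fun x _ => N x) (hk : IsEx fun x _ => k x) :
    IsEx fun x _ => mC (N x) (k x) := hk.mul (hN.add (isEx_const 1))

theorem isEx_cC (hN : IsEx fun x _ => N x) (hk : IsEx fun x _ => k x) :
    IsEx fun x _ => cC (N x) (k x) :=
  ((hk.mul (hk.add (isEx_const 2))).mul (hN.add (isEx_const 1))).mul (hN.add (isEx_const 1))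

variable (hN : IsEx fun x _ => N x) (hk : IsEx fun x _ => k x)
  (hadj : IsB fun x ρ => ρ 20 < N x ∧ ρ 21 < N x ∧ adj x (ρ 20) (ρ 21) = true)
include hN hk hadj

theorem isEx_wX (hi : IsEx i) : IsEx fun x ρ =>
    wX (mC (N x) (k x)) (cC (N x) (k x)) (tauC (N x) (k x) (adj x)) (i x ρ) := by
  have hm := isEx_mC hN hk
  have hc := isEx_cC hN hk
  exact ((isEx_unitG hm hc).mul (isEx_pos hm hc hi)).sub
    (isEx_aT hm hc (isEx_tauC hN hk hadj (isEx_tIdx hm hi)))

theorem isEx_wY (hi : IsEx i) : IsEx fun x ρ =>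
    wY (mC (N x) (k x)) (cC (N x) (k x)) (tauC (N x) (k x) (adj x)) (i x ρ) := by
  have hm := isEx_mC hN hk
  have hc := isEx_cC hN hk
  have hD := isEx_unitD hm hc
  have hp := isEx_pos hm hc hi
  have hA := isEx_aT hm hc (isEx_tauC hN hk hadj (isEx_tIdx hm hi))
  exact ((hD.mul ((hA.add hp).add (isEx_const 1))).mul (isEx_wX hN hk hadj hi)).sub
    (((hD.pow 2).mul hA).mul (hp.add (isEx_const 1)))

omit hadj in
theorem isEx_kap1 (hi : IsEx i) : IsEx fun x ρ => (kap (mC (N x) (k x)) (i x ρ)).1 := by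
  classical
  have hm := isEx_mC hN hk
  have h3 := (isEx_const 3).mul hm
  have hs := hi.sub h3
  have hr := hs.mod 7
  refine (IsEx.ite (hi.lt h3) hi ((h3.add ((isEx_const 5).mul (hs.div 7))).add
    (IsEx.ite (hr.eq (isEx_const 0)) (isEx_const 0) (IsEx.ite (hr.eq (isEx_const 1)) (isEx_const 0)
      (IsEx.ite (hr.eq (isEx_const 2)) (isEx_const 1) (IsEx.ite (hr.eq (isEx_const 3))
        (isEx_const 2) (IsEx.ite (hr.eq (isEx_const 4)) (isEx_const 3)
          (IsEx.ite (hr.eq (isEx_const 5)) (isEx_const 3) (isEx_const 4))))))))).congr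
            fun x ρ => ?_
  unfold kap
  by_cases h : i x ρ < 3 * mC (N x) (k x)
  · rw [if_pos h, if_pos h]
  · rw [if_neg h, if_neg h]
    congr

omit hadj in
theorem isB_kap2 (hi : IsEx i) : IsB fun x ρ => (kap (mC (N x) (k x)) (i x ρ)).2 = true := by
  classical
  have hm := isEx_mC hN hk
  have h3 := (isEx_const 3).mul hm
  have hr := (hi.sub h3).mod 7
  refine ((hi.lt h3).not.and ((hr.eq (isEx_const 1)).or (hr.eq (isEx_const 5)))).congr
    fun x ρ => ?_
  unfold kap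
  by_cases h : i x ρ < 3 * mC (N x) (k x)
  · rw [if_pos h]
    simp [h]
  · rw [if_neg h]
    simp [h]

theorem isEx_vX (hi : IsEx i) : IsEx fun x ρ =>
    vX (mC (N x) (k x)) (cC (N x) (k x)) (tauC (N x) (k x) (adj x)) (i x ρ) := by
  classical
  have h1 := isEx_kap1 hN hk hi
  refine (IsEx.ite (isB_kap2 hN hk hi) (isEx_wX hN hk hadj h1)
    (isEx_cX (isEx_mC hN hk) (isEx_cC hN hk) h1)).congr fun x ρ => ?_
  unfold vX
  congr

theorem isEx_vY (hi : IsEx i) : IsEx fun x ρ =>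
    vY (mC (N x) (k x)) (cC (N x) (k x)) (tauC (N x) (k x) (adj x)) (i x ρ) := by
  classical
  have h1 := isEx_kap1 hN hk hi
  refine (IsEx.ite (isB_kap2 hN hk hi) (isEx_wY hN hk hadj h1)
    (isEx_cY (isEx_mC hN hk) (isEx_cC hN hk) h1)).congr fun x ρ => ?_
  unfold vY
  congr

end

theorem isPr_encNat {F : List Bool → (ℕ → ℕ) → ℕ} (hF : IsEx F)
    (h0 : ∀ x ρ j, F x (Function.update ρ 0 j) = F x ρ)
    (h1 : ∀ x ρ j, F x (Function.update ρ 1 j) = F x ρ) :
    IsPr (A := Option Bool) fun x ρ => encNat (F x ρ) := by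
  refine ((isPr_emit (some false)).append (((isPr_bits' hF h0 h1 some).append
    (isPr_emit none)).append ((isPr_emit (some true)).append (isPr_emit none)))).congr
      fun x ρ => ?_
  unfold encNat
  rfl

/-- The polygons of the reduction are printed by a loop program. -/
theorem isPr_vert {N k : List Bool → ℕ} {adj : List Bool → ℕ → ℕ → Bool}
    (hN : Pool.Agent.H75.IsEx fun x _ => N x) (hk : Pool.Agent.H75.IsEx fun x _ => k x)
    (hadj : Pool.Agent.H75.IsB fun x ρ => ρ 20 < N x ∧ ρ 21 < N x ∧ adj x (ρ 20) (ρ 21) = true) :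
    Pool.Agent.H75.IsPr (A := Option Bool) fun x _ =>
      (List.range (3 * mC (N x) (k x) + 7 * cC (N x) (k x) + 1)).flatMap fun a =>
        encNat (vX (mC (N x) (k x)) (cC (N x) (k x)) (tauC (N x) (k x) (adj x)) a) ++
        encNat (vY (mC (N x) (k x)) (cC (N x) (k x)) (tauC (N x) (k x) (adj x)) a) := by
  have hn := (((isEx_const 3).mul (isEx_mC hN hk)).add
    ((isEx_const 7).mul (isEx_cC hN hk))).add (isEx_const 1)
  have hv : IsEx fun _ ρ => ρ 2 := isEx_var 2
  have e0 : (2 : ℕ) ≠ 0 := by norm_num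
  have e1 : (2 : ℕ) ≠ 1 := by norm_num
  have hX := isPr_encNat (isEx_vX hN hk hadj hv)
    (fun x ρ j => by simp only [Function.update_of_ne e0])
    (fun x ρ j => by simp only [Function.update_of_ne e1])
  have hY := isPr_encNat (isEx_vY hN hk hadj hv)
    (fun x ρ j => by simp only [Function.update_of_ne e0])
    (fun x ρ j => by simp only [Function.update_of_ne e1])
  refine (IsPr.flatMap 2 hn (hX.append hY)).congr fun x ρ => ?_
  simp only [Function.update_self]

end Pool.Agent.VDC
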