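import Pool.Agent.VDC.Poly
import Pool.Agent.VDC.CSP
import Pool.Agent.VDC.Print

/-!
# Dominating cliques in visibility graphs of simple polygons are NP-hard
-/

namespace Pool.Agent.VDC

open Pool.Agent.H75 Pool.Agent.H68.NPClique

/-- The code of a polygon of the reduction. -/
theorem encode_polyOf (m c : ℕ) (τ : ℕ → ℕ) (hm : 0 < m) (hτ : ∀ j < 2 * c, ValidT m (τ j)) :
    (polyOf m c τ hm hτ).encode = (List.range (3 * m + 7 * c + 1)).flatMap fun a =>
      encNat (vX m c τ a) ++ encNat (vY m c τ a) := by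
  have h1 : (polyOf m c τ hm hτ).encode =
      (List.ofFn (vert m c τ)).flatMap fun p => encRat p.1 ++ encRat p.2 := rfl
  have h2 : List.ofFn (vert m c τ) = (List.range (3 * m + 7 * c + 1)).map
      fun a => (((vX m c τ a : ℕ) : ℚ), ((vY m c τ a : ℕ) : ℚ)) := by
    rw [List.ofFn_eq_map, ← List.map_coe_finRange_eq_range, List.map_map]
    rfl
  rw [h1, h2, List.flatMap_map]
  simp only [encRat_natCast]

theorem mC_pos {N k : ℕ} (hk : 0 < k) : 0 < mC N k := Nat.mul_pos hk (Nat.succ_pos _)

theorem cC_pos {N k : ℕ} (hk : 0 < k) : 0 < cC N k := by unfold cC; positivity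

/-- Deciding whether the visibility graph of a simple polygon has a dominating clique is
NP-hard. -/
theorem npHard : NPHard SimplePolygon.encode (fun P => HasDominatingClique P.visibilityGraph) := by
  intro L hL
  obtain ⟨N, k, adj, hN, hk, hk2, hsymm, hirr, hadj, hiff⟩ := np_clique hL
  refine ⟨fun x => polyOf (mC (N x) (k x)) (cC (N x) (k x)) (tauC (N x) (k x) (adj x))
    (mC_pos (by have := hk2 x; omega)) (tauC_valid (by have := hk2 x; omega)), ?_, fun x => ?_⟩
  · obtain ⟨p, hp⟩ := isPr_vert hN hk hadj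
    refine p.polyTime _ _ fun x => ?_
    rw [encode_polyOf, hp]
  · rw [hiff, clique_iff_csp (hk2 x) (hsymm x) (hirr x)]
    exact (hasDom_iff _ (cC_pos (lt_of_lt_of_le (by norm_num) (hk2 x))) _).symm

end Pool.Agent.VDC
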