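import Pool.Agent.VDC.Pos

/-!
# The chain of the reduction
-/

namespace Pool.Agent.VDC

variable {m c : ℕ} {τ : ℕ → ℕ}

theorem ln_affine {p q : ℝ × ℝ} {k b : ℝ} (hp : p.2 = k * p.1 + b) (hq : q.2 = k * q.1 + b)
    (h : p.1 ≠ q.1) (x : ℝ) : ln p q x = k * x + b := by
  have h1 : q.1 - p.1 ≠ 0 := sub_ne_zero.mpr (Ne.symm h)
  rw [ln, hp, hq]
  field_simp
  ring

/-- chord of points above the parabola -/
theorem ln_par_ge {a b s t x : ℝ} (hs : 0 ≤ s) (ht : 0 ≤ t) (hax : a ≤ x) (hxb : x ≤ b)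
    (hab : a < b) : x ^ 2 + (x - a) * (b - x) ≤ ln (a, a ^ 2 + s) (b, b ^ 2 + t) x := by
  have h1 : ln (a, a ^ 2 + s) (b, b ^ 2 + t) x =
      x ^ 2 + (x - a) * (b - x) + (s * (b - x) + t * (x - a)) / (b - a) := by
    rw [ln]
    have : b - a ≠ 0 := by linarith
    field_simp
    ring
  rw [h1]
  have : 0 ≤ (s * (b - x) + t * (x - a)) / (b - a) :=
    div_nonneg (add_nonneg (mul_nonneg hs (by linarith)) (mul_nonneg ht (by linarith)))
      (by linarith)
  linarith

theorem bump_le {A B G : ℝ} (hG : 21 ≤ G) (hA : 2 * G ≤ A) (hB : 2 * G ≤ B)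
    (h : 3 * G ≤ A ∨ 3 * G ≤ B) : (2 * G + 2) ^ 2 < A * B := by
  rcases h with h | h <;> nlinarith

/-- real versions of the parameters -/
theorem G_eq (m c : ℕ) : (unitG m c : ℝ) = unitD m c + 1 := by unfold unitG; push_cast; ring

theorem D_pos (m c : ℕ) : (0 : ℝ) < unitD m c := by
  have : 0 < unitD m c := by unfold unitD; omega
  exact_mod_cast this

theorem G_ge (m c : ℕ) : (21 : ℝ) ≤ unitG m c := by exact_mod_cast unitG_ge m c

/-- height above the parabola -/
noncomputable def hh (m c i : ℕ) : ℝ := if IsM m i then (unitD m c : ℝ) ^ 2 * (2 * unitG m c + 2) ^ 2 else 0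

theorem hh_nonneg (m c i : ℕ) : 0 ≤ hh m c i := by unfold hh; split_ifs <;> positivity

theorem cX_real (m c i : ℕ) : (cX m c i : ℝ) = unitD m c * pos m c i := by
  unfold cX; push_cast; ring

theorem cY_real (m c i : ℕ) : (cY m c i : ℝ) = (unitD m c * pos m c i : ℝ) ^ 2 + hh m c i := by
  unfold cY hh bumpH
  split_ifs with h
  · push_cast [cX_real]; ring
  · push_cast [cX_real]; ring

/-- a chain vertex -/
noncomputable def cP (m c i : ℕ) : ℝ × ℝ :=
  ((unitD m c * pos m c i : ℝ), (unitD m c * pos m c i : ℝ) ^ 2 + hh m c i)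

theorem cP_lt {i j : ℕ} (h : i < j) : (cP m c i).1 < (cP m c j).1 := by
  have h1 : (pos m c i : ℝ) < pos m c j := by exact_mod_cast pos_lt h
  exact mul_lt_mul_of_pos_left h1 (D_pos m c)

/-- vertices between two vertices that are not excluded lie below their segment -/
theorem chord {u l v : ℕ} (hul : u < l) (hlv : l < v) (hex : ¬ Excl m u v) :
    (cP m c l).2 ≤ ln (cP m c u) (cP m c v) (cP m c l).1 := by
  have hD := D_pos m c
  have h1 := cP_lt (m := m) (c := c) hul
  have h2 := cP_lt (m := m) (c := c) hlv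
  refine le_trans ?_ (ln_par_ge (hh_nonneg m c u) (hh_nonneg m c v) h1.le h2.le (h1.trans h2))
  simp only [cP] at h1 h2 ⊢
  have e : (unitD m c * pos m c l - unitD m c * pos m c u : ℝ) *
      (unitD m c * pos m c v - unitD m c * pos m c l) =
      (unitD m c : ℝ) ^ 2 * (((pos m c l : ℝ) - pos m c u) * ((pos m c v : ℝ) - pos m c l)) := by
    ring
  rw [e]
  refine add_le_add le_rfl ?_
  by_cases hM : IsM m l
  · have g1 : (pos m c u : ℝ) + 2 * unitG m c ≤ pos m c l := by exact_mod_cast M_left hM hul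
    have g2 : (pos m c l : ℝ) + 2 * unitG m c ≤ pos m c v := by exact_mod_cast M_right hM hlv
    have g3 : (pos m c u : ℝ) + 3 * unitG m c ≤ pos m c l ∨
        (pos m c l : ℝ) + 3 * unitG m c ≤ pos m c v := by
      rcases M_both (c := c) hM hul hlv hex with h | h
      · left; exact_mod_cast h
      · right; exact_mod_cast h
    rw [hh, if_pos hM]
    refine mul_le_mul_of_nonneg_left (bump_le (G_ge m c) (by linarith) (by linarith) ?_).le
      (by positivity)
    rcases g3 with g3 | g3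
    · left; linarith
    · right; linarith
  · rw [hh, if_neg hM]
    have g1 : (pos m c u : ℝ) ≤ pos m c l := by exact_mod_cast pos_le hul.le
    have g2 : (pos m c l : ℝ) ≤ pos m c v := by exact_mod_cast pos_le hlv.le
    exact mul_nonneg (by positivity) (mul_nonneg (by linarith) (by linarith))

/-- excluded pairs are separated -/
theorem excl_chord {u v : ℕ} (huv : u < v) (hex : Excl m u v) : ∃ l, u < l ∧ l < v ∧
    ¬ Gap m c l ∧ ¬ Gap m c (l - 1) ∧ ln (cP m c u) (cP m c v) (cP m c l).1 < (cP m c l).2 := by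
  obtain ⟨l, hul, hlv, hM, h1, h2, hu, hv, hg, hg'⟩ := excl_bump (c := c) huv hex
  refine ⟨l, hul, hlv, hg, hg', ?_⟩
  have hD := D_pos m c
  have hG := G_ge m c
  have k1 := cP_lt (m := m) (c := c) (hul.trans hlv)
  have e1 : hh m c u = 0 := by rw [hh, if_neg hu]
  have e2 : hh m c v = 0 := by rw [hh, if_neg hv]
  have e3 : ln (cP m c u) (cP m c v) (cP m c l).1 = (unitD m c * pos m c l : ℝ) ^ 2 +
      (unitD m c : ℝ) ^ 2 * (((pos m c l : ℝ) - pos m c u) * ((pos m c v : ℝ) - pos m c l)) := by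
    rw [ln_affine (k := unitD m c * pos m c u + unitD m c * pos m c v)
      (b := - (unitD m c * pos m c u) * (unitD m c * pos m c v)) _ _ k1.ne]
    · simp only [cP]; ring
    · simp only [cP, e1]; ring
    · simp only [cP, e2]; ring
  rw [e3]
  simp only [cP, hh, if_pos hM]
  have g1 : (pos m c l : ℝ) ≤ pos m c u + 2 * unitG m c + 1 := by exact_mod_cast h1
  have g2 : (pos m c v : ℝ) ≤ pos m c l + 2 * unitG m c + 1 := by exact_mod_cast h2
  have g3 : (pos m c u : ℝ) ≤ pos m c l := by exact_mod_cast pos_le hul.le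
  have g4 : (pos m c l : ℝ) ≤ pos m c v := by exact_mod_cast pos_le hlv.le
  have g5 : ((pos m c l : ℝ) - pos m c u) * ((pos m c v : ℝ) - pos m c l) ≤
      (2 * unitG m c + 1) * (2 * unitG m c + 1) :=
    mul_le_mul (by linarith) (by linarith) (by linarith) (by linarith)
  have g6 : ((pos m c l : ℝ) - pos m c u) * ((pos m c v : ℝ) - pos m c l) <
      (2 * unitG m c + 2) ^ 2 := by nlinarith
  have g7 : (0 : ℝ) < (unitD m c : ℝ) ^ 2 := by positivity
  have := mul_lt_mul_of_pos_left g6 g7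
  linarith

/-! ### Tips -/

section tips

variable {i : ℕ} (hi : Gap m c i) (hτ : ValidT m (τ (tIdx m i)))

include hi hτ in
theorem aT_add_le : (aT m c (τ (tIdx m i)) : ℝ) + 11 * unitG m c ≤ pos m c i := by
  have h1 := tU_lt hτ
  have h2 := cU_gap hi
  rw [aT_eq, pos_eq]
  have h3 : unitG m c * (tU (τ (tIdx m i)) + 11) ≤ unitG m c * cU m i :=
    Nat.mul_le_mul_left _ (by omega)
  have h4 : ((unitG m c * (tU (τ (tIdx m i)) + 11) : ℕ) : ℝ) ≤ ((unitG m c * cU m i : ℕ) : ℝ) := by
    exact_mod_cast h3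
  push_cast at h4 ⊢
  have : (0 : ℝ) ≤ cE m i := by positivity
  linarith

theorem pos_le_real {l : ℕ} (hl : l ≤ 3 * m + 5 * c) :
    (pos m c l : ℝ) ≤ unitG m c * (unitD m c - 10) + 2 := by
  have h1 := cU_le hl
  have h2 := cE_le m l
  have h3 : cU m l + 10 ≤ unitD m c := by unfold unitD; omega
  rw [pos_eq]
  have h4 : ((cU m l : ℕ) : ℝ) + 10 ≤ unitD m c := by exact_mod_cast h3
  have h5 : ((cE m l : ℕ) : ℝ) ≤ 2 := by exact_mod_cast h2
  have h6 : (0 : ℝ) ≤ unitG m c := by positivity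
  push_cast
  nlinarith

include hi hτ in
theorem wX_real : (wX m c τ i : ℝ) = unitG m c * pos m c i - aT m c (τ (tIdx m i)) := by
  have h1 := aT_add_le hi hτ
  have hG := G_ge m c
  have h2 : aT m c (τ (tIdx m i)) ≤ unitG m c * pos m c i := by
    have h3 : (aT m c (τ (tIdx m i)) : ℝ) ≤ ((unitG m c * pos m c i : ℕ) : ℝ) := by
      push_cast
      have : (0 : ℝ) ≤ pos m c i := by positivity
      nlinarith
    exact_mod_cast h3
  rw [wX, Nat.cast_sub h2]
  push_cast
  ring

include hi hτ in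
theorem wX_gt : (unitD m c : ℝ) * (pos m c i + 1) < wX m c τ i := by
  rw [wX_real hi hτ, G_eq]
  have h1 := aT_add_le hi hτ
  have h2 := G_eq m c
  have h3 := D_pos m c
  nlinarith

include hi hτ in
theorem wY_real : (wY m c τ i : ℝ) = unitD m c * (aT m c (τ (tIdx m i)) + pos m c i + 1) *
    wX m c τ i - (unitD m c : ℝ) ^ 2 * aT m c (τ (tIdx m i)) * (pos m c i + 1) := by
  have h1 := wX_gt hi hτ
  have hD := D_pos m c
  have h2 : unitD m c ^ 2 * aT m c (τ (tIdx m i)) * (pos m c i + 1) ≤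
      unitD m c * (aT m c (τ (tIdx m i)) + pos m c i + 1) * wX m c τ i := by
    have h3 : ((unitD m c ^ 2 * aT m c (τ (tIdx m i)) * (pos m c i + 1) : ℕ) : ℝ) ≤
        ((unitD m c * (aT m c (τ (tIdx m i)) + pos m c i + 1) * wX m c τ i : ℕ) : ℝ) := by
      push_cast
      have h4 : (0 : ℝ) ≤ aT m c (τ (tIdx m i)) := by positivity
      have h5 : (0 : ℝ) ≤ pos m c i := by positivity
      have h6 : (0 : ℝ) ≤ wX m c τ i := by positivity
      have h7 := mul_le_mul_of_nonneg_left h1.le
        (show (0 : ℝ) ≤ unitD m c * aT m c (τ (tIdx m i)) by positivity)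
      have h8 : (0 : ℝ) ≤ unitD m c * (pos m c i + 1) * wX m c τ i := by positivity
      nlinarith
    exact_mod_cast h3
  rw [wY, Nat.cast_sub h2]
  push_cast
  ring

/-- the second equation of the tip -/
theorem wY_real' (hi : Gap m c i) (hτ : ValidT m (τ (tIdx m i))) :
    (wY m c τ i : ℝ) = unitD m c * (aT m c (τ (tIdx m i)) + unitG m c + pos m c i) *
    wX m c τ i - (unitD m c : ℝ) ^ 2 * (aT m c (τ (tIdx m i)) + unitG m c) * pos m c i := by
  rw [wY_real hi hτ, wX_real hi hτ, G_eq]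
  ring

/-- tip -/
noncomputable def wP (m c : ℕ) (τ : ℕ → ℕ) (i : ℕ) : ℝ × ℝ := ((wX m c τ i : ℝ), (wY m c τ i : ℝ))

theorem hh_gap (hi : Gap m c i) : hh m c i = 0 := by
  rw [hh, if_neg]
  unfold Gap at hi; unfold IsM; omega

theorem hh_gap' (hi : Gap m c i) : m > 0 → (i + 1) ≠ 0 → ((i + 1 - 3 * m) % 5 = 1 ∨
    (i + 1 - 3 * m) % 5 = 4) := by
  unfold Gap at hi; omega

theorem hh_gap_succ (hi : Gap m c i) : hh m c (i + 1) = 0 := by
  rw [hh, if_neg]
  unfold Gap at hi; unfold IsM; omega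

theorem pos_succ_real (hi : Gap m c i) : (pos m c (i + 1) : ℝ) = pos m c i + 1 := by
  rw [pos_gap hi]; push_cast; ring

theorem pos_succ2 (hi : Gap m c i) : (pos m c i : ℝ) + 2 * unitG m c - 1 ≤ pos m c (i + 2) := by
  have h1 : (cU m (i + 2) = cU m i + 2 ∧ cE m i ≤ cE m (i + 2) + 1) := by
    unfold Gap at hi
    have a1 := U_form m i
    have a2 := U_form m (i + 2)
    rcases a1 with a1 | a1 | a1 | a1 <;> rcases a2 with a2 | a2 | a2 | a2 <;> omega
  rw [pos_eq, pos_eq, h1.1]
  have h2 : ((cE m i : ℕ) : ℝ) ≤ cE m (i + 2) + 1 := by exact_mod_cast h1.2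
  push_cast
  linarith

include hi hτ in
theorem wP_gt : (cP m c (i + 1)).1 < (wP m c τ i).1 := by
  have := wX_gt hi hτ
  simp only [cP, wP, pos_succ_real hi]
  exact this

include hi hτ in
theorem wP_lt : (wP m c τ i).1 < (cP m c (i + 2)).1 := by
  have h1 := pos_succ2 hi
  have h2 := pos_le_real (m := m) (c := c) (l := i) (by unfold Gap at hi; omega)
  have h3 := D_pos m c
  have h4 := G_eq m c
  have h5 : (0 : ℝ) ≤ aT m c (τ (tIdx m i)) := by positivity
  simp only [cP, wP, wX_real hi hτ]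
  have h6 := mul_le_mul_of_nonneg_left h1 h3.le
  rw [h4] at h2 h6 ⊢
  nlinarith

include hi hτ in
/-- upper ray -/
theorem ray_upper (x : ℝ) : ln (cP m c (i + 1)) (wP m c τ i) x = x ^ 2 +
    (x - unitD m c * aT m c (τ (tIdx m i))) * (unitD m c * (pos m c i + 1) - x) := by
  rw [ln_affine (k := unitD m c * (aT m c (τ (tIdx m i)) + pos m c i + 1))
    (b := - ((unitD m c : ℝ) ^ 2 * aT m c (τ (tIdx m i)) * (pos m c i + 1))) _ _ (wP_gt hi hτ).ne]
  · ring
  · simp only [cP, hh_gap_succ hi, pos_succ_real hi]; ring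
  · simp only [wP, wY_real hi hτ]; ring

include hi hτ in
/-- lower ray -/
theorem ray_lower (x : ℝ) : ln (cP m c i) (wP m c τ i) x = x ^ 2 +
    (x - unitD m c * (aT m c (τ (tIdx m i)) + unitG m c)) * (unitD m c * pos m c i - x) := by
  rw [ln_affine (k := unitD m c * (aT m c (τ (tIdx m i)) + unitG m c + pos m c i))
    (b := - ((unitD m c : ℝ) ^ 2 * (aT m c (τ (tIdx m i)) + unitG m c) * pos m c i)) _ _
    ((cP_lt (Nat.lt_succ_self i)).trans (wP_gt hi hτ)).ne]
  · ring
  · simp only [cP, hh_gap hi]; ring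
  · simp only [wP, wY_real' hi hτ]; ring

include hi hτ in
theorem wP_below : (wP m c τ i).2 < ln (cP m c i) (cP m c (i + 1)) (wP m c τ i).1 := by
  have h1 := aT_add_le hi hτ
  have h2 := G_ge m c
  have h3 := wX_gt hi hτ
  have h4 := D_pos m c
  rw [ln_affine (k := unitD m c * (pos m c i + pos m c i + 1))
    (b := - ((unitD m c : ℝ) ^ 2 * pos m c i * (pos m c i + 1))) _ _ (cP_lt (Nat.lt_succ_self i)).ne]
  · simp only [wP, wY_real hi hτ]
    have h5 : 0 < unitD m c * ((pos m c i : ℝ) - aT m c (τ (tIdx m i))) *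
        (wX m c τ i - unitD m c * (pos m c i + 1)) :=
      mul_pos (mul_pos h4 (by linarith)) (by linarith)
    nlinarith
  · simp only [cP, hh_gap hi]; ring
  · simp only [cP, hh_gap_succ hi, pos_succ_real hi]; ring

include hi hτ in
theorem wP_below' : (wP m c τ i).2 < ln (cP m c (i + 1)) (cP m c (i + 2)) (wP m c τ i).1 := by
  have h1 := aT_add_le hi hτ
  have h2 := G_ge m c
  have h3 := wP_gt hi hτ
  have h4 := D_pos m c
  have h5 := wP_lt hi hτ
  refine lt_of_lt_of_le ?_ (ln_par_ge (hh_nonneg m c (i + 1)) (hh_nonneg m c (i + 2)) h3.le h5.le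
    (h3.trans h5))
  have h6 := ray_upper hi hτ (wP m c τ i).1
  rw [ln_right h3.ne] at h6
  rw [h6]
  have e1 : (cP m c (i + 1)).1 = unitD m c * (pos m c i + 1) := by
    simp only [cP, pos_succ_real hi]
  simp only [cP, pos_succ_real hi] at h3 h5 ⊢
  have h7 : 0 < (wP m c τ i).1 - unitD m c * (pos m c i + 1) := by linarith
  have h8 : (0 : ℝ) < unitD m c * pos m c (i + 2) - unitD m c * aT m c (τ (tIdx m i)) := by
    have : (wP m c τ i).1 < unitD m c * pos m c (i + 2) := h5
    have h9 : (unitD m c : ℝ) * aT m c (τ (tIdx m i)) ≤ unitD m c * (pos m c i + 1) :=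
      mul_le_mul_of_nonneg_left (by linarith) h4.le
    linarith
  have h9 := mul_pos h7 h8
  nlinarith

end tips

/-- The chain of the reduction. -/
noncomputable def chainOf (m c : ℕ) (τ : ℕ → ℕ) (hm : 0 < m)
    (hτ : ∀ j < 2 * c, ValidT m (τ j)) : Chain where
  r := 3 * m + 5 * c
  c := cP m c
  S := Gap m c
  w := wP m c τ
  two_le := by omega
  mono := fun i _ => cP_lt (Nat.lt_succ_self i)
  top := by
    intro i h0 hi
    have hD := D_pos m c
    have k1 := cP_lt (m := m) (c := c) h0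
    have k2 := cP_lt (m := m) (c := c) hi
    refine lt_of_lt_of_le ?_ (ln_par_ge (hh_nonneg m c 0) (hh_nonneg m c (3 * m + 5 * c)) k1.le
      k2.le (k1.trans k2))
    simp only [cP] at k1 k2 ⊢
    have e : (unitD m c * pos m c i - unitD m c * pos m c 0 : ℝ) *
        (unitD m c * pos m c (3 * m + 5 * c) - unitD m c * pos m c i) =
        (unitD m c : ℝ) ^ 2 * (((pos m c i : ℝ) - pos m c 0) *
          ((pos m c (3 * m + 5 * c) : ℝ) - pos m c i)) := by
      ring
    rw [e]
    refine add_lt_add_of_le_of_lt le_rfl ?_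
    by_cases hM : IsM m i
    · have hex : ¬ Excl m 0 (3 * m + 5 * c) := by unfold Excl; omega
      have g1 : (pos m c 0 : ℝ) + 2 * unitG m c ≤ pos m c i := by exact_mod_cast M_left hM h0
      have g2 : (pos m c i : ℝ) + 2 * unitG m c ≤ pos m c (3 * m + 5 * c) := by
        exact_mod_cast M_right hM hi
      have g3 : (pos m c 0 : ℝ) + 3 * unitG m c ≤ pos m c i ∨
          (pos m c i : ℝ) + 3 * unitG m c ≤ pos m c (3 * m + 5 * c) := by
        rcases M_both (c := c) hM h0 hi hex with h | h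
        · left; exact_mod_cast h
        · right; exact_mod_cast h
      rw [hh, if_pos hM]
      refine mul_lt_mul_of_pos_left (bump_le (G_ge m c) (by linarith) (by linarith) ?_)
        (by positivity)
      rcases g3 with g3 | g3
      · left; linarith
      · right; linarith
    · rw [hh, if_neg hM]
      have g1 : (pos m c 0 : ℝ) < pos m c i := by exact_mod_cast pos_lt h0
      have g2 : (pos m c i : ℝ) < pos m c (3 * m + 5 * c) := by exact_mod_cast pos_lt hi
      exact mul_pos (by positivity) (mul_pos (by linarith) (by linarith))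
  gap := by intro i hi; unfold Gap at hi; omega
  gap_next := by intro i hi; unfold Gap at hi ⊢; omega
  w_gt := fun i hi => wP_gt hi (hτ _ (by unfold Gap at hi; unfold tIdx; split_ifs <;> omega))
  w_lt := fun i hi => wP_lt hi (hτ _ (by unfold Gap at hi; unfold tIdx; split_ifs <;> omega))
  w_below := fun i hi => wP_below hi (hτ _ (by unfold Gap at hi; unfold tIdx; split_ifs <;> omega))
  w_below' := fun i hi =>
    wP_below' hi (hτ _ (by unfold Gap at hi; unfold tIdx; split_ifs <;> omega))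

end Pool.Agent.VDC
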