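import Pool.Agent.VDC.Chain

/-!
# The polygons of the reduction (definitions)

`m` main groups `p M q` (indices `3 i, 3 i + 1, 3 i + 2` of the chain), then `c` constraint groups
`p q M p' q'` (indices `3 m + 5 j + (0, …, 4)`), then one more vertex. The edges `p q`, `p' q'` of
the constraint groups carry spikes. All vertices but the `M` lie on a parabola.
-/

namespace Pool.Agent.VDC

/-- the length unit -/
def unitD (m c : ℕ) : ℕ := 6 * (m + c) + 20
def unitG (m c : ℕ) : ℕ := unitD m c + 1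

/-- offsets of the vertices in a constraint group -/
def off (G t : ℕ) : ℕ :=
  if t = 0 then 0 else if t = 1 then 1 else if t = 2 then 1 + 2 * G else
    if t = 3 then 1 + 4 * G else 2 + 4 * G

/-- Position of the `i`-th chain vertex (in units of `D`). -/
def pos (m c i : ℕ) : ℕ :=
  if i < 3 * m then 5 * unitG m c * (i / 3) + 2 * unitG m c * (i % 3)
  else 5 * unitG m c * m + 10 * unitG m c + 6 * unitG m c * ((i - 3 * m) / 5) +
    off (unitG m c) ((i - 3 * m) % 5)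

/-- The vertices above the parabola. -/
def IsM (m i : ℕ) : Prop := (i < 3 * m ∧ i % 3 = 1) ∨ (3 * m ≤ i ∧ (i - 3 * m) % 5 = 2)

instance (m i : ℕ) : Decidable (IsM m i) := inferInstanceAs (Decidable (_ ∨ _))

def bumpH (m c : ℕ) : ℕ := unitD m c ^ 2 * (2 * unitG m c + 2) ^ 2

def cX (m c i : ℕ) : ℕ := unitD m c * pos m c i
def cY (m c i : ℕ) : ℕ := cX m c i ^ 2 + if IsM m i then bumpH m c else 0

/-- the edges with spikes -/
def Gap (m c i : ℕ) : Prop :=
  3 * m ≤ i ∧ i < 3 * m + 5 * c ∧ ((i - 3 * m) % 5 = 0 ∨ (i - 3 * m) % 5 = 3)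

instance (m c i : ℕ) : Decidable (Gap m c i) := inferInstanceAs (Decidable (_ ∧ _))

/-- number of the target of the spike at the edge `i` -/
def tIdx (m i : ℕ) : ℕ := 2 * ((i - 3 * m) / 5) + if (i - 3 * m) % 5 = 0 then 0 else 1

/-- Position of the left end of the target `t`: the targets are `3 i` (the literal `x_i`),
`3 i + 1` (the literal not `x_i`), `3 i + 2` (not `x_i` or `x_{i+1}`). -/
def aT (m c t : ℕ) : ℕ :=
  5 * unitG m c * (t / 3) + if t % 3 = 0 then 0 else if t % 3 = 1 then 3 * unitG m c else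
    4 * unitG m c

def wX (m c : ℕ) (τ : ℕ → ℕ) (i : ℕ) : ℕ :=
  unitG m c * pos m c i - aT m c (τ (tIdx m i))
def wY (m c : ℕ) (τ : ℕ → ℕ) (i : ℕ) : ℕ :=
  unitD m c * (aT m c (τ (tIdx m i)) + pos m c i + 1) * wX m c τ i -
    unitD m c ^ 2 * aT m c (τ (tIdx m i)) * (pos m c i + 1)

/-- the vertex number `a` of the polygon: chain index, and whether it is a tip -/
def kap (m a : ℕ) : ℕ × Bool :=
  if a < 3 * m then (a, false) else
    (3 * m + 5 * ((a - 3 * m) / 7) +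
      (if (a - 3 * m) % 7 = 0 then 0 else if (a - 3 * m) % 7 = 1 then 0 else
        if (a - 3 * m) % 7 = 2 then 1 else if (a - 3 * m) % 7 = 3 then 2 else
          if (a - 3 * m) % 7 = 4 then 3 else if (a - 3 * m) % 7 = 5 then 3 else 4),
      decide ((a - 3 * m) % 7 = 1 ∨ (a - 3 * m) % 7 = 5))

def vX (m c : ℕ) (τ : ℕ → ℕ) (a : ℕ) : ℕ :=
  if (kap m a).2 then wX m c τ (kap m a).1 else cX m c (kap m a).1
def vY (m c : ℕ) (τ : ℕ → ℕ) (a : ℕ) : ℕ :=
  if (kap m a).2 then wY m c τ (kap m a).1 else cY m c (kap m a).1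

/-- the vertices of the polygon -/
def vert (m c : ℕ) (τ : ℕ → ℕ) (a : Fin (3 * m + 7 * c + 1)) : ℚ × ℚ :=
  ((vX m c τ a : ℚ), (vY m c τ a : ℚ))

/-- The target `t` is meaningful. -/
def ValidT (m t : ℕ) : Prop := t / 3 < m ∧ (t % 3 = 2 → t / 3 + 1 < m)

/-- The chain vertices seen by a spike with the target `t` (besides the ends of its edge). -/
def Tgt (t l : ℕ) : Prop :=
  (t % 3 = 0 ∧ l = 3 * (t / 3)) ∨ (t % 3 = 1 ∧ l = 3 * (t / 3) + 2) ∨
    (t % 3 = 2 ∧ (l = 3 * (t / 3) + 2 ∨ l = 3 * (t / 3) + 3))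

/-- The pairs of chain vertices which do not see each other. -/
def Excl (m i l : ℕ) : Prop :=
  (i < 3 * m ∧ l < 3 * m ∧ i / 3 = l / 3 ∧ ((i % 3 = 0 ∧ l % 3 = 2) ∨ (i % 3 = 2 ∧ l % 3 = 0))) ∨
  (3 * m ≤ i ∧ 3 * m ≤ l ∧ (i - 3 * m) / 5 = (l - 3 * m) / 5 ∧
    (((i - 3 * m) % 5 ≤ 1 ∧ 3 ≤ (l - 3 * m) % 5) ∨ (3 ≤ (i - 3 * m) % 5 ∧ (l - 3 * m) % 5 ≤ 1)))

/-- The constraint given by the target `t`. -/
def SatT (x : ℕ → Bool) (t : ℕ) : Prop :=
  (t % 3 = 0 ∧ x (t / 3) = true) ∨ (t % 3 = 1 ∧ x (t / 3) = false) ∨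
    (t % 3 = 2 ∧ (x (t / 3) = false ∨ x (t / 3 + 1) = true))

end Pool.Agent.VDC
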