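import Pool.Agent.VDC.Chain

/-!
# The region bounded by the curve of a chain is its body
-/

namespace Pool.Agent.VDC

open Set

namespace Rg

/-- affine functions -/
def Aff (f : ℝ → ℝ) : Prop := ∃ a m : ℝ, ∀ x, f x = a + m * x

theorem aff_ln (p q : ℝ × ℝ) : Aff (ln p q) :=
  ⟨p.2 - (q.2 - p.2) / (q.1 - p.1) * p.1, (q.2 - p.2) / (q.1 - p.1), fun x => by
    unfold ln; ring⟩

theorem Aff.cont {f : ℝ → ℝ} (h : Aff f) : Continuous f := by
  obtain ⟨a, m, h⟩ := h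
  have h2 : f = fun x => a + m * x := funext h
  rw [h2]
  fun_prop

theorem cont_ln (p q : ℝ × ℝ) : Continuous (ln p q) := (aff_ln p q).cont

theorem ln_left (p q : ℝ × ℝ) : ln p q p.1 = p.2 := by
  unfold ln; simp

theorem ln_right {p q : ℝ × ℝ} (h : p.1 < q.1) : ln p q q.1 = q.2 := by
  unfold ln
  have : q.1 - p.1 ≠ 0 := (sub_pos.2 h).ne'
  field_simp
  ring

/-- comparison to the right of a common point -/
theorem lt_right {f g : ℝ → ℝ} (hf : Aff f) (hg : Aff g) {x0 x1 x : ℝ} (h0 : f x0 = g x0)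
    (h1 : f x1 < g x1) (h : x0 < x1) (hx : x0 < x) : f x < g x := by
  obtain ⟨a, m, hf⟩ := hf
  obtain ⟨b, n, hg⟩ := hg
  rw [hf, hg] at h0 h1 ⊢
  have hmn : 0 < n - m := by
    by_contra hc
    push Not at hc
    nlinarith
  nlinarith [mul_pos hmn (sub_pos.2 hx)]

theorem gt_left {f g : ℝ → ℝ} (hf : Aff f) (hg : Aff g) {x0 x1 x : ℝ} (h0 : f x0 = g x0)
    (h1 : f x1 < g x1) (h : x0 < x1) (hx : x < x0) : g x < f x := by
  obtain ⟨a, m, hf⟩ := hf
  obtain ⟨b, n, hg⟩ := hg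
  rw [hf, hg] at h0 h1
  rw [hf, hg]
  have hmn : 0 < n - m := by
    by_contra hc
    push Not at hc
    nlinarith
  nlinarith [mul_pos hmn (sub_pos.2 hx)]

theorem lt_left {f g : ℝ → ℝ} (hf : Aff f) (hg : Aff g) {x0 x1 x : ℝ} (h0 : f x0 = g x0)
    (h1 : f x1 < g x1) (h : x1 < x0) (hx : x < x0) : f x < g x := by
  obtain ⟨a, m, hf⟩ := hf
  obtain ⟨b, n, hg⟩ := hg
  rw [hf, hg] at h0 h1 ⊢
  have hmn : n - m < 0 := by
    by_contra hc
    push Not at hc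
    nlinarith
  nlinarith [mul_pos_of_neg_of_neg hmn (sub_neg.2 hx)]

theorem gt_right {f g : ℝ → ℝ} (hf : Aff f) (hg : Aff g) {x0 x1 x : ℝ} (h0 : f x0 = g x0)
    (h1 : f x1 < g x1) (h : x1 < x0) (hx : x0 < x) : g x < f x := by
  obtain ⟨a, m, hf⟩ := hf
  obtain ⟨b, n, hg⟩ := hg
  rw [hf, hg] at h0 h1
  rw [hf, hg]
  have hmn : n - m < 0 := by
    by_contra hc
    push Not at hc
    nlinarith
  nlinarith [mul_pos (neg_pos.2 hmn) (sub_pos.2 hx)]

theorem le_between {f g : ℝ → ℝ} (hf : Aff f) (hg : Aff g) {a b x : ℝ} (ha : f a ≤ g a)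
    (hb : f b ≤ g b) (h1 : a ≤ x) (h2 : x ≤ b) : f x ≤ g x := by
  obtain ⟨a', m, hf⟩ := hf
  obtain ⟨b', n, hg⟩ := hg
  rw [hf, hg] at ha hb ⊢
  rcases eq_or_lt_of_le (h1.trans h2) with h | h
  · have : x = a := le_antisymm (h ▸ h2) h1
    rw [this]; exact ha
  · rcases le_total 0 (n - m) with hc | hc
    · nlinarith [mul_nonneg hc (sub_nonneg.2 h1)]
    · nlinarith [mul_nonneg (neg_nonneg.2 hc) (sub_nonneg.2 h2)]

theorem mem_seg_iff {p q z : ℝ × ℝ} (h : p.1 < q.1) :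
    z ∈ segment ℝ p q ↔ p.1 ≤ z.1 ∧ z.1 ≤ q.1 ∧ z.2 = ln p q z.1 := by
  have hpos : 0 < q.1 - p.1 := sub_pos.2 h
  constructor
  · rintro ⟨a, b, ha, hb, hab, rfl⟩
    have ha' : a = 1 - b := by linarith
    subst ha'
    simp only [Prod.fst_add, Prod.smul_fst, smul_eq_mul, Prod.snd_add, Prod.smul_snd]
    refine ⟨by nlinarith, by nlinarith, ?_⟩
    unfold ln
    field_simp
    ring
  · rintro ⟨h1, h2, h3⟩
    refine ⟨(q.1 - z.1) / (q.1 - p.1), (z.1 - p.1) / (q.1 - p.1), div_nonneg (by linarith) hpos.le,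
      div_nonneg (by linarith) hpos.le, by field_simp; ring, ?_⟩
    ext
    · simp only [Prod.fst_add, Prod.smul_fst, smul_eq_mul]
      field_simp
      ring
    · simp only [Prod.snd_add, Prod.smul_snd, smul_eq_mul]
      rw [h3]
      unfold ln
      field_simp
      ring

end Rg

open Rg

namespace Chain

variable (Γ : Chain)

theorem rg_X_le {i j : ℕ} (hij : i ≤ j) (hj : j ≤ Γ.r) : (Γ.c i).1 ≤ (Γ.c j).1 := by
  induction j, hij using Nat.le_induction with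
  | base => exact le_rfl
  | succ n hn ih => exact (ih (by omega)).trans (Γ.mono n (by omega)).le

theorem rg_X_lt {i j : ℕ} (hij : i < j) (hj : j ≤ Γ.r) : (Γ.c i).1 < (Γ.c j).1 :=
  lt_of_lt_of_le (Γ.mono i (by omega)) (Γ.rg_X_le (by omega) hj)

theorem rg_X0r : (Γ.c 0).1 < (Γ.c Γ.r).1 := Γ.rg_X_lt (by have := Γ.two_le; omega) le_rfl

theorem rg_top_le {i : ℕ} (hi : i ≤ Γ.r) : (Γ.c i).2 ≤ ln (Γ.c 0) (Γ.c Γ.r) (Γ.c i).1 := by
  rcases Nat.eq_zero_or_pos i with rfl | h0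
  · rw [ln_left]
  · rcases eq_or_lt_of_le hi with rfl | h1
    · rw [ln_right Γ.rg_X0r]
    · exact (Γ.top i h0 h1).le

theorem rg_g_le {i : ℕ} (hi : i < Γ.r) {x : ℝ} (h1 : (Γ.c i).1 ≤ x) (h2 : x ≤ (Γ.c (i + 1)).1) :
    ln (Γ.c i) (Γ.c (i + 1)) x ≤ ln (Γ.c 0) (Γ.c Γ.r) x := by
  refine le_between (aff_ln _ _) (aff_ln _ _) ?_ ?_ h1 h2
  · rw [ln_left]; exact Γ.rg_top_le hi.le
  · rw [ln_right (Γ.mono i hi)]; exact Γ.rg_top_le hi

theorem rg_locate {x : ℝ} (h1 : (Γ.c 0).1 ≤ x) (h2 : x ≤ (Γ.c Γ.r).1) :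
    ∃ i < Γ.r, (Γ.c i).1 ≤ x ∧ x ≤ (Γ.c (i + 1)).1 := by
  have key : ∀ n ≤ Γ.r, 0 < n → x ≤ (Γ.c n).1 → ∃ i < n, (Γ.c i).1 ≤ x ∧ x ≤ (Γ.c (i + 1)).1 := by
    intro n
    induction n with
    | zero => intro _ h; omega
    | succ n ih =>
      intro hn _ hx
      rcases le_total (Γ.c n).1 x with h | h
      · exact ⟨n, by omega, h, hx⟩
      · rcases Nat.eq_zero_or_pos n with rfl | h0
        · exact ⟨0, by omega, h1, hx⟩
        · obtain ⟨i, hi, h3⟩ := ih (by omega) h0 h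
          exact ⟨i, by omega, h3⟩
  exact key Γ.r le_rfl (by have := Γ.two_le; omega) h2

/-! ### facts on a spike -/

section spike

variable {Γ} {i : ℕ} (hS : Γ.S i)
include hS

theorem rg_i_lt : i < Γ.r := by have := Γ.gap i hS; omega
theorem rg_i1_lt : i + 1 < Γ.r := by have := Γ.gap i hS; omega

theorem rg_ciw : (Γ.c i).1 < (Γ.w i).1 := (Γ.mono i (rg_i_lt hS)).trans (Γ.w_gt i hS)

theorem rg_A_lt_g {x : ℝ} (hx : (Γ.c i).1 < x) :
    ln (Γ.c i) (Γ.w i) x < ln (Γ.c i) (Γ.c (i + 1)) x := by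
  refine lt_right (aff_ln _ _) (aff_ln _ _) (x0 := (Γ.c i).1) (x1 := (Γ.w i).1) ?_ ?_
    (rg_ciw hS) hx
  · rw [ln_left, ln_left]
  · rw [ln_right (rg_ciw hS)]; exact Γ.w_below i hS

theorem rg_g_lt_A {x : ℝ} (hx : x < (Γ.c i).1) :
    ln (Γ.c i) (Γ.c (i + 1)) x < ln (Γ.c i) (Γ.w i) x := by
  refine gt_left (aff_ln _ _) (aff_ln _ _) (x0 := (Γ.c i).1) (x1 := (Γ.w i).1) ?_ ?_
    (rg_ciw hS) hx
  · rw [ln_left, ln_left]
  · rw [ln_right (rg_ciw hS)]; exact Γ.w_below i hS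

theorem rg_B_lt_g {x : ℝ} (hx : (Γ.c (i + 1)).1 < x) :
    ln (Γ.c (i + 1)) (Γ.w i) x < ln (Γ.c i) (Γ.c (i + 1)) x := by
  refine lt_right (aff_ln _ _) (aff_ln _ _) (x0 := (Γ.c (i + 1)).1) (x1 := (Γ.w i).1) ?_ ?_
    (Γ.w_gt i hS) hx
  · rw [ln_left, ln_right (Γ.mono i (rg_i_lt hS))]
  · rw [ln_right (Γ.w_gt i hS)]; exact Γ.w_below i hS

theorem rg_g_lt_B {x : ℝ} (hx : x < (Γ.c (i + 1)).1) :
    ln (Γ.c i) (Γ.c (i + 1)) x < ln (Γ.c (i + 1)) (Γ.w i) x := by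
  refine gt_left (aff_ln _ _) (aff_ln _ _) (x0 := (Γ.c (i + 1)).1) (x1 := (Γ.w i).1) ?_ ?_
    (Γ.w_gt i hS) hx
  · rw [ln_left, ln_right (Γ.mono i (rg_i_lt hS))]
  · rw [ln_right (Γ.w_gt i hS)]; exact Γ.w_below i hS

theorem rg_g_le_B {x : ℝ} (hx : x ≤ (Γ.c (i + 1)).1) :
    ln (Γ.c i) (Γ.c (i + 1)) x ≤ ln (Γ.c (i + 1)) (Γ.w i) x := by
  rcases eq_or_lt_of_le hx with rfl | h
  · rw [ln_left, ln_right (Γ.mono i (rg_i_lt hS))]
  · exact (rg_g_lt_B hS h).le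

theorem rg_A_lt_B {x : ℝ} (hx : x < (Γ.w i).1) :
    ln (Γ.c i) (Γ.w i) x < ln (Γ.c (i + 1)) (Γ.w i) x := by
  refine lt_left (aff_ln _ _) (aff_ln _ _) (x0 := (Γ.w i).1) (x1 := (Γ.c (i + 1)).1) ?_ ?_
    (Γ.w_gt i hS) hx
  · rw [ln_right (rg_ciw hS), ln_right (Γ.w_gt i hS)]
  · rw [ln_left]
    have := rg_A_lt_g hS (Γ.mono i (rg_i_lt hS))
    rwa [ln_right (Γ.mono i (rg_i_lt hS))] at this

theorem rg_B_lt_A {x : ℝ} (hx : (Γ.w i).1 < x) :
    ln (Γ.c (i + 1)) (Γ.w i) x < ln (Γ.c i) (Γ.w i) x := by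
  refine gt_right (aff_ln _ _) (aff_ln _ _) (x0 := (Γ.w i).1) (x1 := (Γ.c (i + 1)).1) ?_ ?_
    (Γ.w_gt i hS) hx
  · rw [ln_right (rg_ciw hS), ln_right (Γ.w_gt i hS)]
  · rw [ln_left]
    have := rg_A_lt_g hS (Γ.mono i (rg_i_lt hS))
    rwa [ln_right (Γ.mono i (rg_i_lt hS))] at this

theorem rg_B_lt_g' {x : ℝ} (hx : (Γ.c (i + 1)).1 < x) :
    ln (Γ.c (i + 1)) (Γ.w i) x < ln (Γ.c (i + 1)) (Γ.c (i + 2)) x := by
  refine lt_right (aff_ln _ _) (aff_ln _ _) (x0 := (Γ.c (i + 1)).1) (x1 := (Γ.w i).1) ?_ ?_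
    (Γ.w_gt i hS) hx
  · rw [ln_left, ln_left]
  · rw [ln_right (Γ.w_gt i hS)]; exact Γ.w_below' i hS

theorem rg_spike_x {z : ℝ × ℝ} (hz : z ∈ Γ.spike i) : (Γ.c i).1 ≤ z.1 ∧ z.1 ≤ (Γ.w i).1 := by
  obtain ⟨h1, h2, h3⟩ := hz
  constructor
  · by_contra h
    push Not at h
    linarith [rg_g_lt_A hS h]
  · by_contra h
    push Not at h
    linarith [rg_B_lt_A hS h]

theorem rg_spike_top {z : ℝ × ℝ} (hz : z ∈ Γ.spike i) : z.2 ≤ ln (Γ.c 0) (Γ.c Γ.r) z.1 := by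
  obtain ⟨hx1, hx2⟩ := rg_spike_x hS hz
  obtain ⟨h1, h2, h3⟩ := hz
  rcases le_total z.1 (Γ.c (i + 1)).1 with h | h
  · exact h2.trans (Γ.rg_g_le (rg_i_lt hS) hx1 h)
  · rcases eq_or_lt_of_le h with h' | h'
    · exact h2.trans (Γ.rg_g_le (rg_i_lt hS) hx1 h'.ge)
    · refine h3.trans ((rg_B_lt_g' hS h').le.trans (Γ.rg_g_le (rg_i1_lt hS) h ?_))
      exact hx2.trans (Γ.w_lt i hS).le

end spike

/-! ### the curve is contained in the body -/

theorem rg_main_x {z : ℝ × ℝ} (hz : z ∈ Γ.main) : (Γ.c 0).1 ≤ z.1 ∧ z.1 ≤ (Γ.c Γ.r).1 := by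
  obtain ⟨i, hi, h1, h2, -, -⟩ := hz
  exact ⟨(Γ.rg_X_le (Nat.zero_le i) hi.le).trans h1, h2.trans (Γ.rg_X_le (by omega) le_rfl)⟩

theorem rg_body_x {z : ℝ × ℝ} (hz : z ∈ Γ.body) : (Γ.c 0).1 ≤ z.1 ∧ z.1 ≤ (Γ.c Γ.r).1 := by
  rcases hz with hz | ⟨i, hS, hz⟩
  · exact Γ.rg_main_x hz
  · obtain ⟨h1, h2⟩ := rg_spike_x hS hz
    exact ⟨(Γ.rg_X_le (Nat.zero_le i) (rg_i_lt hS).le).trans h1,
      h2.trans ((Γ.w_lt i hS).le.trans (Γ.rg_X_le (Γ.gap i hS) le_rfl))⟩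

theorem rg_body_top {z : ℝ × ℝ} (hz : z ∈ Γ.body) : z.2 ≤ ln (Γ.c 0) (Γ.c Γ.r) z.1 := by
  rcases hz with hz | ⟨i, hS, hz⟩
  · obtain ⟨i, hi, -, -, -, h⟩ := hz
    exact h
  · exact rg_spike_top hS hz

theorem rg_curve_subset : Γ.curve ⊆ Γ.body := by
  rintro z ((hz | ⟨i, hi, hS, hz⟩) | ⟨i, hS, hz | hz⟩)
  · rw [segment_symm, mem_seg_iff Γ.rg_X0r] at hz
    obtain ⟨i, hi, h1, h2⟩ := Γ.rg_locate hz.1 hz.2.1
    exact Or.inl ⟨i, hi, h1, h2, by rw [hz.2.2]; exact Γ.rg_g_le hi h1 h2, hz.2.2.le⟩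
  · rw [mem_seg_iff (Γ.mono i hi)] at hz
    exact Or.inl ⟨i, hi, hz.1, hz.2.1, hz.2.2.ge, by
      rw [hz.2.2]; exact Γ.rg_g_le hi hz.1 hz.2.1⟩
  · rw [mem_seg_iff (rg_ciw hS)] at hz
    refine Or.inr ⟨i, hS, hz.2.2.ge, ?_, ?_⟩
    · rw [hz.2.2]
      rcases eq_or_lt_of_le hz.1 with h | h
      · rw [← h, ln_left, ln_left]
      · exact (rg_A_lt_g hS h).le
    · rw [hz.2.2]
      rcases eq_or_lt_of_le hz.2.1 with h | h
      · rw [h, ln_right (rg_ciw hS), ln_right (Γ.w_gt i hS)]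
      · exact (rg_A_lt_B hS h).le
  · rw [segment_symm, mem_seg_iff (Γ.w_gt i hS)] at hz
    refine Or.inr ⟨i, hS, ?_, ?_, hz.2.2.le⟩
    · rw [hz.2.2]
      rcases eq_or_lt_of_le hz.2.1 with h | h
      · rw [h, ln_right (rg_ciw hS), ln_right (Γ.w_gt i hS)]
      · exact (rg_A_lt_B hS h).le
    · rw [hz.2.2]
      rcases eq_or_lt_of_le hz.1 with h | h
      · rw [← h, ln_left, ln_right (Γ.mono i (rg_i_lt hS))]
      · exact (rg_B_lt_g hS h).le

theorem rg_c_mem {i : ℕ} (hi : i ≤ Γ.r) : Γ.c i ∈ Γ.curve := by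
  rcases eq_or_lt_of_le hi with rfl | h
  · exact Or.inl (Or.inl (left_mem_segment ℝ _ _))
  · by_cases hS : Γ.S i
    · exact Or.inr ⟨i, hS, Or.inl (left_mem_segment ℝ _ _)⟩
    · exact Or.inl (Or.inr ⟨i, h, hS, left_mem_segment ℝ _ _⟩)

/-! ### points of the body off the curve are interior -/

theorem rg_int_c {z : ℝ × ℝ} {i : ℕ} (hi0 : 0 < i) (hi : i < Γ.r) (hx : z.1 = (Γ.c i).1)
    (hy : (Γ.c i).2 < z.2) (hT : z.2 < ln (Γ.c 0) (Γ.c Γ.r) z.1) : z ∈ interior Γ.body := by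
  obtain ⟨j, rfl⟩ : ∃ j, i = j + 1 := ⟨i - 1, by omega⟩
  rw [mem_interior]
  refine ⟨{z | (Γ.c j).1 < z.1 ∧ z.1 < (Γ.c (j + 1 + 1)).1 ∧ z.2 < ln (Γ.c 0) (Γ.c Γ.r) z.1 ∧
    ln (Γ.c j) (Γ.c (j + 1)) z.1 < z.2 ∧ ln (Γ.c (j + 1)) (Γ.c (j + 1 + 1)) z.1 < z.2}, ?_, ?_, ?_⟩
  · rintro u ⟨h1, h2, h3, h4, h5⟩
    rcases le_total u.1 (Γ.c (j + 1)).1 with h | h
    · exact Or.inl ⟨j, by omega, h1.le, h, h4.le, h3.le⟩
    · exact Or.inl ⟨j + 1, hi, h, h2.le, h5.le, h3.le⟩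
  · have c1 := cont_ln (Γ.c 0) (Γ.c Γ.r)
    have c2 := cont_ln (Γ.c j) (Γ.c (j + 1))
    have c3 := cont_ln (Γ.c (j + 1)) (Γ.c (j + 1 + 1))
    refine (isOpen_lt continuous_const continuous_fst).inter
      ((isOpen_lt continuous_fst continuous_const).inter
      ((isOpen_lt continuous_snd (c1.comp continuous_fst)).inter
      ((isOpen_lt (c2.comp continuous_fst) continuous_snd).inter
      (isOpen_lt (c3.comp continuous_fst) continuous_snd))))
  · refine ⟨?_, ?_, hT, ?_, ?_⟩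
    · rw [hx]; exact Γ.mono j (by omega)
    · rw [hx]; exact Γ.mono (j + 1) hi
    · rw [hx, ln_right (Γ.mono j (by omega))]; exact hy
    · rw [hx, ln_left]; exact hy

theorem rg_int_main {z : ℝ × ℝ} (hz : z ∈ Γ.main) (hc : z ∉ Γ.curve) : z ∈ interior Γ.body := by
  have hx := Γ.rg_main_x hz
  obtain ⟨i, hi, h1, h2, h3, h4⟩ := hz
  have hT : z.2 < ln (Γ.c 0) (Γ.c Γ.r) z.1 := by
    refine lt_of_le_of_ne h4 fun h => hc (Or.inl (Or.inl ?_))
    rw [segment_symm, mem_seg_iff Γ.rg_X0r]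
    exact ⟨hx.1, hx.2, h⟩
  have hr := Γ.two_le
  rcases eq_or_lt_of_le h1 with h1' | h1'
  · -- left end
    have hy : (Γ.c i).2 < z.2 := by
      rw [← h1', ln_left] at h3
      refine lt_of_le_of_ne h3 fun h => hc ?_
      have : z = Γ.c i := Prod.ext h1'.symm h.symm
      rw [this]; exact Γ.rg_c_mem hi.le
    rcases Nat.eq_zero_or_pos i with rfl | h0
    · rw [← h1', ln_left] at hT
      exact absurd hy hT.not_gt
    · exact Γ.rg_int_c h0 hi h1'.symm hy hT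
  · rcases eq_or_lt_of_le h2 with h2' | h2'
    · have hy : (Γ.c (i + 1)).2 < z.2 := by
        rw [h2', ln_right (Γ.mono i hi)] at h3
        refine lt_of_le_of_ne h3 fun h => hc ?_
        have : z = Γ.c (i + 1) := Prod.ext h2' h.symm
        rw [this]; exact Γ.rg_c_mem hi
      rcases eq_or_lt_of_le (Nat.succ_le_of_lt hi) with h0 | h0
      · have h0' : i + 1 = Γ.r := h0
        rw [h2', h0', ln_right Γ.rg_X0r] at hT
        rw [h0'] at hy
        exact absurd hy hT.not_gt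
      · exact Γ.rg_int_c (Nat.succ_pos i) h0 h2' hy hT
    · rcases eq_or_lt_of_le h3 with h3' | h3'
      · have hS : Γ.S i := by
          by_contra hS
          refine hc (Or.inl (Or.inr ⟨i, hi, hS, ?_⟩))
          rw [mem_seg_iff (Γ.mono i hi)]
          exact ⟨h1, h2, h3'.symm⟩
        rw [mem_interior]
        refine ⟨{z | (Γ.c i).1 < z.1 ∧ z.1 < (Γ.c (i + 1)).1 ∧ z.2 < ln (Γ.c 0) (Γ.c Γ.r) z.1 ∧
          ln (Γ.c i) (Γ.w i) z.1 < z.2}, ?_, ?_, ?_⟩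
        · rintro u ⟨u1, u2, u3, u4⟩
          rcases le_total (ln (Γ.c i) (Γ.c (i + 1)) u.1) u.2 with h | h
          · exact Or.inl ⟨i, hi, u1.le, u2.le, h, u3.le⟩
          · exact Or.inr ⟨i, hS, u4.le, h, h.trans (rg_g_le_B hS u2.le)⟩
        · exact (isOpen_lt continuous_const continuous_fst).inter
            ((isOpen_lt continuous_fst continuous_const).inter
            ((isOpen_lt continuous_snd ((cont_ln _ _).comp continuous_fst)).inter
            (isOpen_lt ((cont_ln _ _).comp continuous_fst) continuous_snd)))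
        · exact ⟨h1', h2', hT, by rw [← h3']; exact rg_A_lt_g hS h1'⟩
      · rw [mem_interior]
        refine ⟨{z | (Γ.c i).1 < z.1 ∧ z.1 < (Γ.c (i + 1)).1 ∧ z.2 < ln (Γ.c 0) (Γ.c Γ.r) z.1 ∧
          ln (Γ.c i) (Γ.c (i + 1)) z.1 < z.2}, ?_, ?_, ⟨h1', h2', hT, h3'⟩⟩
        · rintro u ⟨u1, u2, u3, u4⟩
          exact Or.inl ⟨i, hi, u1.le, u2.le, u4.le, u3.le⟩
        · exact (isOpen_lt continuous_const continuous_fst).inter
            ((isOpen_lt continuous_fst continuous_const).inter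
            ((isOpen_lt continuous_snd ((cont_ln _ _).comp continuous_fst)).inter
            (isOpen_lt ((cont_ln _ _).comp continuous_fst) continuous_snd)))

theorem rg_int_body {z : ℝ × ℝ} (hz : z ∈ Γ.body) (hc : z ∉ Γ.curve) : z ∈ interior Γ.body := by
  rcases hz with hz | ⟨i, hS, hz⟩
  · exact Γ.rg_int_main hz hc
  · obtain ⟨hx1, hx2⟩ := rg_spike_x hS hz
    obtain ⟨h1, h2, h3⟩ := hz
    have k1 : ln (Γ.c i) (Γ.w i) z.1 < z.2 := by
      refine lt_of_le_of_ne h1 fun h => hc (Or.inr ⟨i, hS, Or.inl ?_⟩)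
      rw [mem_seg_iff (rg_ciw hS)]
      exact ⟨hx1, hx2, h.symm⟩
    have k3 : z.2 < ln (Γ.c (i + 1)) (Γ.w i) z.1 := by
      refine lt_of_le_of_ne h3 fun h => hc (Or.inr ⟨i, hS, Or.inr ?_⟩)
      rw [segment_symm, mem_seg_iff (Γ.w_gt i hS)]
      refine ⟨?_, hx2, h⟩
      by_contra hx
      push Not at hx
      linarith [rg_g_lt_B hS hx]
    rcases eq_or_lt_of_le h2 with h2' | h2'
    · refine Γ.rg_int_main ⟨i, rg_i_lt hS, hx1, ?_, h2'.ge, ?_⟩ hc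
      · by_contra hx
        push Not at hx
        linarith [rg_B_lt_g hS hx]
      · exact rg_spike_top hS ⟨h1, h2, h3⟩
    · rw [mem_interior]
      refine ⟨{z | ln (Γ.c i) (Γ.w i) z.1 < z.2 ∧ z.2 < ln (Γ.c i) (Γ.c (i + 1)) z.1 ∧
        z.2 < ln (Γ.c (i + 1)) (Γ.w i) z.1}, ?_, ?_, ⟨k1, h2', k3⟩⟩
      · rintro u ⟨u1, u2, u3⟩
        exact Or.inr ⟨i, hS, u1.le, u2.le, u3.le⟩
      · exact (isOpen_lt ((cont_ln _ _).comp continuous_fst) continuous_snd).inter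
          ((isOpen_lt continuous_snd ((cont_ln _ _).comp continuous_fst)).inter
          (isOpen_lt continuous_snd ((cont_ln _ _).comp continuous_fst)))

/-! ### the body is closed and bounded -/

theorem rg_body_eq : Γ.body =
    (⋃ i ∈ {i | i < Γ.r}, {z : ℝ × ℝ | (Γ.c i).1 ≤ z.1 ∧ z.1 ≤ (Γ.c (i + 1)).1 ∧
      ln (Γ.c i) (Γ.c (i + 1)) z.1 ≤ z.2 ∧ z.2 ≤ ln (Γ.c 0) (Γ.c Γ.r) z.1}) ∪
    ⋃ i ∈ {i | Γ.S i}, Γ.spike i := by
  ext z
  simp only [body, main, mem_union, mem_ofPred_eq, mem_iUnion, exists_prop]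

theorem rg_finS : {i | Γ.S i}.Finite :=
  (Set.finite_lt_nat Γ.r).subset fun _ hi => rg_i_lt hi

theorem rg_closed : IsClosed Γ.body := by
  rw [rg_body_eq]
  refine IsClosed.union ?_ ?_
  · refine (Set.finite_lt_nat Γ.r).isClosed_biUnion fun i _ => ?_
    exact (isClosed_le continuous_const continuous_fst).inter
      ((isClosed_le continuous_fst continuous_const).inter
      ((isClosed_le ((cont_ln _ _).comp continuous_fst) continuous_snd).inter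
      (isClosed_le continuous_snd ((cont_ln _ _).comp continuous_fst))))
  · refine Γ.rg_finS.isClosed_biUnion fun i _ => ?_
    exact (isClosed_le ((cont_ln _ _).comp continuous_fst) continuous_snd).inter
      ((isClosed_le continuous_snd ((cont_ln _ _).comp continuous_fst)).inter
      (isClosed_le continuous_snd ((cont_ln _ _).comp continuous_fst)))

theorem rg_bdd_strip {a b : ℝ} {f g : ℝ → ℝ} (hf : Continuous f) (hg : Continuous g) :
    Bornology.IsBounded {z : ℝ × ℝ | a ≤ z.1 ∧ z.1 ≤ b ∧ f z.1 ≤ z.2 ∧ z.2 ≤ g z.1} := by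
  obtain ⟨m, hm⟩ := (isCompact_Icc (a := a) (b := b)).bddBelow_image hf.continuousOn
  obtain ⟨M, hM⟩ := (isCompact_Icc (a := a) (b := b)).bddAbove_image hg.continuousOn
  refine (isCompact_Icc (a := ((a, m) : ℝ × ℝ)) (b := (b, M))).isBounded.subset ?_
  rintro z ⟨h1, h2, h3, h4⟩
  have e1 := hm (Set.mem_image_of_mem f (⟨h1, h2⟩ : z.1 ∈ Icc a b))
  have e2 := hM (Set.mem_image_of_mem g (⟨h1, h2⟩ : z.1 ∈ Icc a b))
  exact ⟨⟨h1, e1.trans h3⟩, ⟨h2, h4.trans e2⟩⟩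

theorem rg_bounded : Bornology.IsBounded Γ.body := by
  rw [rg_body_eq, Bornology.isBounded_union]
  constructor
  · rw [Bornology.isBounded_biUnion (Set.finite_lt_nat Γ.r)]
    exact fun i _ => rg_bdd_strip (cont_ln _ _) (cont_ln _ _)
  · rw [Bornology.isBounded_biUnion Γ.rg_finS]
    intro i hi
    refine (rg_bdd_strip (a := (Γ.c i).1) (b := (Γ.w i).1) (cont_ln (Γ.c i) (Γ.w i))
      (cont_ln (Γ.c i) (Γ.c (i + 1)))).subset fun z hz => ?_
    obtain ⟨h1, h2⟩ := rg_spike_x hi hz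
    exact ⟨h1, h2, hz.1, hz.2.1⟩

/-! ### points outside the body escape -/

theorem rg_not_bdd_down (x y : ℝ) :
    ¬ Bornology.IsBounded {z : ℝ × ℝ | z.1 = x ∧ z.2 ≤ y} := by
  intro h
  obtain ⟨R, hR⟩ := h.subset_closedBall 0
  have h1 : ((x, min y (-|R| - 1)) : ℝ × ℝ) ∈ Metric.closedBall (0 : ℝ × ℝ) R :=
    hR ⟨rfl, min_le_left _ _⟩
  rw [mem_closedBall_zero_iff, Prod.norm_def, max_le_iff, Real.norm_eq_abs, Real.norm_eq_abs] at h1
  have h2 := (abs_le.1 h1.2).1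
  have h3 : min y (-|R| - 1) ≤ -|R| - 1 := min_le_right _ _
  have h4 := le_abs_self R
  simp only at h2
  linarith

theorem rg_not_bdd_up (x y : ℝ) :
    ¬ Bornology.IsBounded {z : ℝ × ℝ | z.1 = x ∧ y ≤ z.2} := by
  intro h
  obtain ⟨R, hR⟩ := h.subset_closedBall 0
  have h1 : ((x, max y (|R| + 1)) : ℝ × ℝ) ∈ Metric.closedBall (0 : ℝ × ℝ) R :=
    hR ⟨rfl, le_max_left _ _⟩
  rw [mem_closedBall_zero_iff, Prod.norm_def, max_le_iff, Real.norm_eq_abs, Real.norm_eq_abs] at h1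
  have h2 := (abs_le.1 h1.2).2
  have h3 : |R| + 1 ≤ max y (|R| + 1) := le_max_right _ _
  have h4 := le_abs_self R
  simp only at h2
  linarith

theorem rg_not_bdd_left (x y : ℝ) :
    ¬ Bornology.IsBounded {z : ℝ × ℝ | z.1 ≤ x ∧ z.2 = y} := by
  intro h
  obtain ⟨R, hR⟩ := h.subset_closedBall 0
  have h1 : ((min x (-|R| - 1), y) : ℝ × ℝ) ∈ Metric.closedBall (0 : ℝ × ℝ) R :=
    hR ⟨min_le_left _ _, rfl⟩
  rw [mem_closedBall_zero_iff, Prod.norm_def, max_le_iff, Real.norm_eq_abs, Real.norm_eq_abs] at h1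
  have h2 := (abs_le.1 h1.1).1
  have h3 : min x (-|R| - 1) ≤ -|R| - 1 := min_le_right _ _
  have h4 := le_abs_self R
  simp only at h2
  linarith

theorem rg_not_bdd_right (x y : ℝ) :
    ¬ Bornology.IsBounded {z : ℝ × ℝ | x ≤ z.1 ∧ z.2 = y} := by
  intro h
  obtain ⟨R, hR⟩ := h.subset_closedBall 0
  have h1 : ((max x (|R| + 1), y) : ℝ × ℝ) ∈ Metric.closedBall (0 : ℝ × ℝ) R :=
    hR ⟨le_max_left _ _, rfl⟩
  rw [mem_closedBall_zero_iff, Prod.norm_def, max_le_iff, Real.norm_eq_abs, Real.norm_eq_abs] at h1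
  have h2 := (abs_le.1 h1.1).2
  have h3 : |R| + 1 ≤ max x (|R| + 1) := le_max_right _ _
  have h4 := le_abs_self R
  simp only at h2
  linarith

theorem rg_conv_down (x y : ℝ) : IsPreconnected {z : ℝ × ℝ | z.1 = x ∧ z.2 ≤ y} := by
  refine Convex.isPreconnected ?_
  intro u hu v hv a b ha hb hab
  simp only [mem_ofPred_eq, Prod.fst_add, Prod.smul_fst, smul_eq_mul, Prod.snd_add,
    Prod.smul_snd] at *
  constructor
  · rw [hu.1, hv.1, ← add_mul, hab, one_mul]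
  · have : a = 1 - b := by linarith
    subst this
    nlinarith [hu.2, hv.2]

theorem rg_conv_up (x y : ℝ) : IsPreconnected {z : ℝ × ℝ | z.1 = x ∧ y ≤ z.2} := by
  refine Convex.isPreconnected ?_
  intro u hu v hv a b ha hb hab
  simp only [mem_ofPred_eq, Prod.fst_add, Prod.smul_fst, smul_eq_mul, Prod.snd_add,
    Prod.smul_snd] at *
  constructor
  · rw [hu.1, hv.1, ← add_mul, hab, one_mul]
  · have : a = 1 - b := by linarith
    subst this
    nlinarith [hu.2, hv.2]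

theorem rg_conv_left (x y : ℝ) : IsPreconnected {z : ℝ × ℝ | z.1 ≤ x ∧ z.2 = y} := by
  refine Convex.isPreconnected ?_
  intro u hu v hv a b ha hb hab
  simp only [mem_ofPred_eq, Prod.fst_add, Prod.smul_fst, smul_eq_mul, Prod.snd_add,
    Prod.smul_snd] at *
  constructor
  · have : a = 1 - b := by linarith
    subst this
    nlinarith [hu.1, hv.1]
  · rw [hu.2, hv.2, ← add_mul, hab, one_mul]

theorem rg_conv_right (x y : ℝ) : IsPreconnected {z : ℝ × ℝ | x ≤ z.1 ∧ z.2 = y} := by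
  refine Convex.isPreconnected ?_
  intro u hu v hv a b ha hb hab
  simp only [mem_ofPred_eq, Prod.fst_add, Prod.smul_fst, smul_eq_mul, Prod.snd_add,
    Prod.smul_snd] at *
  constructor
  · have : a = 1 - b := by linarith
    subst this
    nlinarith [hu.1, hv.1]
  · rw [hu.2, hv.2, ← add_mul, hab, one_mul]

theorem rg_escape {z : ℝ × ℝ} (hz : z ∉ Γ.body) :
    ∃ s : Set (ℝ × ℝ), IsPreconnected s ∧ z ∈ s ∧ s ⊆ Γ.bodyᶜ ∧ ¬ Bornology.IsBounded s := by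
  rcases lt_or_ge z.1 (Γ.c 0).1 with h0 | h0
  · refine ⟨_, rg_conv_left z.1 z.2, ⟨le_rfl, rfl⟩, ?_, rg_not_bdd_left _ _⟩
    rintro u ⟨hu1, -⟩ hu
    have := (Γ.rg_body_x hu).1
    linarith
  rcases lt_or_ge (Γ.c Γ.r).1 z.1 with hr | hr
  · refine ⟨_, rg_conv_right z.1 z.2, ⟨le_rfl, rfl⟩, ?_, rg_not_bdd_right _ _⟩
    rintro u ⟨hu1, -⟩ hu
    have := (Γ.rg_body_x hu).2
    linarith
  rcases lt_or_ge (ln (Γ.c 0) (Γ.c Γ.r) z.1) z.2 with hT | hT
  · refine ⟨_, rg_conv_up z.1 z.2, ⟨rfl, le_rfl⟩, ?_, rg_not_bdd_up _ _⟩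
    rintro u ⟨hu1, hu2⟩ hu
    have := Γ.rg_body_top hu
    rw [hu1] at this
    linarith
  have hmain : ∀ i < Γ.r, (Γ.c i).1 ≤ z.1 → z.1 ≤ (Γ.c (i + 1)).1 →
      z.2 < ln (Γ.c i) (Γ.c (i + 1)) z.1 := by
    intro i hi h1 h2
    by_contra h
    push Not at h
    exact hz (Or.inl ⟨i, hi, h1, h2, h, hT⟩)
  by_cases hsh : ∃ i, Γ.S i ∧ (Γ.c (i + 1)).1 < z.1 ∧ z.1 ≤ (Γ.w i).1 ∧
      ln (Γ.c (i + 1)) (Γ.w i) z.1 < z.2
  · -- the shadow
    obtain ⟨i, hS, h1, h2, h3⟩ := hsh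
    set B := ln (Γ.c (i + 1)) (Γ.w i) with hB
    set g := ln (Γ.c (i + 1)) (Γ.c (i + 2)) with hg
    obtain ⟨b, n, hBe⟩ := aff_ln (Γ.c (i + 1)) (Γ.w i)
    obtain ⟨b', n', hge⟩ := aff_ln (Γ.c (i + 1)) (Γ.c (i + 2))
    rw [← hB] at hBe
    rw [← hg] at hge
    have hw1 := Γ.w_gt i hS
    have hw2 := Γ.w_lt i hS
    have hz2 : z.2 < g z.1 := hmain (i + 1) (rg_i1_lt hS) h1.le (h2.trans hw2.le)
    have hnn : n < n' := by
      have e1 : B (Γ.c (i + 1)).1 = g (Γ.c (i + 1)).1 := by rw [hB, hg, ln_left, ln_left]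
      have e2 : B (Γ.w i).1 < g (Γ.w i).1 := rg_B_lt_g' hS hw1
      rw [hBe, hge] at e1 e2
      by_contra hc
      push Not at hc
      nlinarith
    -- points strictly between the abscissas, above `B` or right of the tip, below `g`
    have key : ∀ u : ℝ × ℝ, (Γ.c (i + 1)).1 < u.1 → u.1 < (Γ.c (i + 2)).1 → u.2 < g u.1 →
        ((Γ.w i).1 < u.1 ∨ B u.1 < u.2) → u ∉ Γ.body := by
      rintro u hu1 hu2 hu3 hu4 (⟨k, hk, k1, k2, k3, k4⟩ | ⟨k, hSk, hk⟩)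
      · have hki : k = i + 1 := by
          rcases lt_trichotomy k (i + 1) with h | h | h
          · have := Γ.rg_X_le (i := k + 1) (j := i + 1) (by omega) (rg_i1_lt hS).le
            linarith
          · exact h
          · have := Γ.rg_X_le (i := i + 2) (j := k) (by omega) (by omega)
            linarith
        subst hki
        rw [show i + 1 + 1 = i + 2 from rfl, ← hg] at k3
        linarith
      · obtain ⟨k1, k2⟩ := rg_spike_x hSk hk
        have hki : k = i := by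
          rcases lt_trichotomy k i with h | h | h
          · have e1 := Γ.w_lt k hSk
            have e2 := Γ.rg_X_le (i := k + 2) (j := i + 1) (by omega) (rg_i1_lt hS).le
            linarith
          · exact h
          · rcases eq_or_lt_of_le (Nat.succ_le_of_lt h) with h' | h'
            · exact absurd (by rw [show i + 1 = k from h']; exact hSk : Γ.S (i + 1)) (Γ.gap_next i hS)
            · have := Γ.rg_X_le (i := i + 2) (j := k) (by omega) (rg_i_lt hSk).le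
              linarith
        subst hki
        rcases hu4 with h | h
        · linarith
        · have := hk.2.2
          rw [← hB] at this
          linarith
    set x1 : ℝ := ((Γ.w i).1 + (Γ.c (i + 2)).1) / 2 with hx1
    have hx1a : (Γ.w i).1 < x1 := by rw [hx1]; linarith
    have hx1b : x1 < (Γ.c (i + 2)).1 := by rw [hx1]; linarith
    set y1 : ℝ := z.2 + n * (x1 - z.1) with hy1
    have hp : IsPreconnected (segment ℝ z (x1, y1)) := (convex_segment _ _).isPreconnected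
    have hl : IsPreconnected {u : ℝ × ℝ | u.1 = x1 ∧ u.2 ≤ y1} := rg_conv_down x1 y1
    refine ⟨segment ℝ z (x1, y1) ∪ {u : ℝ × ℝ | u.1 = x1 ∧ u.2 ≤ y1},
      IsPreconnected.union (x1, y1) (right_mem_segment ℝ _ _) ⟨rfl, le_rfl⟩ hp hl,
      Or.inl (left_mem_segment ℝ _ _), ?_, fun hb => rg_not_bdd_down x1 y1
        (hb.subset subset_union_right)⟩
    have hgy : y1 < g x1 := by
      rw [hge] at hz2 ⊢
      rw [hy1]
      nlinarith [mul_pos (sub_pos.2 hnn) (sub_pos.2 (h2.trans_lt hx1a))]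
    rintro u (hu | ⟨hu1, hu2⟩)
    · have hlt : z.1 < ((x1, y1) : ℝ × ℝ).1 := h2.trans_lt hx1a
      rw [mem_seg_iff hlt] at hu
      obtain ⟨hu1, hu2, hu3⟩ := hu
      have hu4 : u.2 = z.2 + n * (u.1 - z.1) := by
        rw [hu3]
        unfold ln
        have : x1 - z.1 ≠ 0 := (sub_pos.2 hlt).ne'
        simp only [hy1]
        field_simp
        ring
      refine key u (h1.trans_le hu1) (lt_of_le_of_lt hu2 hx1b) ?_ (Or.inr ?_)
      · rw [hu4]
        rw [hge] at hz2 ⊢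
        nlinarith [mul_nonneg (sub_pos.2 hnn).le (sub_nonneg.2 hu1)]
      · rw [hu4]
        rw [hBe] at h3 ⊢
        nlinarith
    · refine key u ?_ ?_ ?_ (Or.inl ?_)
      · rw [hu1]; linarith
      · rw [hu1]; exact hx1b
      · rw [hu1]; linarith
      · rw [hu1]; exact hx1a
  · -- vertical ray down
    push Not at hsh
    refine ⟨_, rg_conv_down z.1 z.2, ⟨rfl, le_rfl⟩, ?_, rg_not_bdd_down _ _⟩
    rintro u ⟨hu1, hu2⟩ (⟨k, hk, k1, k2, k3, k4⟩ | ⟨k, hSk, hk⟩)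
    · rw [hu1] at k1 k2 k3
      linarith [hmain k hk k1 k2]
    · obtain ⟨k1, k2⟩ := rg_spike_x hSk hk
      obtain ⟨e1, e2, e3⟩ := hk
      rw [hu1] at k1 k2 e1 e2 e3
      refine hz (Or.inr ⟨k, hSk, e1.trans hu2, ?_, ?_⟩)
      · rcases le_or_gt z.1 (Γ.c (k + 1)).1 with h | h
        · exact (hmain k (rg_i_lt hSk) k1 h).le
        · exact (hsh k hSk h k2).trans (rg_B_lt_g hSk h).le
      · rcases le_or_gt z.1 (Γ.c (k + 1)).1 with h | h
        · exact (hmain k (rg_i_lt hSk) k1 h).le.trans (rg_g_le_B hSk h)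
        · exact hsh k hSk h k2

/-- The region bounded by the curve of a chain is its body. -/
theorem region_curve (Γ : Chain) : region Γ.curve = Γ.body := by
  ext z
  constructor
  · rintro (hz | ⟨hz, hb⟩)
    · exact Γ.rg_curve_subset hz
    · by_contra hzb
      obtain ⟨s, hs1, hs2, hs3, hs4⟩ := Γ.rg_escape hzb
      refine hs4 (hb.subset (hs1.subset_connectedComponentIn hs2 (hs3.trans ?_)))
      exact compl_subset_compl.2 Γ.rg_curve_subset
  · intro hz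
    by_cases hc : z ∈ Γ.curve
    · exact Or.inl hc
    · refine Or.inr ⟨hc, Γ.rg_bounded.subset ?_⟩
      have h1 : connectedComponentIn Γ.curveᶜ z ⊆ interior Γ.body ∪ Γ.bodyᶜ := by
        intro u hu
        have hu' := connectedComponentIn_subset _ _ hu
        by_cases hb : u ∈ Γ.body
        · exact Or.inl (Γ.rg_int_body hb hu')
        · exact Or.inr hb
      have h2 : Disjoint (interior Γ.body) Γ.bodyᶜ :=
        Set.disjoint_left.2 fun u hu hu' => hu' (interior_subset hu)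
      refine (isPreconnected_connectedComponentIn.subset_left_of_subset_union isOpen_interior
        Γ.rg_closed.isOpen_compl h2 h1 ⟨z, mem_connectedComponentIn hc, Γ.rg_int_body hz hc⟩).trans
        interior_subset

end Chain

end Pool.Agent.VDC
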