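import Pool.Agent.VDC.Adj
import Pool.Agent.VDC.Comb
import Pool.Agent.VDC.Region

/-!
# The polygons of the reduction
-/

namespace Pool.Agent.VDC

/-- The polygon of the reduction. -/
def polyOf (m c : ℕ) (τ : ℕ → ℕ) (hm : 0 < m) (hτ : ∀ j < 2 * c, ValidT m (τ j)) :
    SimplePolygon where
  n := 3 * m + 7 * c + 1
  three_le := by omega
  v := vert m c τ
  injective := (layoutOf hm hτ).injective
  simple := (layoutOf hm hτ).simple

variable {m c : ℕ} {τ : ℕ → ℕ} (hm : 0 < m) (hc : 0 < c) (hτ : ∀ j < 2 * c, ValidT m (τ j))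

theorem adj_iff' (a b : Fin (3 * m + 7 * c + 1)) :
    (a ≠ b ∧ segment ℝ (toPlane (vert m c τ a)) (toPlane (vert m c τ b)) ⊆
      region (boundary (vert m c τ))) ↔ a ≠ b ∧
      segment ℝ ((chainOf m c τ hm hτ).pt (kap m a)) ((chainOf m c τ hm hτ).pt (kap m b)) ⊆
        (chainOf m c τ hm hτ).body := by
  rw [(layoutOf hm hτ).boundary_eq, Chain.region_curve, (layoutOf hm hτ).pt, (layoutOf hm hτ).pt]
  exact Iff.rfl

theorem adj_iff (a b : Fin (polyOf m c τ hm hτ).n) :
    (polyOf m c τ hm hτ).visibilityGraph.Adj a b ↔ a ≠ b ∧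
      segment ℝ ((chainOf m c τ hm hτ).pt (kap m a)) ((chainOf m c τ hm hτ).pt (kap m b)) ⊆
        (chainOf m c τ hm hτ).body :=
  adj_iff' hm hτ a b

include hc in
/-- Dominating cliques correspond to solutions of the constraints. -/
theorem hasDom_iff : HasDominatingClique (polyOf m c τ hm hτ).visibilityGraph ↔
    ∃ x : ℕ → Bool, ∀ j < c, SatT x (τ (2 * j)) ∨ SatT x (τ (2 * j + 1)) := by
  refine domClique_iff hm hc τ hτ (polyOf m c τ hm hτ).visibilityGraph (fun a => kap m a)
    (fun a b h => Fin.ext (kap_inj h)) (fun a => kap_le a.2) (fun a h => kap_tip a.2 h) ?_ ?_ ?_ ?_ ?_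
  · intro i hi
    obtain ⟨a, ha, h⟩ := kap_surj (m := m) (c := c) hi
    exact ⟨⟨a, ha⟩, h⟩
  · intro i hi
    obtain ⟨a, ha, h⟩ := kap_surj' (m := m) (c := c) hi
    exact ⟨⟨a, ha⟩, h⟩
  · intro a b i l ha hb hil
    rw [adj_iff hm hτ, ha, hb]
    have hl : l ≤ 3 * m + 5 * c := by
      have := kap_le (m := m) (c := c) b.2
      rw [hb] at this
      exact this
    have hne : a ≠ b := by
      rintro rfl
      rw [ha] at hb
      have := congrArg Prod.fst hb
      simp only at this
      omega
    have h := body_chain hm hτ hil hl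
    simp only [ne_eq, hne, not_false_eq_true, true_and]
    exact h
  · intro a b i l ha hb
    rw [adj_iff hm hτ, ha, hb]
    have hl : l ≤ 3 * m + 5 * c := by
      have := kap_le (m := m) (c := c) b.2
      rw [hb] at this
      exact this
    have hi : Gap m c i := by
      have := kap_tip (m := m) (c := c) a.2 (by rw [ha])
      rw [ha] at this
      exact this
    have hne : a ≠ b := by
      rintro rfl
      rw [ha] at hb
      have := congrArg Prod.snd hb
      simp at this
    have h := body_tip hm hτ hi hl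
    simp only [ne_eq, hne, not_false_eq_true, true_and]
    exact h
  · intro a b i l ha hb
    rw [adj_iff hm hτ, ha, hb]
    rintro ⟨hne, hsub⟩
    have hi : Gap m c i := by
      have := kap_tip (m := m) (c := c) a.2 (by rw [ha])
      rw [ha] at this
      exact this
    have hl : Gap m c l := by
      have := kap_tip (m := m) (c := c) b.2 (by rw [hb])
      rw [hb] at this
      exact this
    have hil : i ≠ l := by
      rintro rfl
      exact hne (Fin.ext (kap_inj (ha.trans hb.symm)))
    rcases lt_or_gt_of_ne hil with h | h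
    · exact body_tips hm hτ hi hl h hsub
    · rw [segment_symm] at hsub
      exact body_tips hm hτ hl hi h hsub

end Pool.Agent.VDC
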