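import Pool.Agent.VDC.Chain

/-!
# Visibility inside the polygon
-/

namespace Pool.Agent.VDC

open Set

/-! ### Lines -/

@[simp] theorem ln_left (p q : ℝ × ℝ) : ln p q p.1 = p.2 := by simp [ln]

theorem ln_right {p q : ℝ × ℝ} (h : p.1 ≠ q.1) : ln p q q.1 = q.2 := by
  have : q.1 - p.1 ≠ 0 := sub_ne_zero.mpr (Ne.symm h)
  rw [ln, div_mul_cancel₀ _ this]; ring

theorem ln_symm {p q : ℝ × ℝ} (h : p.1 ≠ q.1) (x : ℝ) : ln p q x = ln q p x := by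
  have h1 : q.1 - p.1 ≠ 0 := sub_ne_zero.mpr (Ne.symm h)
  have h2 : p.1 - q.1 ≠ 0 := sub_ne_zero.mpr h
  rw [ln, ln]
  field_simp
  ring

/-- `ln p q` is affine -/
theorem ln_comb (p q : ℝ × ℝ) (a b s t : ℝ) (h : s + t = 1) :
    ln p q (s * a + t * b) = s * ln p q a + t * ln p q b := by
  have : t = 1 - s := by linarith
  subst this
  simp only [ln]; ring

/-- comparison of affine functions on an interval -/
theorem ln_le_of_ends {p q p' q' : ℝ × ℝ} {a b x : ℝ} (hab : a < b) (h1 : a ≤ x) (h2 : x ≤ b)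
    (ha : ln p q a ≤ ln p' q' a) (hb : ln p q b ≤ ln p' q' b) : ln p q x ≤ ln p' q' x := by
  have hba : 0 < b - a := sub_pos.mpr hab
  have e : x = (b - x) / (b - a) * a + (x - a) / (b - a) * b := by field_simp; ring
  have hs : (b - x) / (b - a) + (x - a) / (b - a) = 1 := by field_simp; ring
  rw [e, ln_comb _ _ _ _ _ _ hs, ln_comb _ _ _ _ _ _ hs]
  have h3 : 0 ≤ (b - x) / (b - a) := div_nonneg (by linarith) hba.le
  have h4 : 0 ≤ (x - a) / (b - a) := div_nonneg (by linarith) hba.le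
  exact add_le_add (mul_le_mul_of_nonneg_left ha h3) (mul_le_mul_of_nonneg_left hb h4)

/-- a line through `p` compared with another line through `p`, right of `p` -/
theorem ln_lt_right {p q p' q' : ℝ × ℝ} {a b x : ℝ} (hab : a < b) (hx : a < x)
    (ha : ln p q a ≤ ln p' q' a) (hb : ln p q b < ln p' q' b) (hx2 : x ≤ b) :
    ln p q x < ln p' q' x := by
  have hba : 0 < b - a := sub_pos.mpr hab
  have e : x = (b - x) / (b - a) * a + (x - a) / (b - a) * b := by field_simp; ring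
  have hs : (b - x) / (b - a) + (x - a) / (b - a) = 1 := by field_simp; ring
  rw [e, ln_comb _ _ _ _ _ _ hs, ln_comb _ _ _ _ _ _ hs]
  have h3 : 0 ≤ (b - x) / (b - a) := div_nonneg (by linarith) hba.le
  have h4 : 0 < (x - a) / (b - a) := div_pos (by linarith) hba
  exact add_lt_add_of_le_of_lt (mul_le_mul_of_nonneg_left ha h3) (mul_lt_mul_of_pos_left hb h4)

/-- Two affine functions equal at `a`, with the first smaller at `b > a`: they compare beyond `a`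
in both directions. -/
theorem ln_sub_eq (p q p' q' : ℝ × ℝ) {a b : ℝ} (hab : a ≠ b) (ha : ln p q a = ln p' q' a) (x : ℝ) :
    ln p' q' x - ln p q x = (x - a) / (b - a) * (ln p' q' b - ln p q b) := by
  have hba : b - a ≠ 0 := sub_ne_zero.mpr (Ne.symm hab)
  have e : x = (b - x) / (b - a) * a + (x - a) / (b - a) * b := by field_simp; ring
  have hs : (b - x) / (b - a) + (x - a) / (b - a) = 1 := by field_simp; ring
  have h1 := ln_comb p q a b _ _ hs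
  have h2 := ln_comb p' q' a b _ _ hs
  rw [← e] at h1 h2
  rw [h1, h2, ha]
  ring

theorem mem_segment_iff {p q z : ℝ × ℝ} (h : p.1 < q.1) :
    z ∈ segment ℝ p q ↔ p.1 ≤ z.1 ∧ z.1 ≤ q.1 ∧ z.2 = ln p q z.1 := by
  have hpq : 0 < q.1 - p.1 := sub_pos.mpr h
  rw [segment_eq_image_lineMap]
  constructor
  · rintro ⟨t, ⟨ht0, ht1⟩, rfl⟩
    simp only [AffineMap.lineMap_apply, vsub_eq_sub, vadd_eq_add, Prod.fst_add, Prod.snd_add,
      Prod.smul_fst, Prod.smul_snd, Prod.fst_sub, Prod.snd_sub, smul_eq_mul]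
    refine ⟨by nlinarith, by nlinarith, ?_⟩
    rw [ln]
    field_simp
    ring
  · rintro ⟨h1, h2, h3⟩
    refine ⟨(z.1 - p.1) / (q.1 - p.1), ⟨div_nonneg (by linarith) hpq.le,
      (div_le_one hpq).mpr (by linarith)⟩, ?_⟩
    apply Prod.ext
    · simp only [AffineMap.lineMap_apply, vsub_eq_sub, vadd_eq_add, Prod.fst_add,
        Prod.smul_fst, Prod.fst_sub, smul_eq_mul]
      field_simp
      ring
    · simp only [AffineMap.lineMap_apply, vsub_eq_sub, vadd_eq_add, Prod.snd_add,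
        Prod.smul_snd, Prod.snd_sub, smul_eq_mul]
      rw [h3, ln]
      field_simp
      ring

namespace Chain

variable (Γ : Chain)

theorem strictMono {i j : ℕ} (hij : i < j) (hj : j ≤ Γ.r) : (Γ.c i).1 < (Γ.c j).1 := by
  induction j, hij using Nat.le_induction with
  | base => exact Γ.mono i (by omega)
  | succ j _ ih => exact (ih (by omega)).trans (Γ.mono j (by omega))

theorem mono' {i j : ℕ} (hij : i ≤ j) (hj : j ≤ Γ.r) : (Γ.c i).1 ≤ (Γ.c j).1 := by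
  rcases hij.lt_or_eq with h | rfl
  · exact (Γ.strictMono h hj).le
  · exact le_rfl

theorem lt_of_fst_lt {i j : ℕ} (hi : i ≤ Γ.r) (h : (Γ.c i).1 < (Γ.c j).1) : i < j := by
  by_contra hcon
  push Not at hcon
  exact absurd h (not_lt.mpr (Γ.mono' hcon hi))

theorem le_top {i : ℕ} (hi : i ≤ Γ.r) : (Γ.c i).2 ≤ ln (Γ.c 0) (Γ.c Γ.r) (Γ.c i).1 := by
  have h2 := Γ.two_le
  rcases Nat.eq_zero_or_pos i with rfl | h0
  · rw [ln_left]
  · rcases hi.lt_or_eq with h | rfl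
    · exact (Γ.top i h0 h).le
    · rw [ln_right (Γ.strictMono (by omega) le_rfl).ne]

theorem exists_between {i j : ℕ} (hij : i < j) (hj : j ≤ Γ.r) {x : ℝ} (h1 : (Γ.c i).1 ≤ x)
    (h2 : x ≤ (Γ.c j).1) : ∃ l, i ≤ l ∧ l < j ∧ (Γ.c l).1 ≤ x ∧ x ≤ (Γ.c (l + 1)).1 := by
  induction j, hij using Nat.le_induction with
  | base => exact ⟨i, le_rfl, by omega, h1, h2⟩
  | succ j hij ih =>
    rcases le_total x (Γ.c j).1 with h | h
    · obtain ⟨l, hl1, hl2, hl3⟩ := ih (by omega) h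
      exact ⟨l, hl1, by omega, hl3⟩
    · exact ⟨j, by omega, by omega, h, h2⟩

theorem sees_chain {i j : ℕ} (hij : i < j) (hj : j ≤ Γ.r)
    (h : ∀ l, i < l → l < j → (Γ.c l).2 ≤ ln (Γ.c i) (Γ.c j) (Γ.c l).1) :
    segment ℝ (Γ.c i) (Γ.c j) ⊆ Γ.body := by
  intro z hz
  rw [mem_segment_iff (Γ.strictMono hij hj)] at hz
  obtain ⟨h1, h2, h3⟩ := hz
  obtain ⟨l, hl1, hl2, hl3, hl4⟩ := Γ.exists_between hij hj h1 h2
  have h' : ∀ l, i ≤ l → l ≤ j → (Γ.c l).2 ≤ ln (Γ.c i) (Γ.c j) (Γ.c l).1 := by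
    intro l h1 h2
    rcases h1.lt_or_eq with h1 | rfl
    · rcases h2.lt_or_eq with h2 | rfl
      · exact h l h1 h2
      · rw [ln_right (Γ.strictMono hij hj).ne]
    · rw [ln_left]
  refine Or.inl ⟨l, by omega, hl3, hl4, ?_, ?_⟩
  · rw [h3]
    refine ln_le_of_ends (Γ.mono l (by omega)) hl3 hl4 ?_ ?_
    · rw [ln_left]; exact h' l hl1 hl2.le
    · rw [ln_right (Γ.mono l (by omega)).ne]; exact h' (l + 1) (by omega) (by omega)
  · rw [h3]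
    refine ln_le_of_ends (Γ.strictMono hij hj) h1 h2 ?_ ?_
    · rw [ln_left]; exact Γ.le_top (by omega)
    · rw [ln_right (Γ.strictMono hij hj).ne]; exact Γ.le_top hj

variable {Γ}

/-- the three lines of a spike -/
theorem l1_sub_l2 {i : ℕ} (hS : Γ.S i) (x : ℝ) :
    ln (Γ.c i) (Γ.c (i + 1)) x - ln (Γ.c i) (Γ.w i) x = (x - (Γ.c i).1) *
      ((ln (Γ.c i) (Γ.c (i + 1)) (Γ.w i).1 - (Γ.w i).2) / ((Γ.w i).1 - (Γ.c i).1)) := by
  have h1 : (Γ.c i).1 < (Γ.w i).1 := (Γ.mono i (by have := Γ.gap i hS; omega)).trans (Γ.w_gt i hS)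
  rw [ln_sub_eq (Γ.c i) (Γ.w i) (Γ.c i) (Γ.c (i + 1)) h1.ne (by simp) x, ln_right h1.ne]
  ring

theorem l2_le_l1_iff {i : ℕ} (hS : Γ.S i) (x : ℝ) :
    ln (Γ.c i) (Γ.w i) x ≤ ln (Γ.c i) (Γ.c (i + 1)) x ↔ (Γ.c i).1 ≤ x := by
  have h1 : (Γ.c i).1 < (Γ.w i).1 := (Γ.mono i (by have := Γ.gap i hS; omega)).trans (Γ.w_gt i hS)
  have h2 : 0 < (ln (Γ.c i) (Γ.c (i + 1)) (Γ.w i).1 - (Γ.w i).2) / ((Γ.w i).1 - (Γ.c i).1) :=
    div_pos (sub_pos.mpr (Γ.w_below i hS)) (sub_pos.mpr h1)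
  rw [← sub_nonneg, l1_sub_l2 hS, mul_nonneg_iff_of_pos_right h2, sub_nonneg]

theorem w_lt_l1 {i : ℕ} (hS : Γ.S i) : ln (Γ.c (i + 1)) (Γ.w i) (Γ.c i).1 > (Γ.c i).2 := by
  have h0 := Γ.mono i (by have := Γ.gap i hS; omega)
  have h1 := Γ.w_gt i hS
  have h2 := ln_sub_eq (Γ.c (i + 1)) (Γ.w i) (Γ.c i) (Γ.c (i + 1)) h1.ne
    (by rw [ln_left, ln_right h0.ne]) (Γ.c i).1
  rw [ln_left, ln_right h1.ne] at h2
  have h3 := Γ.w_below i hS
  have h4 : ((Γ.c i).1 - (Γ.c (i + 1)).1) / ((Γ.w i).1 - (Γ.c (i + 1)).1) *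
      (ln (Γ.c i) (Γ.c (i + 1)) (Γ.w i).1 - (Γ.w i).2) < 0 :=
    mul_neg_of_neg_of_pos (div_neg_of_neg_of_pos (by linarith) (by linarith)) (by linarith)
  linarith

theorem l2_le_l3_iff {i : ℕ} (hS : Γ.S i) (x : ℝ) :
    ln (Γ.c i) (Γ.w i) x ≤ ln (Γ.c (i + 1)) (Γ.w i) x ↔ x ≤ (Γ.w i).1 := by
  have h1 : (Γ.c i).1 < (Γ.w i).1 := (Γ.mono i (by have := Γ.gap i hS; omega)).trans (Γ.w_gt i hS)
  have h2 := Γ.w_gt i hS
  have h3 := ln_sub_eq (Γ.c i) (Γ.w i) (Γ.c (i + 1)) (Γ.w i) h1.ne'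
    (by rw [ln_right h1.ne, ln_right h2.ne]) x
  rw [ln_left] at h3
  have h4 := w_lt_l1 hS
  have h5 : ln (Γ.c (i + 1)) (Γ.w i) x - ln (Γ.c i) (Γ.w i) x = ((Γ.w i).1 - x) *
      ((ln (Γ.c (i + 1)) (Γ.w i) (Γ.c i).1 - (Γ.c i).2) / ((Γ.w i).1 - (Γ.c i).1)) := by
    rw [h3]
    have : (Γ.c i).1 - (Γ.w i).1 ≠ 0 := by linarith
    have : (Γ.w i).1 - (Γ.c i).1 ≠ 0 := by linarith
    field_simp
    ring
  have h6 : 0 < (ln (Γ.c (i + 1)) (Γ.w i) (Γ.c i).1 - (Γ.c i).2) / ((Γ.w i).1 - (Γ.c i).1) :=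
    div_pos (by linarith) (by linarith)
  rw [← sub_nonneg, h5, mul_nonneg_iff_of_pos_right h6, sub_nonneg]

theorem l3_le_l1 {i : ℕ} (hS : Γ.S i) {x : ℝ} (hx : (Γ.c (i + 1)).1 ≤ x) :
    ln (Γ.c (i + 1)) (Γ.w i) x ≤ ln (Γ.c i) (Γ.c (i + 1)) x := by
  have h0 := Γ.mono i (by have := Γ.gap i hS; omega)
  have h1 := Γ.w_gt i hS
  have h2 := ln_sub_eq (Γ.c (i + 1)) (Γ.w i) (Γ.c i) (Γ.c (i + 1)) h1.ne
    (by rw [ln_left, ln_right h0.ne]) x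
  rw [ln_right h1.ne] at h2
  have h3 := Γ.w_below i hS
  have h4 : 0 ≤ (x - (Γ.c (i + 1)).1) / ((Γ.w i).1 - (Γ.c (i + 1)).1) *
      (ln (Γ.c i) (Γ.c (i + 1)) (Γ.w i).1 - (Γ.w i).2) :=
    mul_nonneg (div_nonneg (by linarith) (by linarith)) (by linarith)
  linarith

theorem spike_fst {i : ℕ} (hS : Γ.S i) {z : ℝ × ℝ} (hz : z ∈ Γ.spike i) :
    (Γ.c i).1 ≤ z.1 ∧ z.1 ≤ (Γ.w i).1 := by
  obtain ⟨h1, h2, h3⟩ := hz
  exact ⟨(l2_le_l1_iff hS _).mp (h1.trans h2), (l2_le_l3_iff hS _).mp (h1.trans h3)⟩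

theorem segL2 {i : ℕ} (hS : Γ.S i) : segment ℝ (Γ.c i) (Γ.w i) ⊆ Γ.spike i := by
  have h1 : (Γ.c i).1 < (Γ.w i).1 := (Γ.mono i (by have := Γ.gap i hS; omega)).trans (Γ.w_gt i hS)
  intro z hz
  rw [mem_segment_iff h1] at hz
  obtain ⟨ha, hb, hc⟩ := hz
  refine ⟨hc.ge, ?_, ?_⟩
  · rw [hc]; exact (l2_le_l1_iff hS _).mpr ha
  · rw [hc]; exact (l2_le_l3_iff hS _).mpr hb

theorem segL3 {i : ℕ} (hS : Γ.S i) : segment ℝ (Γ.c (i + 1)) (Γ.w i) ⊆ Γ.spike i := by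
  have h1 := Γ.w_gt i hS
  intro z hz
  rw [mem_segment_iff h1] at hz
  obtain ⟨ha, hb, hc⟩ := hz
  refine ⟨?_, ?_, hc.le⟩
  · rw [hc]; exact (l2_le_l3_iff hS _).mpr hb
  · rw [hc]; exact l3_le_l1 hS ha

variable (Γ)

theorem not_sees_chain {i l j : ℕ} (hil : i < l) (hlj : l < j) (hj : j ≤ Γ.r)
    (h : ln (Γ.c i) (Γ.c j) (Γ.c l).1 < (Γ.c l).2) (hS : ¬ Γ.S l) (hS' : ¬ Γ.S (l - 1)) :
    ¬ segment ℝ (Γ.c i) (Γ.c j) ⊆ Γ.body := by
  intro hsub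
  have hmem : ((Γ.c l).1, ln (Γ.c i) (Γ.c j) (Γ.c l).1) ∈ segment ℝ (Γ.c i) (Γ.c j) := by
    rw [mem_segment_iff (Γ.strictMono (hil.trans hlj) hj)]
    exact ⟨(Γ.strictMono hil (by omega)).le, (Γ.strictMono hlj hj).le, rfl⟩
  rcases hsub hmem with ⟨a, ha, h1, h2, h3, _⟩ | ⟨a, ha, hsp⟩
  · simp only at h1 h2 h3
    have e1 : a ≤ l := by
      by_contra hcon
      exact absurd h1 (not_le.mpr (Γ.strictMono (by omega) (by omega)))
    have e2 : l ≤ a + 1 := by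
      by_contra hcon
      exact absurd h2 (not_le.mpr (Γ.strictMono (by omega) (by omega)))
    rcases e1.lt_or_eq with h4 | rfl
    · obtain rfl : l = a + 1 := by omega
      rw [ln_right (Γ.mono a ha).ne] at h3
      exact absurd h (not_lt.mpr h3)
    · rw [ln_left] at h3
      exact absurd h (not_lt.mpr h3)
  · have hg := Γ.gap a ha
    obtain ⟨h1, h2⟩ := spike_fst ha hsp
    simp only at h1 h2
    have h3 := Γ.w_lt a ha
    have e1 : a ≤ l := by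
      by_contra hcon
      exact absurd h1 (not_le.mpr (Γ.strictMono (by omega) (by omega)))
    have e2 : l < a + 2 := Γ.lt_of_fst_lt (by omega) (lt_of_le_of_lt h2 h3)
    rcases e1.lt_or_eq with h4 | rfl
    · obtain rfl : l = a + 1 := by omega
      exact hS' (by simpa using ha)
    · exact hS ha

theorem sees_tip_left {i j : ℕ} (hS : Γ.S i) (hj : j < i)
    (hcol : (Γ.w i).2 = ln (Γ.c j) (Γ.c i) (Γ.w i).1)
    (h : ∀ l, j < l → l < i → (Γ.c l).2 ≤ ln (Γ.c j) (Γ.c i) (Γ.c l).1) :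
    segment ℝ (Γ.w i) (Γ.c j) ⊆ Γ.body := by
  have hg := Γ.gap i hS
  have h1 : (Γ.c i).1 < (Γ.w i).1 := (Γ.mono i (by omega)).trans (Γ.w_gt i hS)
  have h2 : (Γ.c j).1 < (Γ.c i).1 := Γ.strictMono hj (by omega)
  have hline : ∀ x, ln (Γ.c j) (Γ.w i) x = ln (Γ.c j) (Γ.c i) x := by
    intro x
    have h3 := ln_sub_eq (Γ.c j) (Γ.w i) (Γ.c j) (Γ.c i) (h2.trans h1).ne (by simp) x
    rw [ln_right (h2.trans h1).ne, ← hcol, sub_self, mul_zero] at h3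
    linarith
  intro z hz
  rw [segment_symm, mem_segment_iff (h2.trans h1)] at hz
  obtain ⟨ha, hb, hc⟩ := hz
  rw [hline] at hc
  rcases le_total z.1 (Γ.c i).1 with h4 | h4
  · refine Γ.sees_chain hj (by omega) h ?_
    rw [mem_segment_iff h2]
    exact ⟨ha, h4, hc⟩
  · refine Or.inr ⟨i, hS, segL2 hS ?_⟩
    rw [mem_segment_iff h1]
    refine ⟨h4, hb, ?_⟩
    rw [hc]
    have h3 := ln_sub_eq (Γ.c i) (Γ.w i) (Γ.c j) (Γ.c i) h1.ne
      (by rw [ln_left, ln_right h2.ne]) z.1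
    rw [ln_right h1.ne, ← hcol, sub_self, mul_zero] at h3
    linarith

theorem sees_tip_right {i j : ℕ} (hS : Γ.S i) (hj : j < i)
    (hcol : (Γ.w i).2 = ln (Γ.c j) (Γ.c (i + 1)) (Γ.w i).1)
    (h : ∀ l, j < l → l < i + 1 → (Γ.c l).2 ≤ ln (Γ.c j) (Γ.c (i + 1)) (Γ.c l).1) :
    segment ℝ (Γ.w i) (Γ.c j) ⊆ Γ.body := by
  have hg := Γ.gap i hS
  have h1 : (Γ.c (i + 1)).1 < (Γ.w i).1 := Γ.w_gt i hS
  have h2 : (Γ.c j).1 < (Γ.c (i + 1)).1 := Γ.strictMono (by omega) (by omega)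
  have hline : ∀ x, ln (Γ.c j) (Γ.w i) x = ln (Γ.c j) (Γ.c (i + 1)) x := by
    intro x
    have h3 := ln_sub_eq (Γ.c j) (Γ.w i) (Γ.c j) (Γ.c (i + 1)) (h2.trans h1).ne (by simp) x
    rw [ln_right (h2.trans h1).ne, ← hcol, sub_self, mul_zero] at h3
    linarith
  intro z hz
  rw [segment_symm, mem_segment_iff (h2.trans h1)] at hz
  obtain ⟨ha, hb, hc⟩ := hz
  rw [hline] at hc
  rcases le_total z.1 (Γ.c (i + 1)).1 with h4 | h4
  · refine Γ.sees_chain (show j < i + 1 by omega) (by omega) h ?_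
    rw [mem_segment_iff h2]
    exact ⟨ha, h4, hc⟩
  · refine Or.inr ⟨i, hS, segL3 hS ?_⟩
    rw [mem_segment_iff h1]
    refine ⟨h4, hb, ?_⟩
    rw [hc]
    have h3 := ln_sub_eq (Γ.c (i + 1)) (Γ.w i) (Γ.c j) (Γ.c (i + 1)) h1.ne
      (by rw [ln_left, ln_right h2.ne]) z.1
    rw [ln_right h1.ne, ← hcol, sub_self, mul_zero] at h3
    linarith

theorem sees_tip_edge {i : ℕ} (hS : Γ.S i) :
    segment ℝ (Γ.w i) (Γ.c i) ⊆ Γ.body ∧ segment ℝ (Γ.w i) (Γ.c (i + 1)) ⊆ Γ.body := by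
  constructor
  · rw [segment_symm]
    exact fun z hz => Or.inr ⟨i, hS, segL2 hS hz⟩
  · rw [segment_symm]
    exact fun z hz => Or.inr ⟨i, hS, segL3 hS hz⟩

/-- Near the tip, the body is the spike. -/
theorem near_tip {i : ℕ} (hS : Γ.S i) {z : ℝ × ℝ} (h1 : (Γ.c (i + 1)).1 < z.1)
    (h2 : z.1 < (Γ.c (i + 2)).1) (h3 : z.2 < ln (Γ.c (i + 1)) (Γ.c (i + 2)) z.1)
    (hz : z ∈ Γ.body) : z ∈ Γ.spike i := by
  have hg := Γ.gap i hS
  rcases hz with ⟨a, ha, h4, h5, h6, _⟩ | ⟨a, ha, hsp⟩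
  · exfalso
    have e1 : a < i + 2 := Γ.lt_of_fst_lt (by omega) (lt_of_le_of_lt h4 h2)
    have e2 : i + 1 < a + 1 := Γ.lt_of_fst_lt (by omega) (lt_of_lt_of_le h1 h5)
    obtain rfl : a = i + 1 := by omega
    exact absurd h3 (not_lt.mpr h6)
  · have hg' := Γ.gap a ha
    obtain ⟨h4, h5⟩ := spike_fst ha hsp
    have h6 := Γ.w_lt a ha
    have e1 : a < i + 2 := Γ.lt_of_fst_lt (by omega) (lt_of_le_of_lt h4 h2)
    have e2 : i + 1 < a + 2 := Γ.lt_of_fst_lt (by omega) (lt_of_lt_of_le h1 (h5.trans h6.le))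
    have e3 : a ≠ i + 1 := by
      rintro rfl
      exact Γ.gap_next i hS ha
    obtain rfl : a = i := by omega
    exact hsp

theorem not_sees_tip {i : ℕ} (hS : Γ.S i) {z : ℝ × ℝ} (hz : z ≠ Γ.w i)
    (h : (Γ.w i).1 ≤ z.1 ∨ z.2 < ln (Γ.c i) (Γ.w i) z.1 ∨ ln (Γ.c (i + 1)) (Γ.w i) z.1 < z.2) :
    ¬ segment ℝ (Γ.w i) z ⊆ Γ.body := by
  intro hsub
  have h1 : (Γ.c i).1 < (Γ.w i).1 := (Γ.mono i (by have := Γ.gap i hS; omega)).trans (Γ.w_gt i hS)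
  have h2 := Γ.w_gt i hS
  -- a point of the segment close to the tip
  have hcont : Continuous fun t : ℝ => Γ.w i + t • (z - Γ.w i) := by fun_prop
  have hopen : IsOpen {u : ℝ × ℝ | (Γ.c (i + 1)).1 < u.1 ∧ u.1 < (Γ.c (i + 2)).1 ∧
      u.2 < ln (Γ.c (i + 1)) (Γ.c (i + 2)) u.1} := by
    have hc : Continuous fun u : ℝ × ℝ => ln (Γ.c (i + 1)) (Γ.c (i + 2)) u.1 := by
      unfold ln; fun_prop
    exact (isOpen_lt continuous_const continuous_fst).inter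
      ((isOpen_lt continuous_fst continuous_const).inter (isOpen_lt continuous_snd hc))
  have hw : Γ.w i + (0 : ℝ) • (z - Γ.w i) ∈ {u : ℝ × ℝ | (Γ.c (i + 1)).1 < u.1 ∧
      u.1 < (Γ.c (i + 2)).1 ∧ u.2 < ln (Γ.c (i + 1)) (Γ.c (i + 2)) u.1} := by
    rw [zero_smul, add_zero]
    exact ⟨Γ.w_gt i hS, Γ.w_lt i hS, Γ.w_below' i hS⟩
  have hev := hcont.continuousAt.eventually_mem (hopen.mem_nhds hw)
  rw [Metric.eventually_nhds_iff] at hev
  obtain ⟨ε, hε, hball⟩ := hev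
  obtain ⟨t, ht0, ht1, ht2⟩ : ∃ t : ℝ, 0 < t ∧ t ≤ 1 ∧ t < ε :=
    ⟨min 1 (ε / 2), by positivity, min_le_left _ _, (min_le_right _ _).trans_lt (by linarith)⟩
  have hu := hball (y := t) (by rw [Real.dist_eq, sub_zero, abs_of_pos ht0]; exact ht2)
  have hseg : Γ.w i + t • (z - Γ.w i) ∈ segment ℝ (Γ.w i) z := by
    rw [segment_eq_image']
    exact ⟨t, ⟨ht0.le, ht1⟩, rfl⟩
  have hsp := Γ.near_tip hS hu.1 hu.2.1 hu.2.2 (hsub hseg)
  obtain ⟨g1, g2⟩ := spike_fst hS hsp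
  obtain ⟨g3, g4, g5⟩ := hsp
  simp only [Prod.fst_add, Prod.snd_add, Prod.smul_fst, Prod.smul_snd, Prod.fst_sub, Prod.snd_sub,
    smul_eq_mul] at g1 g2 g3 g4 g5
  have e2 : ln (Γ.c i) (Γ.w i) ((Γ.w i).1 + t * (z.1 - (Γ.w i).1)) =
      (1 - t) * (Γ.w i).2 + t * ln (Γ.c i) (Γ.w i) z.1 := by
    have := ln_comb (Γ.c i) (Γ.w i) (Γ.w i).1 z.1 (1 - t) t (by ring)
    rw [ln_right h1.ne] at this
    rw [← this]
    congr 1
    ring
  have e3 : ln (Γ.c (i + 1)) (Γ.w i) ((Γ.w i).1 + t * (z.1 - (Γ.w i).1)) =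
      (1 - t) * (Γ.w i).2 + t * ln (Γ.c (i + 1)) (Γ.w i) z.1 := by
    have := ln_comb (Γ.c (i + 1)) (Γ.w i) (Γ.w i).1 z.1 (1 - t) t (by ring)
    rw [ln_right h2.ne] at this
    rw [← this]
    congr 1
    ring
  rw [e2] at g3
  rw [e3] at g5
  have k1 : ln (Γ.c i) (Γ.w i) z.1 ≤ z.2 := by
    by_contra hcon
    push Not at hcon
    nlinarith
  have k2 : z.2 ≤ ln (Γ.c (i + 1)) (Γ.w i) z.1 := by
    by_contra hcon
    push Not at hcon
    nlinarith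
  have k3 : z.1 ≤ (Γ.w i).1 := by
    by_contra hcon
    push Not at hcon
    nlinarith
  rcases h with h | h | h
  · have e4 : z.1 = (Γ.w i).1 := le_antisymm k3 h
    rw [e4, ln_right h1.ne] at k1
    rw [e4, ln_right h2.ne] at k2
    exact hz (Prod.ext e4 (le_antisymm k2 k1))
  · exact absurd h (not_lt.mpr k1)
  · exact absurd h (not_lt.mpr k2)

end Chain

end Pool.Agent.VDC
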