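import Pool.Agent.VDC.Inst
import Pool.Agent.VDC.Sees

/-!
# Arithmetic of the positions
-/

namespace Pool.Agent.VDC

/-- coarse position -/
def cU (m i : ℕ) : ℕ :=
  if i < 3 * m then 5 * (i / 3) + 2 * (i % 3)
  else 5 * m + 10 + 6 * ((i - 3 * m) / 5) +
    (if (i - 3 * m) % 5 ≤ 1 then 0 else if (i - 3 * m) % 5 = 2 then 2 else 4)

/-- fine position -/
def cE (m i : ℕ) : ℕ :=
  if i < 3 * m then 0
  else if (i - 3 * m) % 5 = 0 then 0 else if (i - 3 * m) % 5 = 4 then 2 else 1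

theorem pos_eq (m c i : ℕ) : pos m c i = unitG m c * cU m i + cE m i := by
  unfold pos cU cE off
  split_ifs <;> first | omega | ring

theorem cE_le (m i : ℕ) : cE m i ≤ 2 := by
  unfold cE; split_ifs <;> omega

theorem unitG_ge (m c : ℕ) : 21 ≤ unitG m c := by unfold unitG unitD; omega

variable {m c : ℕ}

theorem pos_add_le {u l k : ℕ} (h : cU m u + k + 1 ≤ cU m l) :
    pos m c u + k * unitG m c ≤ pos m c l := by
  rw [pos_eq, pos_eq]
  have h1 := cE_le m u
  have h2 := unitG_ge m c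
  have h3 : unitG m c * (cU m u + k + 1) ≤ unitG m c * cU m l := Nat.mul_le_mul_left _ h
  nlinarith

theorem pos_add_le' {u l k : ℕ} (h : cU m u + k ≤ cU m l) (hE : cE m u ≤ cE m l) :
    pos m c u + k * unitG m c ≤ pos m c l := by
  rw [pos_eq, pos_eq]
  have h3 : unitG m c * (cU m u + k) ≤ unitG m c * cU m l := Nat.mul_le_mul_left _ h
  nlinarith

theorem pos_lt_succ (m c i : ℕ) : pos m c i < pos m c (i + 1) := by
  have hG := unitG_ge m c
  rcases Nat.lt_trichotomy (cU m i) (cU m (i + 1)) with h | h | h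
  · by_cases hE : cE m i ≤ cE m (i + 1)
    · have := pos_add_le' (m := m) (c := c) (u := i) (l := i + 1) (k := 1) (by omega) hE
      omega
    · have h2 : cU m i + 2 ≤ cU m (i + 1) := by
        revert hE h
        unfold cU cE
        split_ifs <;> omega
      have := pos_add_le (m := m) (c := c) (u := i) (l := i + 1) (k := 1) (by omega)
      omega
  · have h2 : cE m (i + 1) = cE m i + 1 := by
      revert h
      unfold cU cE
      split_ifs <;> omega
    rw [pos_eq, pos_eq, h, h2]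
    omega
  · exfalso
    revert h
    unfold cU
    split_ifs <;> omega

theorem pos_lt {i l : ℕ} (h : i < l) : pos m c i < pos m c l := by
  induction l, h using Nat.le_induction with
  | base => exact pos_lt_succ m c i
  | succ l _ ih => exact ih.trans (pos_lt_succ m c l)

theorem pos_le {i l : ℕ} (h : i ≤ l) : pos m c i ≤ pos m c l := by
  rcases h.lt_or_eq with h | rfl
  · exact (pos_lt h).le
  · exact le_rfl

theorem pos_gap {i : ℕ} (h : Gap m c i) : pos m c (i + 1) = pos m c i + 1 := by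
  rw [pos_eq, pos_eq]
  have h1 : cU m (i + 1) = cU m i := by
    revert h; unfold Gap cU; intro h; split_ifs <;> omega
  have h2 : cE m (i + 1) = cE m i + 1 := by
    revert h; unfold Gap cE; intro h; split_ifs <;> omega
  rw [h1, h2]; ring

theorem M_form {l : ℕ} (hM : IsM m l) :
    (l < 3 * m ∧ l % 3 = 1 ∧ cU m l = 5 * (l / 3) + 2 ∧ cE m l = 0) ∨
    (3 * m ≤ l ∧ (l - 3 * m) % 5 = 2 ∧ cU m l = 5 * m + 10 + 6 * ((l - 3 * m) / 5) + 2 ∧
      cE m l = 1) := by
  unfold IsM at hM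
  rcases hM with ⟨h1, h2⟩ | ⟨h1, h2⟩
  · left
    unfold cU cE
    rw [if_pos h1, if_pos h1]
    omega
  · right
    have h3 : ¬ l < 3 * m := by omega
    unfold cU cE
    simp [h1, h2, h3]

theorem U_form (m u : ℕ) :
    (u < 3 * m ∧ cU m u = 5 * (u / 3) + 2 * (u % 3) ∧ cE m u = 0) ∨
    (3 * m ≤ u ∧ (u - 3 * m) % 5 ≤ 1 ∧ cU m u = 5 * m + 10 + 6 * ((u - 3 * m) / 5) ∧
      cE m u = (u - 3 * m) % 5) ∨
    (3 * m ≤ u ∧ (u - 3 * m) % 5 = 2 ∧ cU m u = 5 * m + 10 + 6 * ((u - 3 * m) / 5) + 2 ∧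
      cE m u = 1) ∨
    (3 * m ≤ u ∧ 3 ≤ (u - 3 * m) % 5 ∧ cU m u = 5 * m + 10 + 6 * ((u - 3 * m) / 5) + 4 ∧
      cE m u + 2 = (u - 3 * m) % 5) := by
  unfold cU cE
  split_ifs <;> omega

theorem M_before {u l : ℕ} (hM : IsM m l) (hul : u < l) :
    (cU m u + 4 ≤ cU m l ∨ (cU m u + 3 ≤ cU m l ∧ cE m u ≤ cE m l)) ∨
    (cU m u + 2 = cU m l ∧ cE m u ≤ cE m l ∧
      ((l < 3 * m ∧ u / 3 = l / 3 ∧ u % 3 = 0) ∨
        (3 * m ≤ u ∧ (u - 3 * m) / 5 = (l - 3 * m) / 5 ∧ (u - 3 * m) % 5 ≤ 1))) := by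
  have h1 := M_form hM
  have h2 := U_form m u
  rcases h1 with h1 | h1 <;> rcases h2 with h2 | h2 | h2 | h2 <;> omega

theorem M_after {l v : ℕ} (hM : IsM m l) (hlv : l < v) :
    (cU m l + 4 ≤ cU m v ∨ (cU m l + 3 ≤ cU m v ∧ cE m l ≤ cE m v)) ∨
    (cU m l + 2 = cU m v ∧ cE m l ≤ cE m v ∧
      ((v < 3 * m ∧ v / 3 = l / 3 ∧ v % 3 = 2) ∨
        (3 * m ≤ l ∧ (v - 3 * m) / 5 = (l - 3 * m) / 5 ∧ 3 ≤ (v - 3 * m) % 5))) := by
  have h1 := M_form hM
  have h2 := U_form m v
  have h3 : l / 3 ≤ v / 3 := Nat.div_le_div_right hlv.le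
  rcases h1 with h1 | h1 <;> rcases h2 with h2 | h2 | h2 | h2
  · rcases h3.lt_or_eq with h3 | h3 <;> omega
  all_goals omega

/-- left of a bump -/
theorem M_left {u l : ℕ} (hM : IsM m l) (hul : u < l) :
    pos m c u + 2 * unitG m c ≤ pos m c l := by
  rcases M_before hM hul with (h | ⟨h, h'⟩) | ⟨h, h', _⟩
  · exact pos_add_le (k := 2) (by omega)
  · exact pos_add_le (k := 2) (by omega)
  · exact pos_add_le' (k := 2) (by omega) h'

/-- right of a bump -/
theorem M_right {l v : ℕ} (hM : IsM m l) (hlv : l < v) :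
    pos m c l + 2 * unitG m c ≤ pos m c v := by
  rcases M_after hM hlv with (h | ⟨h, h'⟩) | ⟨h, h', _⟩
  · exact pos_add_le (k := 2) (by omega)
  · exact pos_add_le (k := 2) (by omega)
  · exact pos_add_le' (k := 2) (by omega) h'

/-- two vertices on both sides of a bump which are not in its group -/
theorem M_both {u l v : ℕ} (hM : IsM m l) (hul : u < l) (hlv : l < v) (hex : ¬ Excl m u v) :
    pos m c u + 3 * unitG m c ≤ pos m c l ∨ pos m c l + 3 * unitG m c ≤ pos m c v := by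
  rcases M_before hM hul with (h | ⟨h, h'⟩) | ⟨_, _, h1⟩
  · exact Or.inl (pos_add_le (k := 3) (by omega))
  · exact Or.inl (pos_add_le' (k := 3) h h')
  · rcases M_after hM hlv with (h | ⟨h, h'⟩) | ⟨_, _, h2⟩
    · exact Or.inr (pos_add_le (k := 3) (by omega))
    · exact Or.inr (pos_add_le' (k := 3) h h')
    · exfalso
      apply hex
      unfold Excl
      omega

/-- excluded pairs are separated by a bump, close to both -/
theorem excl_bump {u v : ℕ} (huv : u < v) (hex : Excl m u v) : ∃ l, u < l ∧ l < v ∧ IsM m l ∧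
    pos m c l ≤ pos m c u + 2 * unitG m c + 1 ∧ pos m c v ≤ pos m c l + 2 * unitG m c + 1 ∧
    ¬ IsM m u ∧ ¬ IsM m v ∧ ¬ Gap m c l ∧ ¬ Gap m c (l - 1) := by
  have hG := unitG_ge m c
  unfold Excl at hex
  rcases hex with ⟨h1, h2, h3, h4⟩ | ⟨h1, h2, h3, h4⟩
  · refine ⟨u + 1, by omega, by omega, by unfold IsM; omega, ?_, ?_, by unfold IsM; omega,
      by unfold IsM; omega, by unfold Gap; omega, by unfold Gap; omega⟩
    · rw [pos_eq, pos_eq]
      have e1 : cU m (u + 1) = cU m u + 2 := by unfold cU; split_ifs <;> omega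
      have e2 : cE m (u + 1) = cE m u := by unfold cE; split_ifs <;> omega
      rw [e1, e2]; nlinarith
    · rw [pos_eq, pos_eq]
      have e1 : cU m v = cU m (u + 1) + 2 := by unfold cU; split_ifs <;> omega
      have e2 : cE m v = cE m (u + 1) := by unfold cE; split_ifs <;> omega
      rw [e1, e2]; nlinarith
  · refine ⟨3 * m + 5 * ((u - 3 * m) / 5) + 2, by omega, by omega, by unfold IsM; omega, ?_, ?_,
      by unfold IsM; omega, by unfold IsM; omega, by unfold Gap; omega, by unfold Gap; omega⟩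
    · rw [pos_eq, pos_eq]
      have e1 : cU m (3 * m + 5 * ((u - 3 * m) / 5) + 2) = cU m u + 2 := by
        unfold cU; split_ifs <;> omega
      have e2 : cE m (3 * m + 5 * ((u - 3 * m) / 5) + 2) ≤ cE m u + 1 := by
        unfold cE; split_ifs <;> omega
      rw [e1]; nlinarith
    · rw [pos_eq, pos_eq]
      have e1 : cU m v = cU m (3 * m + 5 * ((u - 3 * m) / 5) + 2) + 2 := by
        unfold cU; split_ifs <;> omega
      have e2 : cE m v ≤ cE m (3 * m + 5 * ((u - 3 * m) / 5) + 2) + 1 := by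
        unfold cE; split_ifs <;> omega
      rw [e1]; nlinarith

/-! ### Targets -/

/-- coarse position of the left end of a target -/
def tU (t : ℕ) : ℕ := 5 * (t / 3) + (if t % 3 = 0 then 0 else if t % 3 = 1 then 3 else 4)

theorem aT_eq (m c t : ℕ) : aT m c t = unitG m c * tU t := by
  unfold aT tU
  split_ifs <;> first | omega | ring

theorem tU_lt {t : ℕ} (ht : ValidT m t) : tU t + 1 ≤ 5 * m := by
  unfold ValidT at ht; unfold tU; split_ifs <;> omega

theorem cU_gap {i : ℕ} (h : Gap m c i) : 5 * m + 10 ≤ cU m i := by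
  unfold Gap at h; unfold cU; split_ifs <;> omega

theorem cU_le {i : ℕ} (h : i ≤ 3 * m + 5 * c) : cU m i ≤ 5 * m + 10 + 6 * c := by
  unfold cU; split_ifs <;> omega

/-- a chain vertex left of a gap, relative to a target -/
theorem target_cases {i t l : ℕ} (_hi : Gap m c i) (ht : ValidT m t) (_hl : l < i) :
    (cU m l < tU t ∧ cE m l = 0) ∨
    (cU m l = tU t ∧ cE m l = 0 ∧ Tgt t l ∧ ¬ IsM m l) ∨
    (cU m l = tU t + 1 ∧ cE m l = 0 ∧ Tgt t l ∧ ¬ IsM m l) ∨
    (tU t + 2 ≤ cU m l ∧ ¬ Tgt t l) := by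
  unfold ValidT at ht; unfold cU tU cE Tgt IsM
  split_ifs <;> omega

theorem tgt_cases {i t l : ℕ} (hi : Gap m c i) (ht : ValidT m t) (h : Tgt t l) :
    l < i ∧ ((cU m l = tU t ∧ cE m l = 0) ∨ (cU m l = tU t + 1 ∧ cE m l = 0)) ∧ ¬ IsM m l ∧
      l < 3 * m := by
  unfold Gap at hi; unfold ValidT at ht; unfold Tgt at h; unfold cU tU cE IsM
  split_ifs <;> omega

/-- a bump between a target and a gap -/
theorem M_target {i t l : ℕ} (hi : Gap m c i) (ht : ValidT m t) (hl : l < i) (hM : IsM m l)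
    (h : tU t + 2 ≤ cU m l) :
    (tU t + 2 ≤ cU m l ∧ cU m l + 13 ≤ cU m i) ∨ (tU t + 10 ≤ cU m l ∧ cU m l + 2 ≤ cU m i ∧
      cE m l ≤ cE m i) ∨ (tU t + 10 ≤ cU m l ∧ cU m l + 3 ≤ cU m i) := by
  unfold Gap at hi; unfold ValidT at ht; unfold IsM at hM
  revert h
  unfold cU tU cE
  split_ifs <;> omega

end Pool.Agent.VDC
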